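import Mathlib

set_option autoImplicit false

namespace Pool.Agent.Lib.MP_6b7ffe_lc

open Function

section
variable {α β : Type} [DecidableEq α] [DecidableEq β]

/-- a colour not in the list -/
def free (l : List (Fin 3)) : Fin 3 := if 0 ∈ l then (if 1 ∈ l then 2 else 1) else 0

theorem free_not_mem {l : List (Fin 3)} (h : l.length ≤ 2) : free l ∉ l := by
  unfold free
  split_ifs with h0 h1
  · intro h2
    have : ([0, 1, 2] : List (Fin 3)).length ≤ l.length :=
      (List.subperm_of_subset (by decide) (by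
        intro x hx
        simp only [List.mem_cons, List.not_mem_nil, or_false] at hx
        rcases hx with rfl | rfl | rfl <;> assumption)).length_le
    simp at this; omega
  · exact h1
  · exact h0

/-- one round of the search for the alternating component -/
def grow (col : List ((α × β) × Fin 3)) (y : β) (a b : Fin 3) (L : List α) : List α :=
  (col.filter fun p => decide (p.2 = a ∧ (p.1.2 = y ∨
    ∃ q ∈ col, q.2 = b ∧ q.1.2 = p.1.2 ∧ q.1.1 ∈ L))).map fun p => p.1.1

theorem mem_grow {col : List ((α × β) × Fin 3)} {y : β} {a b : Fin 3} {L : List α} {x : α} :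
    x ∈ grow col y a b L ↔ ∃ p ∈ col, p.1.1 = x ∧ p.2 = a ∧ (p.1.2 = y ∨
      ∃ q ∈ col, q.2 = b ∧ q.1.2 = p.1.2 ∧ q.1.1 ∈ L) := by
  simp only [grow, List.mem_map, List.mem_filter, decide_eq_true_eq]
  constructor
  · rintro ⟨p, ⟨h1, h2⟩, h3⟩; exact ⟨p, h1, h3, h2⟩
  · rintro ⟨p, h1, h3, h2⟩; exact ⟨p, ⟨h1, h2⟩, h3⟩

theorem grow_mono {col : List ((α × β) × Fin 3)} {y : β} {a b : Fin 3} {L L' : List α}
    (h : L ⊆ L') : grow col y a b L ⊆ grow col y a b L' := by
  intro x hx
  obtain ⟨p, h1, h2, h3, h4⟩ := mem_grow.1 hx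
  refine mem_grow.2 ⟨p, h1, h2, h3, h4.imp_right ?_⟩
  rintro ⟨q, a1, a2, a3, a4⟩
  exact ⟨q, a1, a2, a3, h a4⟩

theorem iter_stable {γ : Type} [DecidableEq γ] (f : List γ → List γ) (U : List γ)
    (mono : ∀ L L', L ⊆ L' → f L ⊆ f L') (hU : ∀ L, f L ⊆ U) (N : ℕ) (hN : U.length ≤ N) :
    ∀ x, x ∈ f (f^[N] []) ↔ x ∈ f^[N] [] := by
  have up : ∀ k, f^[k] [] ⊆ f^[k + 1] [] := by
    intro k
    induction k with
    | zero => simp
    | succ k ih =>
      rw [iterate_succ_apply', iterate_succ_apply' f (k + 1)]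
      exact mono _ _ ih
  have key : ∀ k, f^[k + 1] [] ⊆ f^[k] [] ∨ k + 1 ≤ (f^[k + 1] []).toFinset.card := by
    intro k
    induction k with
    | zero =>
      rcases h : f^[0 + 1] [] with _ | ⟨x, l⟩
      · left; simp
      · right; exact Finset.card_pos.2 ⟨x, by simp⟩
    | succ k ih =>
      rcases ih with ih | ih
      · left
        rw [iterate_succ_apply' f (k + 1), iterate_succ_apply' f k] at *
        exact mono _ _ ih
      · by_cases h : f^[k + 1 + 1] [] ⊆ f^[k + 1] []
        · exact .inl h
        · right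
          have : (f^[k + 1] []).toFinset ⊂ (f^[k + 1 + 1] []).toFinset := by
            refine ⟨fun x hx => ?_, fun hh => h fun x hx => ?_⟩
            · exact List.mem_toFinset.2 (up _ (List.mem_toFinset.1 hx))
            · exact List.mem_toFinset.1 (hh (List.mem_toFinset.2 hx))
          have := Finset.card_lt_card this
          omega
  intro x
  rw [← iterate_succ_apply' f N]
  refine ⟨fun hx => ?_, fun hx => up N hx⟩
  rcases key N with h | h
  · exact h hx
  · have h1 : (f^[N + 1] []).toFinset ⊆ U.toFinset := fun x hx => by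
      rw [iterate_succ_apply'] at hx
      exact List.mem_toFinset.2 (hU _ (List.mem_toFinset.1 hx))
    have h2 := Finset.card_le_card h1
    have h3 := List.toFinset_card_le U
    omega

def comp (col : List ((α × β) × Fin 3)) (y : β) (a b : Fin 3) : List α :=
  (grow col y a b)^[col.length] []

theorem mem_comp {col : List ((α × β) × Fin 3)} {y : β} {a b : Fin 3} {x : α} :
    x ∈ comp col y a b ↔ ∃ p ∈ col, p.1.1 = x ∧ p.2 = a ∧ (p.1.2 = y ∨
      ∃ q ∈ col, q.2 = b ∧ q.1.2 = p.1.2 ∧ q.1.1 ∈ comp col y a b) := by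
  rw [← mem_grow]
  refine (iter_stable (grow col y a b) (col.map fun p => p.1.1) (fun _ _ => grow_mono)
    (fun L x hx => ?_) col.length (by simp) x).symm
  obtain ⟨p, h1, h2, -⟩ := mem_grow.1 hx
  exact List.mem_map.2 ⟨p, h1, h2⟩

def sw (a b c : Fin 3) : Fin 3 := if c = a then b else if c = b then a else c

def recol (L : List α) (a b : Fin 3) (p : (α × β) × Fin 3) : (α × β) × Fin 3 :=
  (p.1, if p.1.1 ∈ L then sw a b p.2 else p.2)

def freeL (col : List ((α × β) × Fin 3)) (x : α) : Fin 3 :=
  free ((col.filter fun p => decide (p.1.1 = x)).map fun p => p.2)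

def freeR (col : List ((α × β) × Fin 3)) (y : β) : Fin 3 :=
  free ((col.filter fun p => decide (p.1.2 = y)).map fun p => p.2)

def addEdge (e : α × β) (col : List ((α × β) × Fin 3)) : List ((α × β) × Fin 3) :=
  (e, freeL col e.1) :: col.map
    (recol (comp col e.2 (freeL col e.1) (freeR col e.2)) (freeL col e.1) (freeR col e.2))

def colouring (l : List (α × β)) : List ((α × β) × Fin 3) := l.foldr addEdge []

def Proper (col : List ((α × β) × Fin 3)) : Prop :=
  ∀ p ∈ col, ∀ q ∈ col, (p.1.1 = q.1.1 ∨ p.1.2 = q.1.2) → p.2 = q.2 → p = q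

theorem colouring_keys (l : List (α × β)) : (colouring l).map (fun p => p.1) = l := by
  induction l with
  | nil => rfl
  | cons e l ih =>
    change (addEdge e (colouring l)).map _ = _
    simp only [addEdge, List.map_cons, List.map_map]
    rw [← ih]
    congr 1
    rw [ih]
    exact ih

theorem sw_inj {a b c d : Fin 3} (h : sw a b c = sw a b d) : c = d := by
  revert a b c d; decide

theorem sw_ne {a b c d : Fin 3} (h : sw a b c = d) (h1 : c ≠ d) :
    (c = a ∧ d = b) ∨ (c = b ∧ d = a) := by
  revert a b c d; decide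

theorem sw_eq_left {a b c : Fin 3} (h : sw a b c = a) : c = b := by
  revert a b c; decide

theorem proper_addEdge {col : List ((α × β) × Fin 3)} (e : α × β) (H : Proper col)
    (ha : ∀ p ∈ col, p.1.1 = e.1 → p.2 ≠ freeL col e.1)
    (hb : ∀ p ∈ col, p.1.2 = e.2 → p.2 ≠ freeR col e.2) : Proper (addEdge e col) := by
  set a := freeL col e.1
  set b := freeR col e.2
  set L := comp col e.2 a b with hL
  have mixed : ∀ p ∈ col, ∀ q ∈ col, p.1.1 ∈ L → q.1.1 ∉ L → p.1.2 = q.1.2 → sw a b p.2 ≠ q.2 := by
    intro p hp q hq h1 h2 h3 h4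
    have hne : p.2 ≠ q.2 := fun h => h2 (H p hp q hq (.inr h3) h ▸ h1)
    rcases sw_ne h4 hne with ⟨c1, c2⟩ | ⟨c1, c2⟩
    · obtain ⟨p', hp', d1, d2, d3⟩ := mem_comp.1 h1
      have : p' = p := H p' hp' p hp (.inl d1) (d2.trans c1.symm)
      subst this
      rcases d3 with d3 | ⟨q', hq', e1, e2, e3⟩
      · exact hb q hq (h3.symm.trans d3) c2
      · have : q' = q := H q' hq' q hq (.inr (e2.trans h3)) (e1.trans c2.symm)
        subst this
        exact h2 e3
    · exact h2 (mem_comp.2 ⟨q, hq, rfl, c2, .inr ⟨p, hp, c1, h3, h1⟩⟩)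
  have new : ∀ p ∈ col, (p.1.1 = e.1 ∨ p.1.2 = e.2) → (recol L a b p).2 ≠ a := by
    intro p hp h1 h2
    simp only [recol] at h2
    rcases h1 with h1 | h1
    · split_ifs at h2 with h3
      · obtain ⟨p', hp', d1, d2, -⟩ := mem_comp.1 h3
        exact ha p' hp' (d1.trans h1) d2
      · exact ha p hp h1 h2
    · split_ifs at h2 with h3
      · exact hb p hp h1 (sw_eq_left h2)
      · exact h3 (mem_comp.2 ⟨p, hp, rfl, h2, .inl h1⟩)
  intro p hp q hq h1 h2
  simp only [addEdge, List.mem_cons, List.mem_map] at hp hq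
  rcases hp with rfl | ⟨p, hp, rfl⟩ <;> rcases hq with rfl | ⟨q, hq, rfl⟩
  · rfl
  · exact (new q hq (h1.imp Eq.symm Eq.symm) h2.symm).elim
  · exact (new p hp h1 h2).elim
  · congr 1
    simp only [recol] at h1 h2
    split_ifs at h2 with h3 h4 h4
    · exact H p hp q hq h1 (sw_inj h2)
    · rcases h1 with h1 | h1
      · exact (h4 (h1 ▸ h3)).elim
      · exact (mixed p hp q hq h3 h4 h1 h2).elim
    · rcases h1 with h1 | h1
      · exact (h3 (h1 ▸ h4)).elim
      · exact (mixed q hq p hp h4 h3 h1.symm h2.symm).elim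
    · exact H p hp q hq h1 h2

theorem proper_colouring (l : List (α × β))
    (h1 : ∀ x, (l.filter fun p => decide (p.1 = x)).length ≤ 3)
    (h2 : ∀ y, (l.filter fun p => decide (p.2 = y)).length ≤ 3) : Proper (colouring l) := by
  induction l with
  | nil => intro p hp; simp [colouring] at hp
  | cons e l ih =>
    have ih := ih (fun x => ((List.sublist_cons_self e l).filter _).length_le.trans (h1 x))
      (fun y => ((List.sublist_cons_self e l).filter _).length_le.trans (h2 y))
    have k := colouring_keys l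
    refine proper_addEdge e ih (fun p hp e1 e2 => ?_) (fun p hp e1 e2 => ?_)
    · refine free_not_mem (l := ((colouring l).filter fun p => decide (p.1.1 = e.1)).map
        fun p => p.2) ?_ (List.mem_map.2 ⟨p, List.mem_filter.2 ⟨hp, by simpa using e1⟩, e2⟩)
      have := h1 e.1
      rw [List.filter_cons_of_pos (by simp), ← k, List.filter_map] at this
      simp only [List.length_cons, List.length_map] at this ⊢
      exact Nat.le_of_succ_le_succ this
    · refine free_not_mem (l := ((colouring l).filter fun p => decide (p.1.2 = e.2)).map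
        fun p => p.2) ?_ (List.mem_map.2 ⟨p, List.mem_filter.2 ⟨hp, by simpa using e1⟩, e2⟩)
      have := h2 e.2
      rw [List.filter_cons_of_pos (by simp), ← k, List.filter_map] at this
      simp only [List.length_cons, List.length_map] at this ⊢
      exact Nat.le_of_succ_le_succ this

/-- the colour of an edge -/
def colOf (l : List (α × β)) (e : α × β) : Fin 3 :=
  (((colouring l).find? fun p => decide (p.1 = e)).map fun p => p.2).getD 0

theorem colOf_mem {l : List (α × β)} {e : α × β} (h : e ∈ l) : (e, colOf l e) ∈ colouring l := by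
  rw [← colouring_keys l] at h
  obtain ⟨p, hp, rfl⟩ := List.mem_map.1 h
  unfold colOf
  rcases hf : (colouring l).find? fun q => decide (q.1 = p.1) with _ | q
  · have := List.find?_eq_none.1 hf p hp
    simp at this
  · have h1 := List.mem_of_find?_eq_some hf
    have h2 := List.find?_some hf
    simp only [decide_eq_true_eq] at h2
    rw [hf]
    simp only [Option.map_some, Option.getD_some]
    rw [← h2]
    exact h1

theorem colOf_proper {l : List (α × β)}
    (h1 : ∀ x, (l.filter fun p => decide (p.1 = x)).length ≤ 3)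
    (h2 : ∀ y, (l.filter fun p => decide (p.2 = y)).length ≤ 3) {e e' : α × β}
    (he : e ∈ l) (he' : e' ∈ l) (h : e.1 = e'.1 ∨ e.2 = e'.2) (hc : colOf l e = colOf l e') :
    e = e' :=
  congrArg Prod.fst (proper_colouring l h1 h2 _ (colOf_mem he) _ (colOf_mem he') h hc)

end

end Pool.Agent.Lib.MP_6b7ffe_lc
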