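import Pool.Agent.Lib.MP_6b7ffe_lc.Geom
import Pool.Agent.Lib.MP_6b7ffe_lc.Konig

set_option autoImplicit false

namespace Pool.Agent.Lib.MP_6b7ffe_lc

open Function

abbrev Mat := List (List Bool)

def adj (A : Mat) (u v : ℕ) : Bool := (A.getD u []).getD v false

def peel (A : Mat) (R : List ℕ) : List ℕ :=
  R.filter fun v => decide (3 < R.countP fun u => adj A v u)

def rem (A : Mat) (k : ℕ) : List ℕ := (peel A)^[k] (List.range A.length)

def lev (A : Mat) (v : ℕ) : ℕ :=
  ((List.range (A.length + 1)).find? fun k => decide (v ∉ rem A k)).getD 0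

def key (A : Mat) (v : ℕ) : ℕ := (A.length - lev A v) * A.length + v

def tm (A : Mat) (v : ℕ) : ℕ := (List.range A.length).countP fun u => decide (key A u < key A v)

def par (A : Mat) (v : ℕ) : List ℕ :=
  (List.range A.length).filter fun u => adj A v u && decide (tm A u < tm A v)

def chi (A : Mat) (v : ℕ) : List ℕ :=
  (List.range A.length).filter fun u => adj A v u && decide (tm A v < tm A u)

def grp (A : Mat) (a w : ℕ) : Bool := decide (w ∈ (chi A a).drop 3)

def isItem (A : Mat) (e : (ℕ × Bool) × ℕ) : Bool :=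
  decide ((e.2 ∈ chi A e.1.1 ∧ e.1.2 = grp A e.1.1 e.2) ∨
    (e.2 = e.1.1 ∧ e.1.2 = true ∧ 1 ≤ (par A e.2).length ∧ (par A e.2).length ≤ 2))

def allItems (n : ℕ) : List ((ℕ × Bool) × ℕ) :=
  ((List.range n).flatMap fun a => [(a, false), (a, true)]).flatMap fun x =>
    (List.range n).map fun w => (x, w)

def items (A : Mat) : List ((ℕ × Bool) × ℕ) := (allItems A.length).filter (isItem A)

def fc (A : Mat) (a w : ℕ) : Fin 3 := colOf (items A) ((a, grp A a w), w)

def chir (A : Mat) (w : ℕ) : Fin 3 :=
  if ∀ a ∈ par A w, ∀ x ∈ (chi A w).drop 3, fc A a w + 1 ≠ fc A w x then 1 else 2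

def port (A : Mat) (u v : ℕ) : Fin 3 := if tm A u < tm A v then fc A u v else fc A v u + chir A u

def nxt (A : Mat) (i : Fin 3) (v : ℕ) : Option ℕ := (par A v).find? fun a => decide (fc A a v = i)

def sstep (A : Mat) (i : Fin 3) (s : ℕ × Bool) : ℕ × Bool :=
  (nxt A i s.1).elim s fun a => (a, s.2 ^^ grp A a s.1)

def sgn (A : Mat) (i : Fin 3) (v : ℕ) : Bool := ((sstep A i)^[tm A v] (v, false)).2

def crd (A : Mat) (v : ℕ) (i : Fin 3) : ℤ :=
  bif sgn A i v then -((tm A v + 1 : ℕ) : ℤ) else ((tm A v + 1 : ℕ) : ℤ)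

def posn (A : Mat) (v : ℕ) : ℤ × ℤ × ℤ := (crd A v 0, crd A v 1, crd A v 2)

def bnd (A : Mat) (u v : ℕ) : ℤ × ℤ × ℤ :=
  (if port A u v = 0 then crd A v 0 else crd A u 0, if port A u v = 1 then crd A v 1 else crd A u 1,
    if port A u v = 2 then crd A v 2 else crd A u 2)

def draw (A : Mat) : List (ℤ × ℤ × ℤ) × List (List (ℤ × ℤ × ℤ)) :=
  ((List.range A.length).map (posn A),
    (List.range A.length).map fun u => (List.range A.length).map (bnd A u))

structure Good (A : Mat) : Prop where
  symm : ∀ u v, u < A.length → v < A.length → adj A u v = adj A v u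
  irr : ∀ u, u < A.length → adj A u u = false
  deg : ∀ v, v < A.length → ((List.range A.length).countP fun u => adj A v u) ≤ 6
  degen : ∀ R : List ℕ, R.Sublist (List.range A.length) → R ≠ [] →
    ∃ v ∈ R, (R.countP fun u => adj A v u) ≤ 3

variable {A : Mat}

theorem rem_succ (k : ℕ) : rem A (k + 1) = peel A (rem A k) := iterate_succ_apply' _ _ _

theorem rem_sub (k : ℕ) : (rem A k).Sublist (List.range A.length) := by
  induction k with
  | zero => exact List.Sublist.refl _
  | succ k ih => rw [rem_succ]; exact List.filter_sublist.trans ih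

theorem rem_len (H : Good A) (k : ℕ) : (rem A k).length ≤ A.length - k := by
  induction k with
  | zero => simp [rem]
  | succ k ih =>
    rw [rem_succ]
    by_cases h : rem A k = []
    · simp [h, peel]
    · obtain ⟨v, hv, h3⟩ := H.degen _ (rem_sub k) h
      have : (peel A (rem A k)).length < (rem A k).length :=
        List.length_filter_lt_length_iff_exists.2 ⟨v, hv, by simpa using h3⟩
      omega

theorem lev_spec (H : Good A) (v : ℕ) :
    lev A v ≤ A.length ∧ v ∉ rem A (lev A v) ∧ ∀ j < lev A v, v ∈ rem A j := by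
  unfold lev
  rcases hf : (List.range (A.length + 1)).find? fun k => decide (v ∉ rem A k) with _ | k
  · have := List.find?_eq_none.1 hf A.length (by simp)
    have h := rem_len H A.length
    rw [Nat.sub_self, Nat.le_zero, List.length_eq_zero_iff] at h
    simp [h] at this
  · obtain ⟨h1, h2, h3⟩ := List.find?_range_eq_some.1 hf
    simp only [Option.getD_some]
    refine ⟨by simpa [Nat.lt_succ_iff] using h2, by simpa using h1, fun j hj => ?_⟩
    simpa using h3 j hj

theorem key_inj {u v : ℕ} (hu : u < A.length) (hv : v < A.length) (h : key A u = key A v) :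
    u = v := by
  have := congrArg (· % A.length) h
  simpa [key, Nat.mul_add_mod_self_right, Nat.add_mod, Nat.mod_eq_of_lt hu, Nat.mod_eq_of_lt hv]
    using this

theorem tm_lt_of_key {u v : ℕ} (hu : u < A.length) (h : key A u < key A v) : tm A u < tm A v := by
  unfold tm
  rw [List.countP_eq_length_filter, List.countP_eq_length_filter]
  have h1 : ((List.range A.length).filter fun x => decide (key A x < key A u)) =
      ((List.range A.length).filter fun x => decide (key A x < key A v)).filter
        fun x => decide (key A x < key A u) := by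
    rw [List.filter_filter]
    refine List.filter_congr fun x _ => ?_
    by_cases hx : key A x < key A u
    · simp [hx, hx.trans h]
    · simp [hx]
  rw [h1]
  exact List.length_filter_lt_length_iff_exists.2 ⟨u, by simp [hu, h], by simp⟩

theorem key_lt_of_tm {u v : ℕ} (hv : v < A.length) (h : tm A u < tm A v) : key A u < key A v := by
  by_contra hk
  rcases (not_lt.1 hk).lt_or_eq with hk | hk
  · have := tm_lt_of_key hv hk; omega
  · simp [tm, hk] at h

theorem tm_inj {u v : ℕ} (hu : u < A.length) (hv : v < A.length) (h : tm A u = tm A v) : u = v := by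
  rcases lt_trichotomy (key A u) (key A v) with hk | hk | hk
  · have := tm_lt_of_key hu hk; omega
  · exact key_inj hu hv hk
  · have := tm_lt_of_key hv hk; omega

theorem tm_lt {v : ℕ} (hv : v < A.length) : tm A v < A.length := by
  unfold tm
  rw [List.countP_eq_length_filter]
  have := (List.length_filter_lt_length_iff_exists (l := List.range A.length)
    (p := fun u => decide (key A u < key A v))).2 ⟨v, by simp [hv], by simp⟩
  simpa using this

theorem mem_par {u v : ℕ} : u ∈ par A v ↔ u < A.length ∧ adj A v u = true ∧ tm A u < tm A v := by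
  simp [par]

theorem mem_chi {u v : ℕ} : u ∈ chi A v ↔ u < A.length ∧ adj A v u = true ∧ tm A v < tm A u := by
  simp [chi]

theorem par_nodup (v : ℕ) : (par A v).Nodup := List.nodup_range.filter _
theorem chi_nodup (v : ℕ) : (chi A v).Nodup := List.nodup_range.filter _

theorem par_len (H : Good A) {v : ℕ} (hv : v < A.length) : (par A v).length ≤ 3 := by
  obtain ⟨h1, h2, h3⟩ := lev_spec H v
  obtain ⟨k, hk⟩ : ∃ k, lev A v = k + 1 := by
    rcases h : lev A v with _ | k
    · rw [h] at h2; simp [rem, hv] at h2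
    · exact ⟨k, rfl⟩
  have h4 := h3 k (by omega)
  rw [hk, rem_succ] at h2
  have h5 : ((rem A k).countP fun u => adj A v u) ≤ 3 := by
    by_contra hc
    exact h2 (List.mem_filter.2 ⟨h4, by simpa using hc⟩)
  refine le_trans ?_ h5
  rw [List.countP_eq_length_filter]
  refine (List.subperm_of_subset (par_nodup v) fun u hu => ?_).length_le
  obtain ⟨a1, a2, a3⟩ := mem_par.1 hu
  refine List.mem_filter.2 ⟨?_, a2⟩
  obtain ⟨b1, -, b3⟩ := lev_spec H u
  refine b3 k ?_
  have := key_lt_of_tm hv a3
  unfold key at this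
  by_contra hc
  have h6 : A.length - lev A v + 1 ≤ A.length - lev A u := by omega
  have := Nat.mul_le_mul_right A.length h6
  rw [Nat.add_mul] at this
  omega

theorem par_chi_len (H : Good A) {v : ℕ} (hv : v < A.length) :
    (par A v).length + (chi A v).length ≤ 6 := by
  refine le_trans ?_ (H.deg v hv)
  rw [List.countP_eq_length_filter, ← List.length_append]
  refine (List.subperm_of_subset ?_ fun u hu => ?_).length_le
  · refine (par_nodup v).append (chi_nodup v) fun u h1 h2 => ?_
    have := (mem_par.1 h1).2.2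
    have := (mem_chi.1 h2).2.2
    omega
  · rcases List.mem_append.1 hu with h | h
    · exact List.mem_filter.2 ⟨by simpa using (mem_par.1 h).1, (mem_par.1 h).2.1⟩
    · exact List.mem_filter.2 ⟨by simpa using (mem_chi.1 h).1, (mem_chi.1 h).2.1⟩

theorem par_iff_chi (H : Good A) {a w : ℕ} (ha : a < A.length) (hw : w < A.length) :
    a ∈ par A w ↔ w ∈ chi A a := by
  rw [mem_par, mem_chi, H.symm w a hw ha]; simp [ha, hw]

theorem mem_allItems {n : ℕ} {e : (ℕ × Bool) × ℕ} : e ∈ allItems n ↔ e.1.1 < n ∧ e.2 < n := by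
  obtain ⟨⟨a, b⟩, w⟩ := e
  cases b <;> simp [allItems]

theorem allItems_nodup (n : ℕ) : (allItems n).Nodup := by
  have h1 : ((List.range n).flatMap fun a => [(a, false), (a, true)]).Nodup :=
    List.Nodup.product (l₂ := [false, true]) List.nodup_range (by decide)
  exact List.Nodup.product h1 List.nodup_range

theorem items_nodup : (items A).Nodup := (allItems_nodup _).filter _

theorem mem_items {a w : ℕ} {b : Bool} : ((a, b), w) ∈ items A ↔ a < A.length ∧ w < A.length ∧
    ((w ∈ chi A a ∧ b = grp A a w) ∨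
      (w = a ∧ b = true ∧ 1 ≤ (par A w).length ∧ (par A w).length ≤ 2)) := by
  simp only [items, List.mem_filter, mem_allItems, isItem, decide_eq_true_eq, and_assoc]

theorem mem_take_of {a w : ℕ} (h : w ∈ chi A a) (hg : grp A a w = false) : w ∈ (chi A a).take 3 := by
  rw [← List.take_append_drop 3 (chi A a)] at h
  rcases List.mem_append.1 h with h | h
  · exact h
  · simp [grp, h] at hg

theorem items_left (H : Good A) (x : ℕ × Bool) :
    ((items A).filter fun p => decide (p.1 = x)).length ≤ 3 := by
  obtain ⟨a, b⟩ := x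
  by_cases ha : a < A.length
  swap
  · rw [List.filter_eq_nil_iff.2]
    · simp
    · rintro ⟨⟨a', b'⟩, w⟩ h1 h2
      simp only [decide_eq_true_eq, Prod.mk.injEq] at h2
      exact ha (h2.1 ▸ (mem_items.1 h1).1)
  have hl := par_chi_len H ha
  cases b
  · refine le_trans (List.subperm_of_subset (l₂ := ((chi A a).take 3).map fun w => ((a, false), w))
      (items_nodup.filter _) ?_).length_le (by simp)
    rintro ⟨⟨a', b'⟩, w⟩ h
    obtain ⟨h1, h2⟩ := List.mem_filter.1 h
    simp only [decide_eq_true_eq, Prod.mk.injEq] at h2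
    obtain ⟨rfl, rfl⟩ := h2
    rcases (mem_items.1 h1).2.2 with ⟨c1, c2⟩ | ⟨-, c2, -⟩
    · exact List.mem_map.2 ⟨w, mem_take_of c1 c2.symm, rfl⟩
    · simp at c2
  · refine le_trans (List.subperm_of_subset (l₂ := (((chi A a).drop 3) ++
      if 1 ≤ (par A a).length ∧ (par A a).length ≤ 2 then [a] else []).map fun w => ((a, true), w))
      (items_nodup.filter _) ?_).length_le ?_
    · rintro ⟨⟨a', b'⟩, w⟩ h
      obtain ⟨h1, h2⟩ := List.mem_filter.1 h
      simp only [decide_eq_true_eq, Prod.mk.injEq] at h2
      obtain ⟨rfl, rfl⟩ := h2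
      refine List.mem_map.2 ⟨w, List.mem_append.2 ?_, rfl⟩
      rcases (mem_items.1 h1).2.2 with ⟨-, c2⟩ | ⟨rfl, -, c3⟩
      · left; simpa [grp] using c2
      · right; simp [c3]
    · simp only [List.length_map, List.length_append, List.length_drop]
      split_ifs with h
      · simp only [List.length_singleton]; omega
      · simp only [List.length_nil]; omega

theorem items_right (H : Good A) (w : ℕ) :
    ((items A).filter fun p => decide (p.2 = w)).length ≤ 3 := by
  by_cases hw : w < A.length
  swap
  · rw [List.filter_eq_nil_iff.2]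
    · simp
    · rintro ⟨⟨a', b'⟩, w⟩ h1 h2
      simp only [decide_eq_true_eq] at h2
      exact hw (h2 ▸ (mem_items.1 h1).2.1)
  have hl := par_len H hw
  refine le_trans (List.subperm_of_subset (l₂ := ((par A w).map fun a => ((a, grp A a w), w)) ++
      if 1 ≤ (par A w).length ∧ (par A w).length ≤ 2 then [((w, true), w)] else [])
      (items_nodup.filter _) ?_).length_le ?_
  · rintro ⟨⟨a', b'⟩, w'⟩ h
    obtain ⟨h1, h2⟩ := List.mem_filter.1 h
    simp only [decide_eq_true_eq] at h2
    subst h2
    obtain ⟨d1, d2, d3⟩ := mem_items.1 h1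
    refine List.mem_append.2 ?_
    rcases d3 with ⟨c1, rfl⟩ | ⟨rfl, rfl, c3⟩
    · left; exact List.mem_map.2 ⟨a', (par_iff_chi H d1 d2).2 c1, rfl⟩
    · right; simp [c3]
  · simp only [List.length_map, List.length_append]
    split_ifs with h
    · simp only [List.length_singleton]; omega
    · simp only [List.length_nil]; omega

theorem col_ne (H : Good A) {e e' : (ℕ × Bool) × ℕ} (he : e ∈ items A) (he' : e' ∈ items A)
    (h : e.1 = e'.1 ∨ e.2 = e'.2) (hc : colOf (items A) e = colOf (items A) e') : e = e' :=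
  colOf_proper (items_left H) (items_right H) he he' h hc

theorem item_of_chi {a w : ℕ} (ha : a < A.length) (h : w ∈ chi A a) :
    ((a, grp A a w), w) ∈ items A :=
  mem_items.2 ⟨ha, (mem_chi.1 h).1, .inl ⟨h, rfl⟩⟩

theorem fc_par (H : Good A) {a a' w : ℕ} (hw : w < A.length) (h : a ∈ par A w) (h' : a' ∈ par A w)
    (hc : fc A a w = fc A a' w) : a = a' := by
  have a1 := (mem_par.1 h).1
  have a2 := (mem_par.1 h').1
  have := col_ne H (item_of_chi a1 ((par_iff_chi H a1 hw).1 h))
    (item_of_chi a2 ((par_iff_chi H a2 hw).1 h')) (.inr rfl) hc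
  exact congrArg (·.1.1) this

theorem fc_chi (H : Good A) {a w w' : ℕ} (ha : a < A.length) (h : w ∈ chi A a) (h' : w' ∈ chi A a)
    (hg : grp A a w = grp A a w') (hc : fc A a w = fc A a w') : w = w' :=
  congrArg (·.2) (col_ne H (item_of_chi ha h) (item_of_chi ha h') (.inl (by simp [hg])) hc)

theorem two_le_length {l : List ℕ} {a b : ℕ} (ha : a ∈ l) (hb : b ∈ l) (h : a ≠ b) :
    2 ≤ l.length :=
  (List.subperm_of_subset (l₁ := [a, b]) (by simp [h]) (by simp [ha, hb])).length_le

theorem chir_ne (w : ℕ) (c : Fin 3) : c + chir A w ≠ c := by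
  unfold chir; split_ifs <;> revert c <;> decide

theorem chir_spec (H : Good A) {a w x : ℕ} (hw : w < A.length) (ha : a ∈ par A w)
    (hx : x ∈ (chi A w).drop 3) : fc A a w + chir A w ≠ fc A w x := by
  unfold chir
  split_ifs with h
  · exact h a ha x hx
  push Not at h
  obtain ⟨a0, ha0, x0, hx0, h0⟩ := h
  intro h1
  have hl := par_chi_len H hw
  have l1 := List.length_pos_of_mem ha
  have l2 := List.length_pos_of_mem hx
  rw [List.length_drop] at l2
  have hd : ((w, true), w) ∈ items A := mem_items.2 ⟨hw, hw, .inr ⟨rfl, rfl, l1, by omega⟩⟩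
  have d1 : ∀ a ∈ par A w, fc A a w ≠ colOf (items A) ((w, true), w) := by
    intro a ha hc
    have a1 := (mem_par.1 ha).1
    have := col_ne H (item_of_chi a1 ((par_iff_chi H a1 hw).1 ha)) hd (.inr rfl) hc
    have : a = w := congrArg (·.1.1) this
    have := (mem_par.1 ha).2.2
    subst_vars; omega
  have d2 : ∀ x ∈ (chi A w).drop 3, fc A w x ≠ colOf (items A) ((w, true), w) := by
    intro x hx hc
    have hx' := List.mem_of_mem_drop hx
    have := col_ne H (item_of_chi hw hx') hd (.inl (by simp [grp, hx])) hc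
    have : x = w := congrArg (·.2) this
    have := (mem_chi.1 hx').2.2
    subst_vars; omega
  have e1 := d1 a ha
  have e2 := d1 a0 ha0
  have e3 := d2 x hx
  have e4 := d2 x0 hx0
  clear d1 d2
  have n1 : a ≠ a0 := by
    rintro rfl
    generalize colOf (items A) ((w, true), w) = d at *
    generalize fc A a w = p at *
    generalize fc A w x = q at *
    generalize fc A w x0 = r at *
    revert d p q r; decide
  have n2 : x ≠ x0 := by
    rintro rfl
    generalize colOf (items A) ((w, true), w) = d at *
    generalize fc A a w = p at *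
    generalize fc A w x = q at *
    generalize fc A a0 w = r at *
    revert d p q r; decide
  have m1 := two_le_length ha ha0 n1
  have m2 := two_le_length hx hx0 n2
  rw [List.length_drop] at m2
  omega

theorem nxt_lt {i : Fin 3} {v a : ℕ} (h : nxt A i v = some a) : tm A a < tm A v :=
  (mem_par.1 (List.mem_of_find?_eq_some h)).2.2

theorem sstep_lin (i : Fin 3) (j v : ℕ) (s : Bool) :
    ((sstep A i)^[j] (v, s)).2 = (s ^^ ((sstep A i)^[j] (v, false)).2) := by
  induction j generalizing v s with
  | zero => simp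
  | succ j ih =>
    simp only [iterate_succ_apply, sstep]
    rcases nxt A i v with _ | a
    · exact ih v s
    · simp only [Option.elim_some]
      rw [ih a (s ^^ grp A a v), ih a (false ^^ grp A a v)]
      simp

theorem sstep_stable (i : Fin 3) (k : ℕ) : ∀ v s j, tm A v ≤ k → tm A v ≤ j →
    (sstep A i)^[j] (v, s) = (sstep A i)^[tm A v] (v, s) := by
  induction k with
  | zero =>
    intro v s j h _
    rcases hn : nxt A i v with _ | a
    · have : IsFixedPt (sstep A i) (v, s) := by simp [IsFixedPt, sstep, hn]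
      rw [this.iterate j, this.iterate _]
    · have := nxt_lt hn; omega
  | succ k ih =>
    intro v s j h hj
    rcases hn : nxt A i v with _ | a
    · have : IsFixedPt (sstep A i) (v, s) := by simp [IsFixedPt, sstep, hn]
      rw [this.iterate j, this.iterate _]
    · have h1 := nxt_lt hn
      obtain ⟨j, rfl⟩ : ∃ j', j = j' + 1 := ⟨j - 1, by omega⟩
      obtain ⟨m, hm⟩ : ∃ m, tm A v = m + 1 := ⟨tm A v - 1, by omega⟩
      have e : sstep A i (v, s) = (a, s ^^ grp A a v) := by simp [sstep, hn]
      rw [hm, iterate_succ_apply, iterate_succ_apply, e, ih a _ j (by omega) (by omega),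
        ih a _ m (by omega) (by omega)]

theorem sgn_rec {i : Fin 3} {v a : ℕ} (h : nxt A i v = some a) :
    sgn A i v = (grp A a v ^^ sgn A i a) := by
  have h1 := nxt_lt h
  obtain ⟨m, hm⟩ : ∃ m, tm A v = m + 1 := ⟨tm A v - 1, by omega⟩
  have e : sstep A i (v, false) = (a, grp A a v) := by simp [sstep, h]
  unfold sgn
  rw [hm, iterate_succ_apply, e, sstep_stable i _ a _ m le_rfl (by omega), sstep_lin]

theorem sgn_chi (H : Good A) {a w : ℕ} (ha : a < A.length) (h : w ∈ chi A a) :
    sgn A (fc A a w) w = (grp A a w ^^ sgn A (fc A a w) a) := by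
  have hw := (mem_chi.1 h).1
  have hp := (par_iff_chi H ha hw).2 h
  apply sgn_rec
  unfold nxt
  rcases hf : (par A w).find? fun b => decide (fc A b w = fc A a w) with _ | b
  · simpa using List.find?_eq_none.1 hf a hp
  · have h1 := List.mem_of_find?_eq_some hf
    have h2 := List.find?_some hf
    rw [fc_par H hw h1 hp (by simpa using h2)]

theorem abs_crd (v : ℕ) (i : Fin 3) : |(crd A v i : ℝ)| = tm A v + 1 := by
  unfold crd
  have : (0 : ℝ) ≤ tm A v + 1 := by positivity
  cases sgn A i v <;> simp [abs_of_nonneg this, -neg_add_rev]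

theorem ports (H : Good A) {n : ℕ} (hn : A.length = n) (G : SimpleGraph (Fin n))
    (hG : ∀ u v : Fin n, G.Adj u v ↔ adj A u v = true) :
    Ports G (fun v => tm A v) (fun v i => (crd A v i : ℝ)) (fun u v => port A u v) := by
  subst hn
  have tri : ∀ u v : Fin A.length, G.Adj u v →
      (v.1 ∈ chi A u ∧ port A u v = fc A u v ∧ tm A u < tm A v) ∨
      (v.1 ∈ par A u ∧ port A u v = fc A v u + chir A u ∧ tm A v < tm A u) := by
    intro u v h
    have h1 := (hG u v).1 h
    have h2 : tm A u ≠ tm A v := fun e => h.ne (Fin.ext (tm_inj u.2 v.2 e))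
    rcases lt_or_gt_of_ne h2 with h3 | h3
    · exact .inl ⟨mem_chi.2 ⟨v.2, h1, h3⟩, by simp [port, h3], h3⟩
    · exact .inr ⟨mem_par.2 ⟨v.2, h1, h3⟩, by simp [port, h3.le], h3⟩
  have mix : ∀ u v v' : Fin A.length, v.1 ∈ chi A u → v'.1 ∈ par A u →
      fc A u v = fc A v' u + chir A u →
      ((crd A v (fc A u v) : ℝ) - crd A u (fc A u v)) *
        ((crd A v' (fc A u v) : ℝ) - crd A u (fc A u v)) < 0 := by
    intro u v v' h h' hc
    have hg : grp A u v = false := by
      by_contra hg
      exact chir_spec H u.2 h' (by simpa [grp] using hg) hc.symm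
    have s1 := sgn_chi H u.2 h
    rw [hg, Bool.false_xor] at s1
    have t1 : (tm A u : ℝ) < tm A v := by exact_mod_cast (mem_chi.1 h).2.2
    have t2 : (tm A v' : ℝ) < tm A u := by exact_mod_cast (mem_par.1 h').2.2
    have t3 : (0 : ℝ) ≤ tm A v' := by positivity
    unfold crd
    rw [s1]
    cases sgn A (fc A u v) u <;> cases sgn A (fc A u v) v' <;> simp only [cond_true, cond_false] <;>
      push_cast <;> nlinarith
  refine ⟨fun u v h => Fin.ext (tm_inj u.2 v.2 h), fun v i => abs_crd _ _, fun u v h => ?_,
    fun a a' w h h' t t' hc => ?_, fun u v v' h h' hne hc => ?_⟩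
  · rcases tri u v h with ⟨-, a, b⟩ | ⟨-, a, b⟩ <;>
      rcases tri v u h.symm with ⟨-, c, d⟩ | ⟨-, c, d⟩
    · omega
    · rw [a, c]; exact (chir_ne _ _).symm
    · rw [a, c]; exact chir_ne _ _
    · omega
  · simp only [port, t, t', if_true] at hc
    exact Fin.ext (fc_par H w.2 (mem_par.2 ⟨a.2, (hG _ _).1 h.symm, t⟩)
      (mem_par.2 ⟨a'.2, (hG _ _).1 h'.symm, t'⟩) hc)
  · rcases tri u v h with ⟨a0, a, b⟩ | ⟨a0, a, b⟩ <;>
      rcases tri u v' h' with ⟨c0, c, d⟩ | ⟨c0, c, d⟩
    · rw [a, c] at hc
      have hg : grp A u v ≠ grp A u v' := fun hg => hne (Fin.ext (fc_chi H u.2 a0 c0 hg hc))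
      have s1 := sgn_chi H u.2 a0
      have s2 := sgn_chi H u.2 c0
      rw [← hc] at s2
      have t1 : (tm A u : ℝ) < tm A v := by exact_mod_cast b
      have t2 : (tm A u : ℝ) < tm A v' := by exact_mod_cast d
      have t3 : (0 : ℝ) ≤ tm A u := by positivity
      rw [a]
      unfold crd
      rw [s1, s2]
      revert hg
      cases grp A u v <;> cases grp A u v' <;> cases sgn A (fc A u v) u <;>
        simp only [cond_true, cond_false, Bool.xor_false, Bool.xor_true, Bool.not_true,
          Bool.not_false, ne_eq, not_true_eq_false, false_imp_iff] <;>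
        intro _ <;> push_cast <;> nlinarith
    · rw [a, c] at hc
      rw [a]
      exact mix u v v' a0 c0 hc
    · rw [a, c] at hc
      rw [a, hc, mul_comm]
      exact mix u v' v c0 a0 hc.symm
    · rw [a, c] at hc
      exact (hne (Fin.ext (fc_par H u.2 a0 c0 (add_right_cancel hc)))).elim

theorem pt_posn (v : ℕ) : pt (posn A v) = fun i => (crd A v i : ℝ) := by
  funext i; fin_cases i <;> rfl

theorem pt_bnd (u v : ℕ) : pt (bnd A u v) =
    update (fun i => (crd A u i : ℝ)) (port A u v) (crd A v (port A u v)) := by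
  funext i
  unfold bnd pt
  generalize port A u v = c
  fin_cases i <;> fin_cases c <;> simp

theorem draw_correct (H : Good A) {n : ℕ} (hn : A.length = n) (G : SimpleGraph (Fin n))
    (hG : ∀ u v : Fin n, G.Adj u v ↔ adj A u v = true) :
    IsDrawing G (fun u => pt ((draw A).1.getD u 0)) (fun u v => pt (((draw A).2.getD u []).getD v 0)) := by
  have := (ports H hn G hG).isDrawing
  subst hn
  convert this using 2 with u u
  · simp [draw, pt_posn]
  · funext v
    simp [draw, pt_bnd, bend]

end Pool.Agent.Lib.MP_6b7ffe_lc
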