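import Pool.Agent.Lib.MP_6b7ffe_lc.Poly

set_option autoImplicit false

namespace Pool.Agent.Lib.MP_6b7ffe_lc

abbrev Arcs := List (ℕ × ℕ)

/-- number of arcs with tail `v` -/
def outd (D : Arcs) (v : ℕ) : ℕ := D.countP fun p => decide (p.1 = v)

/-- number of arcs with both ends in `S` -/
def ins (D : Arcs) (S : Finset ℕ) : ℕ := D.countP fun p => decide (p.1 ∈ S ∧ p.2 ∈ S)

/-- (2,3)-sparsity -/
def Sparse (D : Arcs) : Prop := ∀ S : Finset ℕ, 2 ≤ S.card → ins D S + 3 ≤ 2 * S.card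

/-- all arcs join two different vertices below `n` -/
def Within (n : ℕ) (D : Arcs) : Prop := ∀ p ∈ D, p.1 < n ∧ p.2 < n ∧ p.1 ≠ p.2

/-- a clique minor with `k` branch sets inside the vertex set `S` -/
def CliqueMinorIn {V : Type} (G : SimpleGraph V) (k : ℕ) (S : Set V) : Prop :=
  ∃ B : Fin k → Set V, (∀ i, B i ⊆ S) ∧ (∀ i, (G.induce (B i)).Connected) ∧
    (∀ i j, i ≠ j → Disjoint (B i) (B j)) ∧ ∀ i j, i ≠ j → ∃ u ∈ B i, ∃ v ∈ B j, G.Adj u v

end Pool.Agent.Lib.MP_6b7ffe_lc
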