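import Pool.Agent.Lib.MP_6b7ffe_lc.Core

set_option autoImplicit false

namespace Pool.Agent.Lib.MP_6b7ffe_lc

open Function Pool.Agent.Lib.Complexity

abbrev Els := List (ℕ × Bool × ℕ)

def look (L : Els) (v : ℕ) : Bool × ℕ :=
  ((L.find? fun p => decide (p.1 = v)).map fun p => p.2).getD (false, 0)

def later (A : Mat) (L : Els) (v : ℕ) : List ℕ :=
  (List.range A.length).filter fun z => adj A v z && decide ((look L v).2 < (look L z).2)

def old (A : Mat) (L : Els) (v z : ℕ) : Bool :=
  decide (∃ y ∈ List.range A.length, (look L y).1 = true ∧ adj A z y = true ∧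
    (look L y).2 < (look L v).2)

def chy (A : Mat) (L : Els) (v : ℕ) : List ℕ :=
  if (look L v).1 = true then (later A L v).filter (old A L v) else (later A L v).take 2

def wArcs (A : Mat) (L : Els) : Arcs :=
  (pairs A.length).filter fun p => decide (p.2 ∈ chy A L p.1)

def cls0 (A : Mat) (L : Els) (w z : ℕ) : ℕ × Bool :=
  if z ∈ chy A L w then (w, true) else if (look L w).1 = true then (z, false) else (w, false)

def cls1 (A : Mat) (L : Els) (u v : ℕ) : ℕ × Bool :=
  if (look L u).2 < (look L v).2 then cls0 A L u v else cls0 A L v u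

def clsM (A : Mat) (L : Els) : Cls :=
  (List.range A.length).map fun u => (List.range A.length).map (cls1 A L u)

structure El (A : Mat) (L : Els) : Prop where
  inj : ∀ u < A.length, ∀ v < A.length, (look L u).2 = (look L v).2 → u = v
  mg : ∀ v < A.length, (look L v).1 = true → ((later A L v).filter (old A L v)).length ≤ 2
  dl : ∀ v < A.length, (look L v).1 = false → (later A L v).length ≤ 3 ∧
    ∀ y, (look L y).1 = true → (look L y).2 < (look L v).2 → adj A v y = false

variable {A : Mat} {L : Els}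

theorem mem_later (G : Gr A) {v z : ℕ} :
    z ∈ later A L v ↔ adj A v z = true ∧ (look L v).2 < (look L z).2 := by
  simp only [later, List.mem_filter, List.mem_range, Bool.and_eq_true, decide_eq_true_eq]
  exact ⟨fun h => h.2, fun h => ⟨(G.rng _ _ h.1).2, h⟩⟩

theorem chy_sub (v : ℕ) : (chy A L v).Sublist (later A L v) := by
  unfold chy; split_ifs
  · exact List.filter_sublist
  · exact List.take_sublist _ _

theorem chy_nodup (v : ℕ) : (chy A L v).Nodup :=
  (List.nodup_range.filter _).sublist (chy_sub v)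

theorem chy_len (G : Gr A) (H : El A L) (v : ℕ) : (chy A L v).length ≤ 2 := by
  by_cases hv : v < A.length
  · unfold chy; split_ifs with h
    · exact H.mg v hv h
    · simp
  · have : later A L v = [] := List.eq_nil_iff_forall_not_mem.2 fun z hz =>
      hv (G.rng _ _ ((mem_later G).1 hz).1).1
    have h := (chy_sub (A := A) (L := L) v).length_le
    rw [this] at h
    simp at h; simp [h]

theorem chy_prop (G : Gr A) {v z : ℕ} (h : z ∈ chy A L v) :
    adj A v z = true ∧ (look L v).2 < (look L z).2 := (mem_later G).1 ((chy_sub v).subset h)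

theorem mem_wArcs (G : Gr A) {p : ℕ × ℕ} : p ∈ wArcs A L ↔ p.2 ∈ chy A L p.1 := by
  simp only [wArcs, List.mem_filter, mem_pairs, decide_eq_true_eq]
  exact ⟨fun h => h.2, fun h => ⟨G.rng _ _ (chy_prop G h).1, h⟩⟩

theorem acyclic_sparse {D : Arcs} (t : ℕ → ℕ) (hn : D.Nodup) (ht : ∀ p ∈ D, t p.1 < t p.2)
    (ho : ∀ v, outd D v ≤ 2) : Sparse D := by
  intro S
  induction S using Finset.strongInduction with
  | H S ih =>
    intro hS
    obtain ⟨v, hv, hm⟩ := S.exists_min_image t (Finset.card_pos.1 (by omega))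
    have e1 : ins D S ≤ ins D (S.erase v) + D.countP fun p => decide (p.1 = v ∧ p.2 ∈ S.erase v) := by
      clear hn ho ih
      induction D with
      | nil => simp [ins]
      | cons p D ih =>
        have a := ih fun q hq => ht q (List.mem_cons_of_mem _ hq)
        have b := ht p (by simp)
        have c := hm p.1
        have d : p.1 ∈ S → p.2 ≠ v := fun h e => by have := c h; rw [e] at b; omega
        simp only [ins, List.countP_cons, decide_eq_true_eq, Finset.mem_erase] at a ⊢
        split_ifs <;> first | omega | tauto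
    have e2 := Finset.card_erase_add_one hv
    by_cases h2 : 2 ≤ (S.erase v).card
    · have a := ih _ (Finset.erase_ssubset hv) h2
      have b : (D.countP fun p => decide (p.1 = v ∧ p.2 ∈ S.erase v)) ≤ outd D v :=
        List.countP_mono_left fun p _ => by simp only [decide_eq_true_eq]; exact fun h => h.1
      have := ho v
      omega
    · have a := ins_small (D := D) (fun p hp e => by have := ht p hp; rw [e] at this; omega)
        (S := S.erase v) (by omega)
      obtain ⟨w, hw⟩ := Finset.card_eq_one.1 (by omega : (S.erase v).card = 1)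
      have b : (D.countP fun p => decide (p.1 = v ∧ p.2 ∈ S.erase v)) = D.count (v, w) := by
        rw [hw, List.count]
        refine List.countP_congr fun p _ => ?_
        simp [Prod.ext_iff]
      have c := List.nodup_iff_count_le_one.1 hn (v, w)
      omega

theorem cl_clsM {u v : ℕ} (hu : u < A.length) (hv : v < A.length) :
    cl (clsM A L) u v = cls1 A L u v := by
  simp [cl, clsM, hu, hv]

/-- every edge has an earlier and a later end -/
theorem orient (G : Gr A) (H : El A L) {u v : ℕ} (a : adj A u v = true) :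
    ∃ w z, nm (u, v) = nm (w, z) ∧ adj A w z = true ∧ (look L w).2 < (look L z).2 ∧
      cl (clsM A L) u v = cls0 A L w z ∧ ((w = u ∧ z = v) ∨ (w = v ∧ z = u)) := by
  have r := G.rng _ _ a
  rw [cl_clsM r.1 r.2, cls1]
  split_ifs with h
  · exact ⟨u, v, rfl, a, h, rfl, .inl ⟨rfl, rfl⟩⟩
  · refine ⟨v, u, nm_swap (v, u), by rw [G.symm]; exact a, ?_, rfl, .inr ⟨rfl, rfl⟩⟩
    have : (look L u).2 ≠ (look L v).2 := fun e => G.ne a (H.inj _ r.1 _ r.2 e)
    omega

theorem cls0_true {w z x : ℕ} (h : cls0 A L w z = (x, true)) : w = x ∧ z ∈ chy A L w := by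
  unfold cls0 at h
  split_ifs at h with a b
  · exact ⟨congrArg Prod.fst h, a⟩
  · cases h
  · cases h

theorem cls0_false (G : Gr A) {w z x : ℕ} (a : adj A w z = true)
    (t : (look L w).2 < (look L z).2) (h : cls0 A L w z = (x, false)) :
    ((look L w).1 = true ∧ z = x ∧
      ∀ y, (look L y).1 = true → adj A z y = true → (look L w).2 ≤ (look L y).2) ∨
    ((look L w).1 = false ∧ w = x ∧ z ∉ chy A L w ∧ z ∈ (later A L w).drop 2) := by
  unfold cls0 at h
  split_ifs at h with b c
  · cases h
  · left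
    refine ⟨c, congrArg Prod.fst h, fun y h1 h2 => ?_⟩
    by_contra h3
    apply b
    rw [chy, if_pos c]
    refine List.mem_filter.2 ⟨(mem_later G).2 ⟨a, t⟩, ?_⟩
    simp only [old, List.mem_range, decide_eq_true_eq]
    exact ⟨y, (G.rng _ _ h2).2, h1, h2, by omega⟩
  · right
    refine ⟨by simpa using c, congrArg Prod.fst h, b, ?_⟩
    rw [chy, if_neg c] at b
    have := (mem_later (L := L) G).2 ⟨a, t⟩
    rw [← List.take_append_drop 2 (later A L w), List.mem_append] at this
    exact this.resolve_left b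

theorem same_false (G : Gr A) (H : El A L) {w z w' z' x : ℕ} (a : adj A w z = true)
    (t : (look L w).2 < (look L z).2) (a' : adj A w' z' = true)
    (t' : (look L w').2 < (look L z').2) (h : cls0 A L w z = (x, false))
    (h' : cls0 A L w' z' = (x, false)) : w = w' ∧ z = z' := by
  have r := G.rng _ _ a
  have r' := G.rng _ _ a'
  rcases cls0_false G a t h with ⟨b1, rfl, b3⟩ | ⟨b1, rfl, -, b3⟩ <;>
    rcases cls0_false G a' t' h' with ⟨c1, c2, c3⟩ | ⟨c1, c2, -, c3⟩
  · subst c2
    have e1 := b3 w' c1 (by rw [G.symm]; exact a')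
    have e2 := c3 w b1 (by rw [G.symm]; exact a)
    exact ⟨H.inj _ r.1 _ r'.1 (by omega), rfl⟩
  · subst c2
    have := (H.dl _ r.2 c1).2 w b1 t
    rw [G.symm, a] at this; cases this
  · subst c2
    have := (H.dl _ r.1 b1).2 w' c1 t'
    rw [G.symm, a'] at this; cases this
  · subst c2
    refine ⟨rfl, ?_⟩
    have l := (H.dl _ r.1 b1).1
    have : ((later A L w').drop 2).length ≤ 1 := by simp; omega
    rcases e : (later A L w').drop 2 with _ | ⟨y, _ | ⟨y', l'⟩⟩
    · rw [e] at b3; simp at b3
    · rw [e] at b3 c3; simp only [List.mem_singleton] at b3 c3; rw [b3, c3]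
    · rw [e] at this; simp at this

theorem three_out {S : Finset ℕ} {T : Finset (ℕ × Bool)} (hT : T ⊆ S ×ˢ Finset.univ)
    {a b c : ℕ × Bool} (ha : a.1 ∈ S) (hb : b.1 ∈ S) (hc : c.1 ∈ S) (ab : a ≠ b) (ac : a ≠ c)
    (bc : b ≠ c) (na : a ∉ T) (nb : b ∉ T) (nc : c ∉ T) : T.card + 3 ≤ 2 * S.card := by
  have h1 : (insert a (insert b (insert c T))).card = T.card + 3 := by
    rw [Finset.card_insert_of_notMem (by simp [ab, ac, na]),
      Finset.card_insert_of_notMem (by simp [bc, nb]), Finset.card_insert_of_notMem nc]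
  have h2 : insert a (insert b (insert c T)) ⊆ S ×ˢ Finset.univ := by
    intro x hx
    simp only [Finset.mem_insert] at hx
    rcases hx with rfl | rfl | rfl | hx
    · simp [ha]
    · simp [hb]
    · simp [hc]
    · exact hT hx
  have := Finset.card_le_card h2
  rw [h1, Finset.card_product] at this
  simpa [mul_comm] using this

theorem img_bound (G : Gr A) (H : El A L) (S : Finset ℕ) (hr : ∀ v ∈ S, v < A.length)
    (hS : 2 ≤ S.card) : ∃ T : Finset (ℕ × Bool), T.card + 3 ≤ 2 * S.card ∧
      ∀ w ∈ S, ∀ z ∈ S, adj A w z = true → (look L w).2 < (look L z).2 → cls0 A L w z ∈ T := by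
  classical
  set T := (S ×ˢ (Finset.univ : Finset Bool)).filter fun k => ∃ w ∈ S, ∃ z ∈ S,
    adj A w z = true ∧ (look L w).2 < (look L z).2 ∧ cls0 A L w z = k with hT
  refine ⟨T, ?_, fun w hw z hz a t => Finset.mem_filter.2 ⟨?_, w, hw, z, hz, a, t, rfl⟩⟩
  swap
  · unfold cls0; split_ifs <;> simp [hw, hz]
  have sub : T ⊆ S ×ˢ Finset.univ := Finset.filter_subset _ _
  have mT : ∀ k ∈ T, ∃ w ∈ S, ∃ z ∈ S,
      adj A w z = true ∧ (look L w).2 < (look L z).2 ∧ cls0 A L w z = k :=
    fun k hk => (Finset.mem_filter.1 hk).2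
  obtain ⟨l, hl, lm⟩ := S.exists_max_image (fun v => (look L v).2) (Finset.card_pos.1 (by omega))
  have n1 : (l, true) ∉ T := fun h => by
    obtain ⟨w, -, z, hz, -, t, e⟩ := mT _ h
    obtain ⟨rfl, -⟩ := cls0_true e
    have := lm z hz
    omega
  by_cases hB : ∃ s ∈ S.erase l, (look L s).1 = true
  · obtain ⟨s, hs, sm⟩ := (S.filter fun v => (look L v).1 = true).exists_min_image
      (fun v => (look L v).2) (by
        obtain ⟨s, a, b⟩ := hB
        exact ⟨s, Finset.mem_filter.2 ⟨Finset.mem_of_mem_erase a, b⟩⟩)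
    obtain ⟨hs, ms⟩ := Finset.mem_filter.1 hs
    have sm' : ∀ w ∈ S, (look L w).1 = true → (look L s).2 ≤ (look L w).2 := fun w a b =>
      sm w (Finset.mem_filter.2 ⟨a, b⟩)
    have sl : s ≠ l := by
      rintro rfl
      obtain ⟨s', a, b⟩ := hB
      obtain ⟨a1, a2⟩ := Finset.mem_erase.1 a
      exact a1 (H.inj _ (hr _ a2) _ (hr _ hs) (le_antisymm (lm _ a2) (sm' _ a2 b)))
    have n2 : (s, false) ∉ T := fun h => by
      obtain ⟨w, hw, z, hz, a, t, e⟩ := mT _ h
      rcases cls0_false G a t e with ⟨b1, rfl, -⟩ | ⟨b1, rfl, -⟩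
      · have := sm' w hw b1; omega
      · rw [ms] at b1; cases b1
    by_cases hC : ∃ z ∈ S, z ∈ chy A L s
    · obtain ⟨z, hz, zc⟩ := hC
      obtain ⟨z1, z2⟩ := chy_prop G zc
      refine three_out sub (a := (l, true)) (b := (s, false)) (c := (z, false)) hl hs hz (by simp)
        (by simp) (by simpa using G.ne z1) n1 n2 fun h => ?_
      obtain ⟨w, hw, z', hz', a, t, e⟩ := mT _ h
      rcases cls0_false G a t e with ⟨b1, rfl, b3⟩ | ⟨b1, rfl, -⟩
      · rw [chy, if_pos ms] at zc
        have := (List.mem_filter.1 zc).2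
        simp only [old, decide_eq_true_eq] at this
        obtain ⟨y, -, y1, y2, y3⟩ := this
        have := b3 y y1 y2
        have := sm' w hw b1
        omega
      · have := (H.dl _ (hr _ hw) b1).2 s ms z2
        rw [G.symm, z1] at this; cases this
    · refine three_out sub (a := (l, true)) (b := (s, false)) (c := (s, true)) hl hs hs (by simp)
        (by simpa using sl.symm) (by simp) n1 n2 fun h => ?_
      obtain ⟨w, -, z, hz, -, -, e⟩ := mT _ h
      obtain ⟨rfl, b⟩ := cls0_true e
      exact hC ⟨z, hz, b⟩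
  · push Not at hB
    have e2 := Finset.card_erase_add_one hl
    obtain ⟨s, hs, sm⟩ := (S.erase l).exists_max_image (fun v => (look L v).2)
      (Finset.card_pos.1 (by omega))
    obtain ⟨sl, hs'⟩ := Finset.mem_erase.1 hs
    have up : ∀ z ∈ S, (look L s).2 < (look L z).2 → z = l := fun z hz t => by
      by_contra h
      have := sm z (Finset.mem_erase.2 ⟨h, hz⟩)
      omega
    have nw : ∀ w ∈ S, ∀ z ∈ S, (look L w).2 < (look L z).2 → (look L w).1 ≠ true :=
      fun w hw z hz t => hB w (Finset.mem_erase.2 ⟨by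
        rintro rfl
        have := lm z hz
        omega, hw⟩)
    have n2 : (l, false) ∉ T := fun h => by
      obtain ⟨w, hw, z, hz, a, t, e⟩ := mT _ h
      rcases cls0_false G a t e with ⟨b1, -, -⟩ | ⟨-, rfl, -⟩
      · exact nw w hw z hz t b1
      · have := lm z hz; omega
    by_cases hC : l ∈ chy A L s
    · refine three_out sub (a := (l, true)) (b := (l, false)) (c := (s, false)) hl hl hs' (by simp)
        (by simp) (by simpa using sl.symm) n1 n2 fun h => ?_
      obtain ⟨w, hw, z, hz, a, t, e⟩ := mT _ h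
      rcases cls0_false G a t e with ⟨b1, -, -⟩ | ⟨-, rfl, b, -⟩
      · exact nw w hw z hz t b1
      · exact b (up z hz t ▸ hC)
    · refine three_out sub (a := (l, true)) (b := (l, false)) (c := (s, true)) hl hl hs' (by simp)
        (by simpa using sl.symm) (by simp) n1 n2 fun h => ?_
      obtain ⟨w, -, z, hz, -, t, e⟩ := mT _ h
      obtain ⟨rfl, b⟩ := cls0_true e
      exact hC (up z hz t ▸ b)

theorem pre_of_el (G : Gr A) (H : El A L) : Pre A (wArcs A L) (clsM A L) := by
  have nd : (wArcs A L).Nodup := (pairs_nodup _).filter _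
  have ho : ∀ v, outd (wArcs A L) v ≤ 2 := fun v => by
    refine le_trans ?_ (chy_len G H v)
    rw [outd, List.countP_eq_length_filter, ← List.length_map fun p : ℕ × ℕ => p.2]
    refine (List.subperm_of_subset (List.Nodup.map_on (fun p hp q hq e => ?_) (nd.filter _))
      fun x hx => ?_).length_le
    · have a := (List.mem_filter.1 hp).2
      have b := (List.mem_filter.1 hq).2
      simp only [decide_eq_true_eq] at a b
      exact Prod.ext (a.trans b.symm) e
    · obtain ⟨p, hp, rfl⟩ := List.mem_map.1 hx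
      obtain ⟨a, b⟩ := List.mem_filter.1 hp
      simp only [decide_eq_true_eq] at b
      rw [← b]; exact (mem_wArcs G).1 a
  have ht : ∀ p ∈ wArcs A L, (look L p.1).2 < (look L p.2).2 := fun p hp =>
    (chy_prop G ((mem_wArcs G).1 hp)).2
  refine ⟨fun p hp => (chy_prop G ((mem_wArcs G).1 hp)).1, ?_,
    acyclic_sparse (fun v => (look L v).2) nd ht ho, ho, fun u v a => ?_, fun p q a b e => ?_,
    fun p q r a b c e e' => ?_, fun S hS => ?_⟩
  · refine List.Nodup.map_on (fun p hp q hq e => ?_) nd
    rcases nm_eq e with e | rfl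
    · exact e
    · have a := ht _ hp
      have b := ht _ hq
      simp only [Prod.fst_swap, Prod.snd_swap] at a
      omega
  · have r := G.rng _ _ a
    have : (look L u).2 ≠ (look L v).2 := fun e => G.ne a (H.inj _ r.1 _ r.2 e)
    rw [cl_clsM r.1 r.2, cl_clsM r.2 r.1, cls1, cls1]
    split_ifs <;> first | rfl | omega
  · obtain ⟨w, z, n1, a1, t1, c1, -⟩ := orient G H a
    obtain ⟨w', z', n2, a2, t2, c2, -⟩ := orient G H b
    rw [c1, c2] at e
    change nm (p.1, p.2) = nm (q.1, q.2) ∨ nm (p.1, p.2) ∈ _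
    rw [n1, n2]
    rcases h : cls0 A L w z with ⟨x, _ | _⟩
    · obtain ⟨rfl, rfl⟩ := same_false G H a1 t1 a2 t2 h (e ▸ h)
      exact .inl rfl
    · exact .inr (List.mem_map_of_mem ((mem_wArcs G (p := (w, z))).2 (cls0_true h).2))
  · obtain ⟨w, z, n1, a1, t1, c1, -⟩ := orient G H a
    obtain ⟨w', z', n2, a2, t2, c2, -⟩ := orient G H b
    obtain ⟨w'', z'', n3, a3, t3, c3, -⟩ := orient G H c
    rw [c1, c2] at e
    rw [c1, c3] at e'
    change nm (p.1, p.2) = nm (q.1, q.2) ∨ nm (p.1, p.2) = nm (r.1, r.2) ∨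
      nm (q.1, q.2) = nm (r.1, r.2)
    rw [n1, n2, n3]
    rcases h : cls0 A L w z with ⟨x, _ | _⟩
    · obtain ⟨rfl, rfl⟩ := same_false G H a1 t1 a2 t2 h (e ▸ h)
      exact .inl rfl
    · obtain ⟨rfl, m1⟩ := cls0_true h
      obtain ⟨rfl, m2⟩ := cls0_true (e ▸ h : cls0 A L w' z' = (w, true))
      obtain ⟨rfl, m3⟩ := cls0_true (e' ▸ h : cls0 A L w'' z'' = (w', true))
      have l := chy_len G H w''
      by_contra hc
      push Not at hc
      have : ([z, z', z''] : List ℕ).length ≤ (chy A L w'').length :=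
        (List.subperm_of_subset (by
          simp only [List.nodup_cons, List.mem_cons, List.not_mem_nil, or_false, not_or,
            not_false_eq_true, List.nodup_nil, and_true]
          refine ⟨⟨?_, ?_⟩, ?_⟩
          · rintro rfl; exact hc.1 rfl
          · rintro rfl; exact hc.2.1 rfl
          · rintro rfl; exact hc.2.2 rfl) (by
          intro y hy
          simp only [List.mem_cons, List.not_mem_nil, or_false] at hy
          rcases hy with rfl | rfl | rfl <;> assumption)).length_le
      simp at this; omega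
  · by_cases h2 : 2 ≤ (S.filter fun v => v < A.length).card
    · obtain ⟨T, t1, t2⟩ := img_bound G H _ (fun v hv => (Finset.mem_filter.1 hv).2) h2
      have := Finset.card_filter_le S fun v => v < A.length
      refine ⟨T, by omega, fun u hu v hv a => ?_⟩
      have r := G.rng _ _ a
      have hu' : u ∈ S.filter fun v => v < A.length := Finset.mem_filter.2 ⟨hu, r.1⟩
      have hv' : v ∈ S.filter fun v => v < A.length := Finset.mem_filter.2 ⟨hv, r.2⟩
      obtain ⟨w, z, -, a1, t1, c1, d⟩ := orient G H a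
      rw [c1]
      rcases d with ⟨rfl, rfl⟩ | ⟨rfl, rfl⟩
      · exact t2 _ hu' _ hv' a1 t1
      · exact t2 _ hv' _ hu' a1 t1
    · refine ⟨∅, by simp; omega, fun u hu v hv a => ?_⟩
      have r := G.rng _ _ a
      exact (h2 (Finset.one_lt_card.2 ⟨u, Finset.mem_filter.2 ⟨hu, r.1⟩, v,
        Finset.mem_filter.2 ⟨hv, r.2⟩, G.ne a⟩)).elim

section
variable {α : Type} [Enc α] {A : α → Mat} {L : α → Els} {u v : α → ℕ}

@[fun_prop] theorem pt_look (hL : PT L) (hv : PT v) : PT fun x => look (L x) (v x) := by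
  unfold look; fun_prop

@[fun_prop] theorem pt_chy (hA : PT A) (hL : PT L) (hv : PT v) :
    PT fun x => chy (A x) (L x) (v x) := by
  unfold chy later old; fun_prop

@[fun_prop] theorem pt_wArcs (hA : PT A) (hL : PT L) : PT fun x => wArcs (A x) (L x) := by
  unfold wArcs; fun_prop

@[fun_prop] theorem pt_cls0 (hA : PT A) (hL : PT L) (hu : PT u) (hv : PT v) :
    PT fun x => cls0 (A x) (L x) (u x) (v x) := by
  unfold cls0; fun_prop

@[fun_prop] theorem pt_clsM (hA : PT A) (hL : PT L) : PT fun x => clsM (A x) (L x) := by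
  unfold clsM cls1; fun_prop

end

end Pool.Agent.Lib.MP_6b7ffe_lc
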