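import Pool.Agent.Lib.MP_6b7ffe_lc.Base

/-! Two sided vertex order of a sparse digraph of out-degree at most two. -/

set_option autoImplicit false

namespace Pool.Agent.Lib.MP_6b7ffe_lc

open Function Pool.Agent.Lib.Complexity

namespace Two

/-- `u` reaches a vertex of out-degree at most one along arcs inside `S` -/
inductive Rch (D : Arcs) (S : Finset ℕ) : ℕ → Prop
  | free (u : ℕ) : u ∈ S → outd D u ≤ 1 → Rch D S u
  | step (u w : ℕ) : u ∈ S → (u, w) ∈ D → Rch D S w → Rch D S u

variable {D : Arcs} {S S' : Finset ℕ} {u : ℕ}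

theorem Rch.mem (h : Rch D S u) : u ∈ S := by cases h <;> assumption

theorem Rch.mono (hS : S ⊆ S') (h : Rch D S u) : Rch D S' u := by
  induction h with
  | free u h1 h2 => exact .free u (hS h1) h2
  | step u w h1 h2 _ ih => exact .step u w (hS h1) h2 ih

theorem Rch.ex (h : Rch D S u) : ∃ v ∈ S, outd D v ≤ 1 := by
  induction h with
  | free u h1 h2 => exact ⟨u, h1, h2⟩
  | step u w _ _ _ ih => exact ih

theorem Rch.avoid {a : ℕ} (ha : ¬Rch D S a) (h : Rch D S u) : Rch D (S.erase a) u := by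
  have key : ∀ u, Rch D S u → u ∈ S.erase a := fun u h =>
    Finset.mem_erase.2 ⟨fun e => ha (e ▸ h), h.mem⟩
  induction h with
  | free u h1 h2 => exact .free u (key u (.free u h1 h2)) h2
  | step u w h1 h2 h3 ih => exact .step u w (key u (.step u w h1 h2 h3)) h2 ih

theorem Rch.last {a b : ℕ} (hab : a ≠ b) (h : Rch D S u) :
    Rch D ((S.erase a).erase b) u ∨ Rch D (S.erase b) a ∨ Rch D (S.erase a) b := by
  induction h with
  | free u h1 h2 =>
    by_cases e : u = a
    · exact .inr (.inl (.free a (by simp [hab, e ▸ h1]) (e ▸ h2)))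
    by_cases e' : u = b
    · exact .inr (.inr (.free b (by simp [hab.symm, e' ▸ h1]) (e' ▸ h2)))
    exact .inl (.free u (by simp [e, e', h1]) h2)
  | step u w h1 h2 _ ih =>
    rcases ih with ih | ih
    · by_cases e : u = a
      · exact .inr (.inl (.step a w (by simp [hab, e ▸ h1]) (e ▸ h2)
          (ih.mono (Finset.erase_subset_erase _ (Finset.erase_subset _ _)))))
      by_cases e' : u = b
      · exact .inr (.inr (.step b w (by simp [hab.symm, e' ▸ h1]) (e' ▸ h2)
          (ih.mono (Finset.erase_subset _ _))))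
      exact .inl (.step u w (by simp [e, e', h1]) h2 ih)
    · exact .inr ih

theorem sum_outd (D : Arcs) (T : Finset ℕ) :
    ∑ u ∈ T, outd D u = D.countP fun p => decide (p.1 ∈ T) := by
  induction D with
  | nil => simp [outd]
  | cons p D ih =>
    simp only [outd, List.countP_cons, Finset.sum_add_distrib] at ih ⊢
    rw [ih]
    simp

theorem closed_le {T : Finset ℕ} (hT : T ⊆ S) (h2 : ∀ u ∈ T, 2 ≤ outd D u)
    (h : ∀ p ∈ D, p.1 ∈ T → p.2 ∈ S) : 2 * T.card ≤ ins D S := by
  have h1 := Finset.card_nsmul_le_sum T _ 2 h2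
  rw [sum_outd, smul_eq_mul, mul_comm] at h1
  refine h1.trans (List.countP_mono_left fun p hp h' => ?_)
  have h3 : p.1 ∈ T := by simpa using h'
  simpa using ⟨hT h3, h p hp h3⟩

theorem start {n : ℕ} (hw : Within n D) (hs : Sparse D) (hu : u < n) :
    Rch D (Finset.range n) u := by
  classical
  by_contra h
  set T := (Finset.range n).filter fun u => ¬Rch D (Finset.range n) u with hT
  have h2 : ∀ u ∈ T, 2 ≤ outd D u := fun u hu => by
    obtain ⟨h1, h2⟩ := Finset.mem_filter.1 hu
    by_contra h3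
    exact h2 (.free u h1 (by omega))
  have h3 : ∀ p ∈ D, p.1 ∈ T → p.2 ∈ T := fun p hp hu => by
    obtain ⟨h1, h2⟩ := Finset.mem_filter.1 hu
    exact Finset.mem_filter.2 ⟨Finset.mem_range.2 (hw p hp).2.1, fun h => h2 (.step _ _ h1 hp h)⟩
  have h4 : u ∈ T := Finset.mem_filter.2 ⟨Finset.mem_range.2 hu, h⟩
  obtain ⟨p, hp, e⟩ := List.countP_pos_iff.1 (show 0 < outd D u by have := h2 u h4; omega)
  have e' : p.1 ∈ T := by rw [of_decide_eq_true e]; exact h4
  have h5 := hs T (Finset.one_lt_card.2 ⟨_, e', _, h3 p hp e', (hw p hp).2.2⟩)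
  have h6 := closed_le (Finset.Subset.refl T) h2 h3
  omega

/-- number of arcs from `v` into `S` -/
def inS (D : Arcs) (S : Finset ℕ) (v : ℕ) : ℕ := D.countP fun p => decide (p.1 = v ∧ p.2 ∈ S)

theorem inS_lt {p : ℕ × ℕ} (hp : p ∈ D) (h : p.2 ∉ S) : inS D S p.1 + 1 ≤ outd D p.1 := by
  obtain ⟨l, r, rfl⟩ := List.append_of_mem hp
  have h1 : ∀ l : Arcs, inS l S p.1 ≤ outd l p.1 := fun l =>
    List.countP_mono_left fun q _ h => by simp at h ⊢; exact h.1
  have h2 := h1 l
  have h3 := h1 r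
  simp only [inS, outd, List.countP_append, List.countP_cons, h] at h2 h3 ⊢
  simp at h2 h3 ⊢
  omega

theorem exists_pick (ho : ∀ v, outd D v ≤ 2) (hs : Sparse D) (hne : S.Nonempty)
    (hg : ∀ u ∈ S, Rch D S u) :
    ∃ v ∈ S, inS D S v ≤ 1 ∧ ∀ u ∈ S.erase v, Rch D (S.erase v) u := by
  classical
  set dom : ℕ → Finset ℕ := fun v => (S.erase v).filter fun u => ¬Rch D (S.erase v) u with hdom
  obtain ⟨x, hx⟩ := hne
  obtain ⟨y, hy, hy'⟩ := (hg x hx).ex
  obtain ⟨v, hv, hmin⟩ := Finset.exists_min_image (S.filter fun v => inS D S v ≤ 1)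
    (fun v => (dom v).card) ⟨y, Finset.mem_filter.2 ⟨hy, le_trans
      (List.countP_mono_left fun q _ h => by simp at h ⊢; exact h.1) hy'⟩⟩
  obtain ⟨hv, hv'⟩ := Finset.mem_filter.1 hv
  refine ⟨v, hv, hv', fun u hu => ?_⟩
  by_contra h
  have h1 : ∀ p ∈ D, p.1 ∈ dom v → p.2 ∈ S := fun p hp hu => by
    by_contra h2
    obtain ⟨h3, h4⟩ := Finset.mem_filter.1 hu
    obtain ⟨h5, h6⟩ := Finset.mem_erase.1 h3
    have h7 := hmin p.1 (Finset.mem_filter.2 ⟨h6, by have := inS_lt hp h2; have := ho p.1; omega⟩)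
    refine absurd (Finset.card_lt_card (Finset.ssubset_of_subset_of_ssubset ?_
      (Finset.erase_ssubset hu))) (not_lt.2 h7)
    intro z hz
    obtain ⟨h8, h9⟩ := Finset.mem_filter.1 hz
    obtain ⟨h10, h11⟩ := Finset.mem_erase.1 h8
    refine Finset.mem_erase.2 ⟨h10, Finset.mem_filter.2 ⟨Finset.mem_erase.2 ⟨fun e => ?_, h11⟩,
      fun h => h9 ((h.avoid h4).mono (Finset.erase_subset_erase _ (Finset.erase_subset _ _)))⟩⟩
    rcases (hg v hv).last h5 with h | h | h
    · simpa using h.mem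
    · exact h4 h
    · exact h9 (e ▸ h)
  have h2 : ∀ u ∈ dom v, 2 ≤ outd D u := fun u hu => by
    obtain ⟨h1, h2⟩ := Finset.mem_filter.1 hu
    by_contra h3
    exact h2 (.free u h1 (by omega))
  have h3 := closed_le (Finset.subset_insert v (dom v)) h2 fun p hp hu => by
    obtain ⟨h3, h4⟩ := Finset.mem_filter.1 hu
    by_cases e : p.2 = v
    · simp [e]
    · exact Finset.mem_insert_of_mem (Finset.mem_filter.2
        ⟨Finset.mem_erase.2 ⟨e, h1 p hp hu⟩, fun h => h4 (.step _ _ h3 hp h)⟩)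
  have h4 : (insert v (dom v)).card = (dom v).card + 1 :=
    Finset.card_insert_of_notMem (by simp [hdom])
  have h5 : 0 < (dom v).card := Finset.card_pos.2 ⟨u, Finset.mem_filter.2 ⟨hu, h⟩⟩
  have h6 := hs (insert v (dom v)) (by omega)
  omega

def mstep (D : Arcs) (Q M : List ℕ) : List ℕ :=
  Q.filter fun u => decide (outd D u ≤ 1) || D.any fun p => decide (p.1 = u) && decide (p.2 ∈ M)

def mark (D : Arcs) (Q : List ℕ) : List ℕ := (mstep D Q)^[Q.length] []

def good (D : Arcs) (Q : List ℕ) : Bool := Q.all fun u => decide (u ∈ mark D Q)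

def del (Q : List ℕ) (v : ℕ) : List ℕ := Q.filter fun u => !decide (u = v)

def inq (D : Arcs) (Q : List ℕ) (v : ℕ) : ℕ :=
  D.countP fun p => decide (p.1 = v) && decide (p.2 ∈ Q)

def ostep (D : Arcs) (Q : List ℕ) : List ℕ :=
  (Q.find? fun v => decide (inq D Q v ≤ 1) && good D (del Q v)).elim Q (del Q)

def rest (n : ℕ) (D : Arcs) (i : ℕ) : List ℕ := (ostep D)^[i] (List.range n)

variable {Q M : List ℕ}

theorem mem_mstep : u ∈ mstep D Q M ↔ u ∈ Q ∧ (outd D u ≤ 1 ∨ ∃ w ∈ M, (u, w) ∈ D) := by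
  simp only [mstep, List.mem_filter, Bool.or_eq_true, decide_eq_true_eq, List.any_eq_true,
    Bool.and_eq_true]
  refine and_congr_right fun _ => or_congr_right ⟨?_, ?_⟩
  · rintro ⟨p, h1, rfl, h2⟩
    exact ⟨_, h2, h1⟩
  · rintro ⟨w, h1, h2⟩
    exact ⟨_, h2, rfl, h1⟩

theorem mem_mark : u ∈ mark D Q ↔ Rch D Q.toFinset u := by
  constructor
  · unfold mark
    induction Q.length generalizing u with
    | zero => simp
    | succ k ih =>
      rw [iterate_succ_apply', mem_mstep]
      rintro ⟨h1, h2 | ⟨w, h2, h3⟩⟩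
      exacts [.free u (by simpa) h2, .step u w (by simpa) h3 (ih h2)]
  · have st := iter_stable (mstep D Q) Q (fun L L' h x hx => by
      rw [mem_mstep] at hx ⊢
      exact ⟨hx.1, hx.2.imp_right fun ⟨w, h1, h2⟩ => ⟨w, h h1, h2⟩⟩)
      (fun L x hx => (mem_mstep.1 hx).1) _ le_rfl
    intro h
    induction h with
    | free u h1 h2 => exact (st u).1 (mem_mstep.2 ⟨by simpa using h1, .inl h2⟩)
    | step u w h1 h2 _ ih => exact (st u).1 (mem_mstep.2 ⟨by simpa using h1, .inr ⟨w, ih, h2⟩⟩)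

theorem good_iff : good D Q = true ↔ ∀ u ∈ Q.toFinset, Rch D Q.toFinset u := by
  simp [good, mem_mark]

theorem del_fin (Q : List ℕ) (v : ℕ) : (del Q v).toFinset = Q.toFinset.erase v := by
  ext u
  simp [del, and_comm]

theorem inq_eq (D : Arcs) (Q : List ℕ) (v : ℕ) : inq D Q v = inS D Q.toFinset v := by
  simp [inq, inS]

theorem ostep_spec (ho : ∀ v, outd D v ≤ 2) (hs : Sparse D) (hne : Q.toFinset.Nonempty)
    (hg : good D Q = true) : ∃ v ∈ Q.toFinset, inS D Q.toFinset v ≤ 1 ∧
      (ostep D Q).toFinset = Q.toFinset.erase v ∧ good D (ostep D Q) = true := by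
  unfold ostep
  rcases h : Q.find? fun v => decide (inq D Q v ≤ 1) && good D (del Q v) with _ | v
  · obtain ⟨v, h1, h2, h3⟩ := exists_pick ho hs hne (good_iff.1 hg)
    refine absurd ?_ (List.find?_eq_none.1 h v (by simpa using h1))
    rw [← del_fin, ← good_iff] at h3
    simp [inq_eq, h2, h3]
  · have h1 := List.find?_some h
    simp only [Bool.and_eq_true, decide_eq_true_eq, inq_eq] at h1
    exact ⟨v, by simpa using List.mem_of_find?_eq_some h, h1.1, del_fin Q v, h1.2⟩

theorem ostep_sub (D : Arcs) (Q : List ℕ) : (ostep D Q).Sublist Q := by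
  unfold ostep
  cases Q.find? fun v => decide (inq D Q v ≤ 1) && good D (del Q v) with
  | none => exact List.Sublist.refl _
  | some v => exact List.filter_sublist

theorem rest_succ (n : ℕ) (D : Arcs) (i : ℕ) : rest n D (i + 1) = ostep D (rest n D i) :=
  iterate_succ_apply' ..

theorem rest_sub (n : ℕ) (D : Arcs) {i j : ℕ} (h : i ≤ j) : (rest n D j).Sublist (rest n D i) := by
  induction h with
  | refl => exact List.Sublist.refl _
  | step _ ih => exact rest_succ n D _ ▸ (ostep_sub D _).trans ih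

theorem rest_inv {n : ℕ} (hw : Within n D) (ho : ∀ v, outd D v ≤ 2) (hs : Sparse D) (i : ℕ)
    (hi : i ≤ n) : good D (rest n D i) = true ∧ (rest n D i).toFinset.card + i = n := by
  induction i with
  | zero =>
    refine ⟨good_iff.2 fun u hu => ?_, by simp [rest, List.toFinset_range]⟩
    simp only [rest, iterate_zero, id, List.toFinset_range] at hu ⊢
    exact start hw hs (Finset.mem_range.1 hu)
  | succ i ih =>
    obtain ⟨h1, h2⟩ := ih (by omega)
    obtain ⟨v, h3, -, h4, h5⟩ := ostep_spec ho hs (Finset.card_pos.1 (by omega)) h1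
    rw [rest_succ, h4, Finset.card_erase_of_mem h3]
    exact ⟨h5, by omega⟩

theorem count_lt (t n : ℕ) : ((List.range n).countP fun i => decide (i < t)) = min t n := by
  induction n with
  | zero => simp
  | succ n ih =>
    rw [List.range_succ, List.countP_append, ih]
    by_cases h : n < t <;> simp [h] <;> omega

theorem two_le {β : Type} {l : List β} {p : β → Bool} {s : Finset β}
    (h : ∀ x ∈ s, x ∈ l ∧ p x = true) : s.card ≤ l.countP p := by
  classical
  rw [List.countP_eq_length_filter]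
  exact (Finset.card_le_card fun x hx => by simpa using h x hx).trans (List.toFinset_card_le _)

end Two

open Two

def ordPos (n : ℕ) (D : Arcs) (v : ℕ) : ℕ :=
  (List.range n).countP fun i => decide (v ∈ rest n D (i + 1))

theorem ordPos_iff {n : ℕ} {D : Arcs} (hw : Within n D) (ho : ∀ v, outd D v ≤ 2) (hs : Sparse D)
    {v : ℕ} (hv : v < n) : ordPos n D v < n ∧ ∀ i, v ∈ rest n D i ↔ i ≤ ordPos n D v := by
  have h0 : v ∉ rest n D n := fun h => by
    have := (rest_inv hw ho hs n le_rfl).2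
    have := Finset.card_pos.2 ⟨v, List.mem_toFinset.2 h⟩
    omega
  have ex : ∃ i, v ∉ rest n D i := ⟨n, h0⟩
  have h1 : ∀ i, v ∈ rest n D i ↔ i < Nat.find ex := fun i =>
    ⟨fun h => not_le.1 fun h' => Nat.find_spec ex ((rest_sub n D h').subset h),
      fun h => not_not.1 (Nat.find_min ex h)⟩
  have h2 : 0 < Nat.find ex := (h1 0).1 (List.mem_range.2 hv)
  have h3 : Nat.find ex ≤ n := Nat.find_le h0
  have h4 : ordPos n D v = min (Nat.find ex - 1) n := by
    rw [← count_lt]
    exact List.countP_congr fun i _ => by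
      rw [decide_eq_true_eq, decide_eq_true_eq, h1]; omega
  exact ⟨by omega, fun i => by rw [h1]; omega⟩

theorem ordPos_pick {n : ℕ} {D : Arcs} (hw : Within n D) (ho : ∀ v, outd D v ≤ 2) (hs : Sparse D)
    {v : ℕ} (hv : v < n) : inS D (rest n D (ordPos n D v)).toFinset v ≤ 1 ∧
      Rch D (rest n D (ordPos n D v)).toFinset v ∧
      ∀ u ∈ rest n D (ordPos n D v), u ≠ v → u ∈ rest n D (ordPos n D v + 1) := by
  obtain ⟨h1, h2⟩ := ordPos_iff hw ho hs hv
  have h3 := List.mem_toFinset.2 ((h2 _).2 le_rfl)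
  have h4 := (rest_inv hw ho hs _ h1.le).1
  obtain ⟨w, -, h5, h6, -⟩ := ostep_spec ho hs ⟨v, h3⟩ h4
  rw [← rest_succ] at h6
  have h7 : ∀ u ∈ rest n D (ordPos n D v), u ≠ w → u ∈ rest n D (ordPos n D v + 1) :=
    fun u hu e => List.mem_toFinset.1 (h6 ▸ Finset.mem_erase.2 ⟨e, List.mem_toFinset.2 hu⟩)
  obtain rfl : v = w := by
    by_contra e
    have := (h2 _).1 (h7 v (List.mem_toFinset.1 h3) e)
    omega
  exact ⟨h5, good_iff.1 h4 v h3, h7⟩

theorem ordPos_spec {n : ℕ} {D : Arcs} (hw : Within n D) (_hn : D.Nodup) (ho : ∀ v, outd D v ≤ 2)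
    (hs : Sparse D) :
    (∀ v < n, ordPos n D v < n) ∧ (∀ u < n, ∀ v < n, ordPos n D u = ordPos n D v → u = v) ∧
    ∀ v a b, (v, a) ∈ D → (v, b) ∈ D → a ≠ b →
      (ordPos n D a < ordPos n D v ∧ ordPos n D v < ordPos n D b) ∨
      (ordPos n D b < ordPos n D v ∧ ordPos n D v < ordPos n D a) := by
  refine ⟨fun v hv => (ordPos_iff hw ho hs hv).1, fun u hu v hv e => ?_, fun v a b ha hb hab => ?_⟩
  · by_contra h
    have h1 := (ordPos_iff hw ho hs hu).2
    have := (h1 _).1 ((ordPos_pick hw ho hs hv).2.2 u ((h1 _).2 e.ge) h)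
    omega
  · obtain ⟨hv, ha1, ha2⟩ := hw _ ha
    obtain ⟨-, hb1, hb2⟩ := hw _ hb
    dsimp only at hv ha1 ha2 hb1 hb2
    obtain ⟨h1, h2, h3⟩ := ordPos_pick hw ho hs hv
    have h4 := (ordPos_iff hw ho hs ha1).2
    have h5 := (ordPos_iff hw ho hs hb1).2
    have h6 := fun h => (h4 _).1 (h3 a ((h4 _).2 h) (Ne.symm ha2))
    have h7 := fun h => (h5 _).1 (h3 b ((h5 _).2 h) (Ne.symm hb2))
    have c2 : ({(v, a), (v, b)} : Finset (ℕ × ℕ)).card = 2 := Finset.card_pair (by simpa)
    have h8 : ¬(ordPos n D v ≤ ordPos n D a ∧ ordPos n D v ≤ ordPos n D b) := fun h => by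
      have : ({(v, a), (v, b)} : Finset (ℕ × ℕ)).card ≤
          inS D (rest n D (ordPos n D v)).toFinset v :=
        two_le (by simp [ha, hb, h4, h5, h.1, h.2])
      omega
    have h9 : ordPos n D v ≤ ordPos n D a ∨ ordPos n D v ≤ ordPos n D b := by
      cases h2 with
      | free _ _ h =>
        have : ({(v, a), (v, b)} : Finset (ℕ × ℕ)).card ≤ outd D v := two_le (by simp [ha, hb])
        omega
      | step _ w _ hw' h =>
        have hm := List.mem_toFinset.1 h.mem
        by_cases e : w = a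
        · exact .inl ((h4 _).1 (e ▸ hm))
        by_cases e' : w = b
        · exact .inr ((h5 _).1 (e' ▸ hm))
        have : ({(v, w), (v, a), (v, b)} : Finset (ℕ × ℕ)).card ≤ outd D v :=
          two_le (by simp [ha, hb, hw'])
        rw [Finset.card_insert_of_notMem (by simp [e, e']), c2] at this
        have := ho v
        omega
    omega

section
variable {α : Type} [Enc α] {n v : α → ℕ} {D : α → Arcs} {Q M : α → List ℕ}

@[fun_prop] theorem pt_outd (hD : PT D) (hv : PT v) : PT fun x => outd (D x) (v x) := by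
  unfold outd; fun_prop

@[fun_prop] theorem Two.pt_mstep (hD : PT D) (hQ : PT Q) (hM : PT M) :
    PT fun x => mstep (D x) (Q x) (M x) := by
  unfold mstep; fun_prop

@[fun_prop] theorem Two.pt_mark (hD : PT D) (hQ : PT Q) : PT fun x => mark (D x) (Q x) := by
  unfold mark
  refine PT.iterate (step := fun x => mstep (D x) (Q x)) (by fun_prop) (by fun_prop)
    (by fun_prop) hQ.pb fun x i _ => ?_
  cases i with
  | zero => simp
  | succ i => rw [iterate_succ_apply']; exact sz_le_of_sublist List.filter_sublist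

@[fun_prop] theorem Two.pt_good (hD : PT D) (hQ : PT Q) : PT fun x => good (D x) (Q x) := by
  unfold good; fun_prop

@[fun_prop] theorem Two.pt_ostep (hD : PT D) (hQ : PT Q) : PT fun x => ostep (D x) (Q x) := by
  unfold ostep del inq; fun_prop

@[fun_prop] theorem Two.pt_rest (hn : PT n) (hD : PT D) (hv : PT v) :
    PT fun x => rest (n x) (D x) (v x) := by
  have h : PT fun x => List.range (n x) := by fun_prop
  exact PT.iterate (step := fun x => ostep (D x)) hv h (by fun_prop) h.pb fun x i _ =>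
    sz_le_of_sublist (rest_sub (n x) (D x) (Nat.zero_le i))

end

@[fun_prop] theorem pt_ordPos {α : Type} [Enc α] {n v : α → ℕ} {D : α → Arcs} (hn : PT n)
    (hD : PT D) (hv : PT v) : PT fun x => ordPos (n x) (D x) (v x) := by
  unfold ordPos; fun_prop

end Pool.Agent.Lib.MP_6b7ffe_lc
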