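import Pool.Agent.Lib.MP_6b7ffe_lc.Base

set_option autoImplicit false

namespace Pool.Agent.Lib.MP_6b7ffe_lc

open Function Pool.Agent.Lib.Complexity

/-- ports of a general position drawing without crossing middle segments -/
structure GPorts {V : Type} (G : SimpleGraph V) (P : V → Fin 3 → ℝ) (c : V → V → Fin 3) :
    Prop where
  crd : ∀ u v i, P u i = P v i → u = v
  ne : ∀ u v, G.Adj u v → c u v ≠ c v u
  opp : ∀ u v v', G.Adj u v → G.Adj u v' → v ≠ v' → c u v = c u v' →
    (P v (c u v) - P u (c u v)) * (P v' (c u v) - P u (c u v)) < 0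
  ncr : ∀ u v u', G.Adj u v → G.Adj u' v → u ≠ u' → c u v = c u' v → c v u ≠ c v u' →
    P u' (c v u') ∈ Set.uIcc (P u (c v u')) (P v (c v u')) →
    P u (c v u) ∈ Set.uIcc (P u' (c v u)) (P v (c v u)) → False

namespace GPorts
variable {V : Type} {G : SimpleGraph V} {P : V → Fin 3 → ℝ} {c : V → V → Fin 3}

theorem coord (H : GPorts G P c) {u v : V} {i : Fin 3} (h : P u i = P v i) : u = v :=
  H.crd u v i h

theorem ee (H : GPorts G P c) {u v u' v' : V} {x : Fin 3 → ℝ} (h : G.Adj u v) (h' : G.Adj u' v')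
    (hne : ¬ (u = u' ∧ v = v')) (e : EndS P c u v x) (e' : EndS P c u' v' x) :
    u = u' ∧ x = P u := by
  obtain ⟨j, hj, hj'⟩ := fin3_third' (c u v) (c u' v')
  have huu : u = u' := H.coord ((e.1 j hj).symm.trans (e'.1 j hj'))
  subst huu
  refine ⟨rfl, funext fun i => ?_⟩
  by_cases hi : i = c u v
  · subst hi
    by_cases hc : c u v = c u v'
    · have hv : v ≠ v' := fun hv => hne ⟨rfl, hv⟩
      have := e'.2
      rw [← hc] at this
      exact Ports.uIcc_opp (H.opp u v v' h h' hv hc) e.2 this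
    · exact e'.1 _ hc
  · exact e.1 i hi

theorem em0 (H : GPorts G P c) {u v v' : V} {x : Fin 3 → ℝ} (h : G.Adj u v) (h' : G.Adj u v')
    (hne : v ≠ v') (hc : c u v = c u v') (e : EndS P c u v x) (e' : MidS P c u v' x) : False := by
  have h1 := H.opp u v v' h h' hne hc
  have h2 := e'.1
  rw [← hc] at h2
  have h3 : x (c u v) = P u (c u v) :=
    Ports.uIcc_opp h1 e.2 (by rw [h2]; exact Set.right_mem_uIcc)
  exact h'.ne (H.coord (h3.symm.trans h2))

theorem em (H : GPorts G P c) {u v u' v' : V} {x : Fin 3 → ℝ} (h : G.Adj u v) (h' : G.Adj u' v')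
    (hne : s(u, v) ≠ s(u', v')) (e : EndS P c u v x) (e' : MidS P c u' v' x) : False := by
  have hc := H.ne u' v' h'
  by_cases h1 : c u v = c u' v'
  · have huu : u = u' := H.coord ((e.1 _ (h1 ▸ hc.symm)).symm.trans e'.2.1)
    subst huu
    exact H.em0 h h' (fun hv => hne (by rw [hv])) h1 e e'
  by_cases h2 : c u v = c v' u'
  · have huu : u = v' := H.coord ((e.1 _ (h2 ▸ hc)).symm.trans e'.1)
    subst huu
    exact H.em0 h h'.symm (fun hv => hne (by rw [hv, Sym2.eq_swap])) h2 e e'.symm
  have a1 : u = v' := H.coord ((e.1 _ (Ne.symm h1)).symm.trans e'.1)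
  have a2 : u = u' := H.coord ((e.1 _ (Ne.symm h2)).symm.trans e'.2.1)
  exact h'.ne (a2.symm.trans a1)

theorem mm0 (H : GPorts G P c) {u v u' : V} {x : Fin 3 → ℝ} (h : G.Adj u v) (h' : G.Adj u' v)
    (hne : u ≠ u') (hc : c u v = c u' v) (e : MidS P c u v x) (e' : MidS P c u' v x) : False := by
  by_cases h1 : c v u = c v u'
  · exact hne (H.coord (e.2.1.symm.trans (h1 ▸ e'.2.1)))
  have a1 := e.2.2 (c v u') (hc ▸ (H.ne u' v h').symm) (Ne.symm h1)
  have a2 := e'.2.2 (c v u) (hc ▸ (H.ne u v h).symm) h1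
  rw [e'.2.1] at a1
  rw [e.2.1] at a2
  exact H.ncr u v u' h h' hne hc h1 a1 a2

theorem mm (H : GPorts G P c) {u v u' v' : V} {x : Fin 3 → ℝ} (h : G.Adj u v) (h' : G.Adj u' v')
    (hne : s(u, v) ≠ s(u', v')) (e : MidS P c u v x) (e' : MidS P c u' v' x) : False := by
  have key : c u v = c u' v' ∨ c u v = c v' u' ∨ c v u = c u' v' ∨ c v u = c v' u' := by
    have a := H.ne u v h
    have b := H.ne u' v' h'
    generalize c u v = i at *
    generalize c v u = j at *
    generalize c u' v' = k at *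
    generalize c v' u' = l at *
    revert i j k l; decide
  rcases key with k | k | k | k
  · have : v = v' := H.coord (e.1.symm.trans (k ▸ e'.1))
    subst this
    exact H.mm0 h h' (fun hv => hne (by rw [hv])) k e e'
  · have : v = u' := H.coord (e.1.symm.trans (k ▸ e'.2.1))
    subst this
    exact H.mm0 h h'.symm (fun hv => hne (by rw [hv, Sym2.eq_swap])) k e e'.symm
  · have : u = v' := H.coord (e.2.1.symm.trans (k ▸ e'.1))
    subst this
    exact H.mm0 h.symm h' (fun hv => hne (by rw [hv, Sym2.eq_swap])) k e.symm e'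
  · have : u = u' := H.coord (e.2.1.symm.trans (k ▸ e'.2.1))
    subst this
    exact H.mm0 h.symm h'.symm (fun hv => hne (by rw [hv])) k e.symm e'.symm

theorem isDrawing (H : GPorts G P c) : IsDrawing G P (bend P c) := by
  refine ⟨fun u v h => H.coord (congrFun h 0), fun u v h => ?_, fun u v w h hw => ?_,
    fun u v u' v' h h' hne x hx => ?_⟩
  · have hc := H.ne u v h
    obtain ⟨m, h1, h2⟩ := fin3_third hc
    refine ⟨c u v, m, c v u, h1.symm, hc, h2, fun j hj => ?_, fun j hj => ?_, fun j hj => ?_⟩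
    · simp [bend, update_of_ne hj]
    · by_cases a : j = c u v
      · subst a; simp [bend, update_of_ne hc]
      · by_cases b : j = c v u
        · subst b; simp [bend, update_of_ne hc.symm]
        · exact absurd (fin3_uniq hc a b h1 h2) hj
    · simp [bend, update_of_ne hj]
  · rcases chain_cases (H.ne u v h) hw with e | e | e
    · obtain ⟨j, hj, -⟩ := fin3_third' (c u v) (c u v)
      exact .inl (H.coord (e.1 j hj))
    · exact .inr (H.coord e.1)
    · obtain ⟨j, hj, -⟩ := fin3_third' (c v u) (c v u)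
      exact .inr (H.coord (e.1 j hj))
  · have s1 : s(v, u) ≠ s(u', v') := by rwa [Sym2.eq_swap]
    have s2 : s(u, v) ≠ s(v', u') := by rwa [Sym2.eq_swap (a := v')]
    have s3 : s(v, u) ≠ s(v', u') := by rwa [Sym2.eq_swap (a := v')]
    have nn : ∀ {a b a' b' : V}, s(a, b) ≠ s(a', b') → ¬ (a = a' ∧ b = b') := by
      rintro a b a' b' hh ⟨rfl, rfl⟩; exact hh rfl
    rcases chain_cases (H.ne u v h) hx.1 with e | e | e <;>
      rcases chain_cases (H.ne u' v' h') hx.2 with e' | e' | e'
    · obtain ⟨a, b⟩ := H.ee h h' (nn hne) e e'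
      exact ⟨u, .inl rfl, .inl a, b⟩
    · exact (H.em h h' hne e e').elim
    · obtain ⟨a, b⟩ := H.ee h h'.symm (nn s2) e e'
      exact ⟨u, .inl rfl, .inr a, b⟩
    · exact (H.em h' h hne.symm e' e).elim
    · exact (H.mm h h' hne e e').elim
    · exact (H.em h'.symm h s2.symm e' e).elim
    · obtain ⟨a, b⟩ := H.ee h.symm h' (nn s1) e e'
      exact ⟨v, .inr rfl, .inl a, b⟩
    · exact (H.em h.symm h' s1 e e').elim
    · obtain ⟨a, b⟩ := H.ee h.symm h'.symm (nn s3) e e'
      exact ⟨v, .inr rfl, .inr a, b⟩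

end GPorts

def crdX (X : List (List ℕ)) (i : Fin 3) (v : ℕ) : ℕ := (X.getD i []).getD v 0

def prt (c : List (List (Fin 3))) (u v : ℕ) : Fin 3 := (c.getD u []).getD v 0

structure GP (A : Mat) (X : List (List ℕ)) (c : List (List (Fin 3))) : Prop where
  symm : ∀ u v, adj A u v = adj A v u
  irr : ∀ u, adj A u u = false
  rng : ∀ u v, adj A u v = true → u < A.length ∧ v < A.length
  lt : ∀ i, ∀ v < A.length, crdX X i v < A.length
  inj : ∀ i, ∀ u < A.length, ∀ v < A.length, crdX X i u = crdX X i v → u = v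
  ne : ∀ u v, adj A u v = true → prt c u v ≠ prt c v u
  opp : ∀ u v v', adj A u v = true → adj A u v' = true → v ≠ v' → prt c u v = prt c u v' →
    (crdX X (prt c u v) v < crdX X (prt c u v) u ∧ crdX X (prt c u v) u < crdX X (prt c u v) v') ∨
    (crdX X (prt c u v) v' < crdX X (prt c u v) u ∧ crdX X (prt c u v) u < crdX X (prt c u v) v)

/-- `x` lies between `a` and `b` -/
def btw (a x b : ℕ) : Bool := decide ((a ≤ x ∧ x ≤ b) ∨ (b ≤ x ∧ x ≤ a))

/-- the middle segments of the edges `uv` and `u'v` cross, `t = (u, v, u')` -/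
def crs (A : Mat) (X : List (List ℕ)) (c : List (List (Fin 3))) (t : ℕ × ℕ × ℕ) : Bool :=
  adj A t.1 t.2.1 && adj A t.2.2 t.2.1 && decide (t.1 ≠ t.2.2) &&
    decide (prt c t.1 t.2.1 = prt c t.2.2 t.2.1) && decide (prt c t.2.1 t.1 ≠ prt c t.2.1 t.2.2) &&
    btw (crdX X (prt c t.2.1 t.2.2) t.1) (crdX X (prt c t.2.1 t.2.2) t.2.2)
      (crdX X (prt c t.2.1 t.2.2) t.2.1) &&
    btw (crdX X (prt c t.2.1 t.1) t.2.2) (crdX X (prt c t.2.1 t.1) t.1)
      (crdX X (prt c t.2.1 t.1) t.2.1)

def trip (n : ℕ) : List (ℕ × ℕ × ℕ) :=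
  (List.range n).flatMap fun u => (List.range n).flatMap fun v =>
    (List.range n).map fun w => (u, v, w)

def swp (n : ℕ) (c : List (List (Fin 3))) (t : ℕ × ℕ × ℕ) : List (List (Fin 3)) :=
  (List.range n).map fun a => (List.range n).map fun b =>
    if a = t.2.1 ∧ b = t.1 then prt c t.2.1 t.2.2
    else if a = t.2.1 ∧ b = t.2.2 then prt c t.2.1 t.1 else prt c a b

def ustep (A : Mat) (X : List (List ℕ)) (c : List (List (Fin 3))) : List (List (Fin 3)) :=
  ((trip A.length).find? (crs A X c)).elim c (swp A.length c)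

def unc (A : Mat) (X : List (List ℕ)) (c : List (List (Fin 3))) : List (List (Fin 3)) :=
  (ustep A X)^[A.length * (A.length * A.length) + 1] c

def posX (X : List (List ℕ)) (v : ℕ) : ℤ × ℤ × ℤ :=
  ((crdX X 0 v : ℤ), (crdX X 1 v : ℤ), (crdX X 2 v : ℤ))

def bndX (X : List (List ℕ)) (c : List (List (Fin 3))) (u v : ℕ) : ℤ × ℤ × ℤ :=
  (if prt c u v = 0 then (crdX X 0 v : ℤ) else (crdX X 0 u : ℤ),
    if prt c u v = 1 then (crdX X 1 v : ℤ) else (crdX X 1 u : ℤ),
    if prt c u v = 2 then (crdX X 2 v : ℤ) else (crdX X 2 u : ℤ))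

def drawX (n : ℕ) (X : List (List ℕ)) (c : List (List (Fin 3))) :
    List (ℤ × ℤ × ℤ) × List (List (ℤ × ℤ × ℤ)) :=
  ((List.range n).map (posX X), (List.range n).map fun u => (List.range n).map (bndX X c u))

def finish (A : Mat) (X : List (List ℕ)) (c : List (List (Fin 3))) :
    List (ℤ × ℤ × ℤ) × List (List (ℤ × ℤ × ℤ)) :=
  drawX A.length X (unc A X c)

section
variable {A : Mat} {X : List (List ℕ)} {c : List (List (Fin 3))}

theorem mem_trip {n : ℕ} {t : ℕ × ℕ × ℕ} : t ∈ trip n ↔ t.1 < n ∧ t.2.1 < n ∧ t.2.2 < n := by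
  obtain ⟨u, v, w⟩ := t
  simp [trip]

theorem prt_swp {n : ℕ} {u v w a b : ℕ} (ha : a < n) (hb : b < n) :
    prt (swp n c (u, v, w)) a b =
      if a = v ∧ b = u then prt c v w else if a = v ∧ b = w then prt c v u else prt c a b := by
  simp [prt, swp, ha, hb]

theorem crs_iff {u v w : ℕ} : crs A X c (u, v, w) = true ↔
    adj A u v = true ∧ adj A w v = true ∧ u ≠ w ∧ prt c u v = prt c w v ∧ prt c v u ≠ prt c v w ∧
      btw (crdX X (prt c v w) u) (crdX X (prt c v w) w) (crdX X (prt c v w) v) = true ∧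
      btw (crdX X (prt c v u) w) (crdX X (prt c v u) u) (crdX X (prt c v u) v) = true := by
  simp only [crs, Bool.and_eq_true, decide_eq_true_eq, and_assoc]

theorem GP.ne' (H : GP A X c) {u v : ℕ} (h : adj A u v = true) : u ≠ v := by
  rintro rfl
  rw [H.irr] at h
  exact Bool.false_ne_true h

theorem GP.cne (H : GP A X c) {u v : ℕ} (i : Fin 3) (hu : u < A.length) (hv : v < A.length)
    (h : u ≠ v) : crdX X i u ≠ crdX X i v := fun e => h (H.inj i u hu v hv e)

theorem gp_swp (H : GP A X c) {u v w : ℕ} (h : crs A X c (u, v, w) = true) :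
    GP A X (swp A.length c (u, v, w)) := by
  obtain ⟨h1, h2, h3, h4, h5, h6, h7⟩ := crs_iff.1 h
  have uv := H.ne' h1
  have wv := H.ne' h2
  obtain ⟨hu, hv⟩ := H.rng _ _ h1
  have hw := (H.rng _ _ h2).1
  have n1 := H.ne _ _ h1
  have n2 := H.ne _ _ h2
  have h1' : adj A v u = true := by rw [H.symm]; exact h1
  have h2' : adj A v w = true := by rw [H.symm]; exact h2
  simp only [btw, decide_eq_true_eq] at h6 h7
  refine ⟨H.symm, H.irr, H.rng, H.lt, H.inj, fun a b hab => ?_, fun a b b' hab hab' hbb => ?_⟩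
  · obtain ⟨ha, hb⟩ := H.rng _ _ hab
    have n := H.ne _ _ hab
    have ab := H.ne' hab
    rw [prt_swp ha hb, prt_swp hb ha]
    split_ifs <;> grind
  · obtain ⟨ha, hb⟩ := H.rng _ _ hab
    have hb' := (H.rng _ _ hab').2
    rw [prt_swp ha hb, prt_swp ha hb']
    by_cases av : a = v
    swap
    · simp only [av, false_and, if_false]
      exact H.opp a b b' hab hab' hbb
    subst av
    simp only [true_and]
    have c1 := H.cne (prt c a w) hu hw h3
    have c2 := H.cne (prt c a w) hw ha wv
    have c3 := H.cne (prt c a u) hu hw h3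
    have c4 := H.cne (prt c a u) hu ha uv
    by_cases bu : b = u
    · subst bu
      simp only [if_true, hbb.symm, if_false]
      split_ifs with bw
      · intro e; exact absurd e.symm h5
      · intro e
        have := H.opp a w b' h2' hab' (Ne.symm bw) e
        omega
    by_cases bw : b = w
    · subst bw
      simp only [if_true, hbb.symm, if_false, bu]
      split_ifs with bu'
      · intro e; exact absurd e h5
      · intro e
        have := H.opp a u b' h1' hab' (Ne.symm bu') e
        omega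
    simp only [bu, bw, if_false]
    split_ifs with e1 e2
    · subst e1
      intro e
      have := H.opp a b w hab h2' bw e
      rw [e] at this ⊢
      omega
    · subst e2
      intro e
      have := H.opp a b u hab h1' bu e
      rw [e] at this ⊢
      omega
    · exact H.opp a b b' hab hab' hbb

/-- total length of the first segments -/
def psi (n : ℕ) (X : List (List ℕ)) (c : List (List (Fin 3))) : ℕ :=
  ∑ a ∈ Finset.range n, ∑ b ∈ Finset.range n,
    Nat.dist (crdX X (prt c a b) a) (crdX X (prt c a b) b)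

theorem psi_le (H : GP A X c) : psi A.length X c ≤ A.length * (A.length * A.length) := by
  unfold psi
  refine (Finset.sum_le_card_nsmul _ _ (A.length * A.length) fun a ha => ?_).trans (by simp)
  refine (Finset.sum_le_card_nsmul _ _ A.length fun b hb => ?_).trans (by simp)
  have h1 := H.lt (prt c a b) a (Finset.mem_range.1 ha)
  have h2 := H.lt (prt c a b) b (Finset.mem_range.1 hb)
  unfold Nat.dist; omega

theorem psi_swp (H : GP A X c) {u v w : ℕ} (h : crs A X c (u, v, w) = true) :
    psi A.length X c < psi A.length X (swp A.length c (u, v, w)) := by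
  obtain ⟨h1, h2, h3, h4, h5, h6, h7⟩ := crs_iff.1 h
  have uv := H.ne' h1
  have wv := H.ne' h2
  obtain ⟨hu, hv⟩ := H.rng _ _ h1
  have hw := (H.rng _ _ h2).1
  simp only [btw, decide_eq_true_eq] at h6 h7
  have key : ∑ b ∈ Finset.range A.length, Nat.dist (crdX X (prt c v b) v) (crdX X (prt c v b) b) <
      ∑ b ∈ Finset.range A.length, Nat.dist (crdX X (prt (swp A.length c (u, v, w)) v b) v)
        (crdX X (prt (swp A.length c (u, v, w)) v b) b) := by
    have m1 : u ∈ Finset.range A.length := Finset.mem_range.2 hu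
    have m2 : w ∈ (Finset.range A.length).erase u :=
      Finset.mem_erase.2 ⟨h3.symm, Finset.mem_range.2 hw⟩
    rw [← Finset.add_sum_erase _ _ m1, ← Finset.add_sum_erase _ _ m1,
      ← Finset.add_sum_erase _ _ m2, ← Finset.add_sum_erase _ _ m2]
    have e : ∑ b ∈ ((Finset.range A.length).erase u).erase w,
        Nat.dist (crdX X (prt (swp A.length c (u, v, w)) v b) v)
          (crdX X (prt (swp A.length c (u, v, w)) v b) b) =
        ∑ b ∈ ((Finset.range A.length).erase u).erase w,
          Nat.dist (crdX X (prt c v b) v) (crdX X (prt c v b) b) := by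
      refine Finset.sum_congr rfl fun b hb => ?_
      simp only [Finset.mem_erase, Finset.mem_range] at hb
      rw [prt_swp hv hb.2.2]
      simp [hb.1, hb.2.1]
    rw [e, prt_swp hv hu, prt_swp hv hw]
    simp only [and_self, if_true, true_and, h3.symm, if_false]
    have c1 := H.cne (prt c v w) hu hw h3
    have c3 := H.cne (prt c v u) hu hw h3
    unfold Nat.dist
    omega
  unfold psi
  refine Finset.sum_lt_sum (fun a ha => ?_) ⟨v, Finset.mem_range.2 hv, key⟩
  by_cases av : a = v
  · subst av; exact key.le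
  refine le_of_eq (Finset.sum_congr rfl fun b hb => ?_)
  rw [prt_swp (Finset.mem_range.1 ha) (Finset.mem_range.1 hb)]
  simp [av]

theorem ustep_spec (H : GP A X c) : GP A X (ustep A X c) ∧
    (((∀ t, crs A X c t = false) ∧ ustep A X c = c) ∨
      psi A.length X c < psi A.length X (ustep A X c)) := by
  unfold ustep
  rcases hf : (trip A.length).find? (crs A X c) with _ | ⟨u, v, w⟩
  · refine ⟨H, .inl ⟨fun t => ?_, rfl⟩⟩
    by_contra ht
    rw [Bool.not_eq_false] at ht
    obtain ⟨u, v, w⟩ := t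
    obtain ⟨h1, h2, -⟩ := crs_iff.1 ht
    exact List.find?_eq_none.1 hf (u, v, w)
      (mem_trip.2 ⟨(H.rng _ _ h1).1, (H.rng _ _ h1).2, (H.rng _ _ h2).1⟩) ht
  · have h := List.find?_some hf
    exact ⟨gp_swp H h, .inr (psi_swp H h)⟩

theorem iter_spec (H : GP A X c) (k : ℕ) : GP A X ((ustep A X)^[k] c) ∧
    ((∀ t, crs A X ((ustep A X)^[k] c) t = false) ∨ k ≤ psi A.length X ((ustep A X)^[k] c)) := by
  induction k with
  | zero => exact ⟨H, .inr (Nat.zero_le _)⟩
  | succ k ih =>
    rw [iterate_succ_apply']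
    obtain ⟨h1, h2⟩ := ustep_spec ih.1
    refine ⟨h1, ?_⟩
    rcases h2 with ⟨h2, h3⟩ | h2
    · rw [h3]; exact .inl h2
    · rcases ih.2 with h | h
      · have e : ustep A X ((ustep A X)^[k] c) = (ustep A X)^[k] c := by
          generalize (ustep A X)^[k] c = d at h
          unfold ustep
          rw [List.find?_eq_none.2 fun t _ => by simp [h t]]
          rfl
        rw [e]; exact .inl h
      · exact .inr (by omega)

theorem unc_spec (H : GP A X c) : GP A X (unc A X c) ∧ ∀ t, crs A X (unc A X c) t = false := by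
  obtain ⟨h1, h2⟩ := iter_spec H (A.length * (A.length * A.length) + 1)
  refine ⟨h1, h2.resolve_right fun h => ?_⟩
  have := psi_le h1
  omega

theorem btw_of {a x b : ℕ} (h : (x : ℝ) ∈ Set.uIcc (a : ℝ) b) : btw a x b = true := by
  simp only [btw, decide_eq_true_eq]
  rcases Set.mem_uIcc.1 h with ⟨p, q⟩ | ⟨p, q⟩
  · exact .inl ⟨by exact_mod_cast p, by exact_mod_cast q⟩
  · exact .inr ⟨by exact_mod_cast p, by exact_mod_cast q⟩

theorem gports (H : GP A X c) (hc : ∀ t, crs A X c t = false) (G : SimpleGraph (Fin A.length))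
    (hG : ∀ u v : Fin A.length, G.Adj u v ↔ adj A u v = true) :
    GPorts G (fun v i => (crdX X i v : ℝ)) (fun u v => prt c u v) := by
  refine ⟨fun u v i h => Fin.ext (H.inj i u u.2 v v.2 (by exact_mod_cast h)),
    fun u v h => H.ne _ _ ((hG _ _).1 h), fun u v v' h h' hne e => ?_,
    fun u v u' h h' hne e e' a b => ?_⟩
  · rcases H.opp u v v' ((hG _ _).1 h) ((hG _ _).1 h') (fun x => hne (Fin.ext x)) e with
      ⟨p, q⟩ | ⟨p, q⟩
    · exact mul_neg_of_neg_of_pos (sub_neg.2 (by exact_mod_cast p)) (sub_pos.2 (by exact_mod_cast q))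
    · exact mul_neg_of_pos_of_neg (sub_pos.2 (by exact_mod_cast q)) (sub_neg.2 (by exact_mod_cast p))
  · have := hc (u, v, u')
    rw [crs_iff.2 ⟨(hG _ _).1 h, (hG _ _).1 h', fun x => hne (Fin.ext x), e, e', btw_of a,
      btw_of b⟩] at this
    exact Bool.false_ne_true this.symm

theorem pt_posX (v : ℕ) : pt (posX X v) = fun i => (crdX X i v : ℝ) := by
  funext i; fin_cases i <;> simp [pt, posX]

theorem pt_bndX (u v : ℕ) : pt (bndX X c u v) =
    update (fun i => (crdX X i u : ℝ)) (prt c u v) (crdX X (prt c u v) v) := by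
  funext i
  unfold bndX pt
  generalize prt c u v = d
  fin_cases i <;> fin_cases d <;> simp

end

theorem finish_correct {A : Mat} {X : List (List ℕ)} {c : List (List (Fin 3))} (H : GP A X c)
    {n : ℕ} (hn : A.length = n) (G : SimpleGraph (Fin n))
    (hG : ∀ u v : Fin n, G.Adj u v ↔ adj A u v = true) :
    IsDrawing G (fun u => pt ((finish A X c).1.getD u 0))
      (fun u v => pt (((finish A X c).2.getD u []).getD v 0)) := by
  subst hn
  have := (gports (unc_spec H).1 (unc_spec H).2 G hG).isDrawing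
  convert this using 2 with u u
  · simp [finish, drawX, pt_posX]
  · funext v
    simp [finish, drawX, pt_bndX, bend]

section
variable {α : Type} [Enc α] {A : α → Mat} {X : α → List (List ℕ)} {c : α → List (List (Fin 3))}
  {u v : α → ℕ} {i : α → Fin 3}

@[fun_prop] theorem pt_crdX (hX : PT X) (hi : PT i) (hv : PT v) :
    PT fun x => crdX (X x) (i x) (v x) := by
  unfold crdX; fun_prop

@[fun_prop] theorem pt_prt (hc : PT c) (hu : PT u) (hv : PT v) :
    PT fun x => prt (c x) (u x) (v x) := by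
  unfold prt; fun_prop

@[fun_prop] theorem pt_btw {w : α → ℕ} (hu : PT u) (hv : PT v) (hw : PT w) :
    PT fun x => btw (u x) (v x) (w x) := by
  unfold btw; fun_prop

@[fun_prop] theorem pt_crs {t : α → ℕ × ℕ × ℕ} (hA : PT A) (hX : PT X) (hc : PT c) (ht : PT t) :
    PT fun x => crs (A x) (X x) (c x) (t x) := by
  unfold crs; fun_prop

@[fun_prop] theorem pt_trip (hu : PT u) : PT fun x => trip (u x) := by
  unfold trip; fun_prop

@[fun_prop] theorem pt_swp {t : α → ℕ × ℕ × ℕ} (hu : PT u) (hc : PT c) (ht : PT t) :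
    PT fun x => swp (u x) (c x) (t x) := by
  unfold swp; fun_prop

@[fun_prop] theorem pt_ustep (hA : PT A) (hX : PT X) (hc : PT c) :
    PT fun x => ustep (A x) (X x) (c x) := by
  unfold ustep; fun_prop

theorem sz_swp (n : ℕ) (c : List (List (Fin 3))) (t : ℕ × ℕ × ℕ) :
    sz (swp n c t) ≤ n * (n * 3 + 1) := by
  unfold swp
  refine (sz_list_le (B := n * 3) fun l hl => ?_).trans (by simp)
  obtain ⟨a, -, rfl⟩ := List.mem_map.1 hl
  exact (sz_list_le (B := 2) fun y _ => sz_fin3 y).trans (by simp)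

theorem sz_ustep (A : Mat) (X : List (List ℕ)) (c : List (List (Fin 3))) (k : ℕ) :
    sz ((ustep A X)^[k] c) ≤ sz c + A.length * (A.length * 3 + 1) := by
  induction k with
  | zero => simp
  | succ k ih =>
    rw [iterate_succ_apply']
    generalize (ustep A X)^[k] c = d at ih
    unfold ustep
    rcases (trip A.length).find? (crs A X d) with _ | t
    · exact ih
    · exact (sz_swp _ _ _).trans (Nat.le_add_left _ _)

@[fun_prop] theorem pt_unc (hA : PT A) (hX : PT X) (hc : PT c) :
    PT fun x => unc (A x) (X x) (c x) := by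
  have h : PT fun x => (A x).length * ((A x).length * 3 + 1) := by fun_prop
  exact PT.iterate (step := fun x => ustep (A x) (X x)) (by fun_prop) hc (by fun_prop)
    (hc.pb.add h.pb_nat) fun x k _ => sz_ustep ..

@[fun_prop] theorem pt_drawX (hu : PT u) (hX : PT X) (hc : PT c) :
    PT fun x => drawX (u x) (X x) (c x) := by
  unfold drawX posX bndX; fun_prop

end

@[fun_prop] theorem pt_finish {α : Type} [Enc α] {A : α → Mat} {X : α → List (List ℕ)}
    {c : α → List (List (Fin 3))} (hA : PT A) (hX : PT X) (hc : PT c) :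
    PT fun x => finish (A x) (X x) (c x) := by
  unfold finish; fun_prop

end Pool.Agent.Lib.MP_6b7ffe_lc
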