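import Pool.Agent.Lib.MP_6b7ffe_lc.Konig2
import Pool.Agent.Lib.MP_6b7ffe_lc.Order
import Pool.Agent.Lib.MP_6b7ffe_lc.Uncross

set_option autoImplicit false

namespace Pool.Agent.Lib.MP_6b7ffe_lc

open Function Pool.Agent.Lib.Complexity

abbrev Cls := List (List (ℕ × Bool))

def cl (K : Cls) (u v : ℕ) : ℕ × Bool := (K.getD u []).getD v (0, false)

def pairs (n : ℕ) : Arcs := (List.range n).flatMap fun u => (List.range n).map fun v => (u, v)

def edges (A : Mat) : Arcs := (pairs A.length).filter fun p => decide (p.1 < p.2) && adj A p.1 p.2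

def bas (A : Mat) (W : Arcs) : Arcs :=
  base A.length W ((edges A).filter fun e => decide (e ∉ W.map nm))

def rst (A : Mat) (B : Arcs) : Arcs := (edges A).filter fun e => decide (e ∉ B.map nm)

def rev (D : Arcs) : Arcs := D.map fun p => (p.2, p.1)

def fin4 (A : Mat) (B : Arcs) : Arcs :=
  rev (red A.length ((List.range A.length).map fun v => 4 - (outd (rst A B) v + ind (rst A B) v))
    (rev B))

def dX (A : Mat) (W : Arcs) : Arcs := fin4 A (bas A W)

def nX (A : Mat) (D : Arcs) (v : ℕ) : List ℕ :=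
  (List.range A.length).filter fun u => adj A v u && decide ((v, u) ∉ D)

def itm (A : Mat) (K : Cls) (D : Arcs) (v u : ℕ) : ItK :=
  ((cl K v u, v, decide (u ∈ (nX A D v).drop 2)), u)

def itms (A : Mat) (K : Cls) (D : Arcs) : List ItK :=
  (List.range A.length).flatMap fun v => (nX A D v).map (itm A K D v)

def colr (A : Mat) (K : Cls) (D : Arcs) (v u : ℕ) : Fin 3 :=
  if (v, u) ∈ D then 2 else colOfK (itms A K D) (itm A K D v u)

def cmat (A : Mat) (K : Cls) (D : Arcs) : List (List (Fin 3)) :=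
  (List.range A.length).map fun v => (List.range A.length).map (colr A K D v)

def arcsOf (A : Mat) (c : List (List (Fin 3))) (i : Fin 3) : Arcs :=
  (pairs A.length).filter fun p => adj A p.1 p.2 && decide (prt c p.1 p.2 = i)

def line (A : Mat) (c : List (List (Fin 3))) (i : Fin 3) : List ℕ :=
  (List.range A.length).map (ordPos A.length (arcsOf A c i))

def xmat (A : Mat) (c : List (List (Fin 3))) : List (List ℕ) := [line A c 0, line A c 1, line A c 2]

def core (A : Mat) (W : Arcs) (K : Cls) : List (ℤ × ℤ × ℤ) × List (List (ℤ × ℤ × ℤ)) :=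
  finish A (xmat A (cmat A K (dX A W))) (cmat A K (dX A W))

structure Gr (A : Mat) : Prop where
  symm : ∀ u v, adj A u v = adj A v u
  irr : ∀ u, adj A u u = false
  rng : ∀ u v, adj A u v = true → u < A.length ∧ v < A.length
  deg : ∀ v, ((List.range A.length).filter (adj A v)).length ≤ 6

structure Pre (A : Mat) (W : Arcs) (K : Cls) : Prop where
  wadj : ∀ p ∈ W, adj A p.1 p.2 = true
  wnd : (W.map nm).Nodup
  wsp : Sparse W
  wout : ∀ v, outd W v ≤ 2
  ksymm : ∀ u v, adj A u v = true → cl K u v = cl K v u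
  k2 : ∀ p q : ℕ × ℕ, adj A p.1 p.2 = true → adj A q.1 q.2 = true → cl K p.1 p.2 = cl K q.1 q.2 →
    nm p = nm q ∨ nm p ∈ W.map nm
  k3 : ∀ p q r : ℕ × ℕ, adj A p.1 p.2 = true → adj A q.1 q.2 = true → adj A r.1 r.2 = true →
    cl K p.1 p.2 = cl K q.1 q.2 → cl K p.1 p.2 = cl K r.1 r.2 →
    nm p = nm q ∨ nm p = nm r ∨ nm q = nm r
  img : ∀ S : Finset ℕ, 2 ≤ S.card → ∃ T : Finset (ℕ × Bool), T.card + 3 ≤ 2 * S.card ∧
    ∀ u ∈ S, ∀ v ∈ S, adj A u v = true → cl K u v ∈ T

variable {A : Mat} {W : Arcs} {K : Cls}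

theorem mem_pairs {n : ℕ} {p : ℕ × ℕ} : p ∈ pairs n ↔ p.1 < n ∧ p.2 < n := by
  obtain ⟨a, b⟩ := p
  simp [pairs]

theorem pairs_nodup (n : ℕ) : (pairs n).Nodup := by
  have : pairs n = List.range n ×ˢ List.range n := rfl
  rw [this]
  exact List.nodup_range.product List.nodup_range

theorem Gr.ne (G : Gr A) {u v : ℕ} (h : adj A u v = true) : u ≠ v := by
  rintro rfl; rw [G.irr] at h; cases h

theorem mem_edges (G : Gr A) {p : ℕ × ℕ} : p ∈ edges A ↔ p.1 < p.2 ∧ adj A p.1 p.2 = true := by
  simp only [edges, List.mem_filter, mem_pairs, Bool.and_eq_true, decide_eq_true_eq]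
  exact ⟨fun h => h.2, fun h => ⟨G.rng _ _ h.2, h⟩⟩

theorem edges_nodup (A : Mat) : (edges A).Nodup := (pairs_nodup _).filter _

theorem nm_of_lt {p : ℕ × ℕ} (h : p.1 < p.2) : nm p = p := by
  obtain ⟨a, b⟩ := p
  simp only [nm, Prod.mk.injEq] at h ⊢
  omega

theorem nm_mem_edges (G : Gr A) {p : ℕ × ℕ} (h : adj A p.1 p.2 = true) : nm p ∈ edges A := by
  rw [mem_edges G]
  have := G.ne h
  rcases lt_or_gt_of_ne this with a | a
  · rw [nm_of_lt a]; exact ⟨a, h⟩
  · rw [← nm_swap, nm_of_lt (p := p.swap) a]; exact ⟨a, by rw [G.symm]; exact h⟩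

theorem map_nm_edges (G : Gr A) {L : Arcs} (h : ∀ p ∈ L, p ∈ edges A) : L.map nm = L :=
  (List.map_congr_left fun p hp => nm_of_lt ((mem_edges G).1 (h p hp)).1).trans (List.map_id' _)

theorem adj_of_nm (G : Gr A) {p q : ℕ × ℕ} (h : nm p = nm q) (a : adj A q.1 q.2 = true) :
    adj A p.1 p.2 = true := by
  rcases nm_eq h with rfl | rfl
  · exact a
  · rw [G.symm]; exact a

/-- the list `B` of arcs together with the remaining edges is the edge list -/
theorem perm_rest (G : Gr A) {B : Arcs} (h1 : ∀ p ∈ B, adj A p.1 p.2 = true)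
    (h2 : (B.map nm).Nodup) :
    ((rst A B ++ B).map nm).Perm (edges A) := by
  have a : (rst A B).map nm = rst A B := map_nm_edges G fun p hp => (List.mem_filter.1 hp).1
  rw [List.map_append, a]
  refine (List.perm_ext_iff_of_nodup ?_ (edges_nodup A)).2 fun e => ?_
  · refine ((edges_nodup A).filter _).append h2 fun e h3 h4 => ?_
    simpa [h4] using (List.mem_filter.1 h3).2
  · simp only [rst, List.mem_append, List.mem_filter, decide_eq_true_eq]
    constructor
    · rintro (h | h)
      · exact h.1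
      · obtain ⟨p, hp, rfl⟩ := List.mem_map.1 h
        exact nm_mem_edges G (h1 p hp)
    · intro h; by_cases h3 : e ∈ B.map nm
      · exact .inr h3
      · exact .inl ⟨h, h3⟩

theorem deg_le {L : Arcs} (hn : (L.map nm).Nodup) (hl : ∀ p ∈ L, p.1 ≠ p.2) (v : ℕ) (N : List ℕ)
    (h : ∀ p ∈ L, (p.1 = v → p.2 ∈ N) ∧ (p.2 = v → p.1 ∈ N)) : outd L v + ind L v ≤ N.length := by
  have e : outd L v + ind L v = (L.filter fun p => decide (p.1 = v ∨ p.2 = v)).length := by
    rw [← List.countP_eq_length_filter]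
    clear hn h
    induction L with
    | nil => simp [outd, ind]
    | cons p L ih =>
      have := ih fun q hq => hl q (List.mem_cons_of_mem _ hq)
      have a := hl p (by simp)
      simp only [outd, ind, List.countP_cons, decide_eq_true_eq] at this ⊢
      split_ifs <;> omega
  rw [e, ← List.length_map fun p : ℕ × ℕ => if p.1 = v then p.2 else p.1]
  refine (List.subperm_of_subset ?_ fun x hx => ?_).length_le
  · refine List.Nodup.map_on (fun p hp q hq e => ?_) ((hn.of_map _).filter _)
    obtain ⟨p1, p2⟩ := List.mem_filter.1 hp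
    obtain ⟨q1, q2⟩ := List.mem_filter.1 hq
    refine List.inj_on_of_nodup_map hn p1 q1 ?_
    simp only [decide_eq_true_eq] at p2 q2
    simp only [nm, Prod.mk.injEq]
    split_ifs at e <;> omega
  · obtain ⟨p, hp, rfl⟩ := List.mem_map.1 hx
    obtain ⟨p1, p2⟩ := List.mem_filter.1 hp
    simp only [decide_eq_true_eq] at p2
    split_ifs with a
    · exact (h p p1).1 a
    · exact (h p p1).2 (p2.resolve_left a)

theorem ins_append (L L' : Arcs) (S : Finset ℕ) : ins (L ++ L') S = ins L S + ins L' S :=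
  List.countP_append

theorem ins_map_nm (L : Arcs) (S : Finset ℕ) : ins (L.map nm) S = ins L S :=
  ins_nm (by
    rw [List.map_map]
    exact List.Perm.of_eq (List.map_congr_left fun p _ => by simp [nm])) S

theorem edge_count (G : Gr A) (H : Pre A W K) (C : Finset ℕ) (hC : 2 ≤ C.card) :
    2 * ins (edges A) C + 9 ≤ 6 * C.card := by
  obtain ⟨T, t1, t2⟩ := H.img C hC
  have hw := H.wsp C hC
  set F := ((edges A).filter (inC C)).toFinset with hF
  set FW := ((W.map nm).filter (inC C)).toFinset with hFW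
  have mF : ∀ p, p ∈ F ↔ (p.1 < p.2 ∧ adj A p.1 p.2 = true) ∧ p.1 ∈ C ∧ p.2 ∈ C := fun p => by
    simp [hF, mem_edges G, inC]
  have e1 : F.card = ins (edges A) C := by
    rw [hF, List.toFinset_card_of_nodup ((edges_nodup A).filter _), ← List.countP_eq_length_filter]
    rfl
  have e2 : FW.card = ins W C := by
    rw [hFW, List.toFinset_card_of_nodup (H.wnd.filter _), ← List.countP_eq_length_filter,
      ← ins_map_nm]
    rfl
  have s1 : FW ⊆ F := fun p hp => by
    obtain ⟨a, b⟩ := List.mem_filter.1 (List.mem_toFinset.1 hp)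
    obtain ⟨q, hq, rfl⟩ := List.mem_map.1 a
    exact List.mem_toFinset.2 (List.mem_filter.2 ⟨nm_mem_edges G (H.wadj q hq), b⟩)
  have m1 : ∀ p ∈ F, cl K p.1 p.2 ∈ T := fun p hp => by
    obtain ⟨a, b, c⟩ := (mF p).1 hp
    exact t2 _ b _ c a.2
  have f1 := Finset.card_eq_sum_card_fiberwise (f := fun p : ℕ × ℕ => cl K p.1 p.2) m1
  have f2 := Finset.card_eq_sum_card_fiberwise (f := fun p : ℕ × ℕ => cl K p.1 p.2)
    fun p hp => m1 p (s1 hp)
  have f3 : ∑ k ∈ T, 2 * (F.filter fun p => cl K p.1 p.2 = k).card ≤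
      ∑ k ∈ T, (2 + (FW.filter fun p => cl K p.1 p.2 = k).card) := by
    refine Finset.sum_le_sum fun k _ => ?_
    by_cases h1 : (F.filter fun p => cl K p.1 p.2 = k).card ≤ 1
    · omega
    have h2 : (F.filter fun p => cl K p.1 p.2 = k).card ≤ 2 := by
      by_contra h2
      obtain ⟨p, hp, q, hq, r, hr, a, b, c⟩ := Finset.two_lt_card.1 (not_le.1 h2)
      rw [Finset.mem_filter, mF] at hp hq hr
      have := H.k3 p q r hp.1.1.2 hq.1.1.2 hr.1.1.2 (hp.2.trans hq.2.symm) (hp.2.trans hr.2.symm)
      rw [nm_of_lt hp.1.1.1, nm_of_lt hq.1.1.1, nm_of_lt hr.1.1.1] at this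
      tauto
    have h3 : (F.filter fun p => cl K p.1 p.2 = k) ⊆ FW.filter fun p => cl K p.1 p.2 = k := by
      intro p hp
      obtain ⟨q, hq, ne⟩ := Finset.exists_mem_ne (not_le.1 h1) p
      rw [Finset.mem_filter] at hp hq ⊢
      refine ⟨?_, hp.2⟩
      rw [mF] at hp hq
      have := H.k2 p q hp.1.1.2 hq.1.1.2 (hp.2.trans hq.2.symm)
      rw [nm_of_lt hp.1.1.1, nm_of_lt hq.1.1.1] at this
      refine List.mem_toFinset.2 (List.mem_filter.2 ⟨this.resolve_left ne.symm, ?_⟩)
      simp [inC, hp.1.2]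
    have := Finset.card_le_card h3
    omega
  rw [← Finset.mul_sum, Finset.sum_add_distrib, ← f1, ← f2] at f3
  simp only [Finset.sum_const, smul_eq_mul] at f3
  omega

theorem rev_nm (D : Arcs) : (rev D).map nm = D.map nm := by
  rw [rev, List.map_map]; exact List.map_congr_left fun p _ => nm_swap p

theorem outd_rev (D : Arcs) (v : ℕ) : outd (rev D) v = ind D v := by
  simp [outd, ind, rev, List.countP_map, Function.comp_def]

theorem ind_rev (D : Arcs) (v : ℕ) : ind (rev D) v = outd D v := by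
  simp [outd, ind, rev, List.countP_map, Function.comp_def]

theorem ends_map_nm (L : Arcs) (S : Finset ℕ) : ends (L.map nm) S = ends L S := by
  induction L with
  | nil => rfl
  | cons p L ih =>
    simp only [ends, List.map_cons, List.countP_cons, decide_eq_true_eq, nm] at ih ⊢
    rcases le_total p.1 p.2 with a | a
    · simp only [min_eq_left a, max_eq_right a]; omega
    · simp only [min_eq_right a, max_eq_left a]; omega

theorem deg_nm {D D' : Arcs} (h : (D'.map nm).Perm (D.map nm)) (v : ℕ) :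
    outd D' v + ind D' v = outd D v + ind D v := by
  have a := sum_deg {v} D
  have b := sum_deg {v} D'
  rw [Finset.sum_singleton] at a b
  rw [a, b, ← ends_map_nm, ← ends_map_nm D, ends, ends, h.countP_eq, h.countP_eq]

theorem outd_append (L L' : Arcs) (v : ℕ) : outd (L ++ L') v = outd L v + outd L' v :=
  List.countP_append

theorem ind_append (L L' : Arcs) (v : ℕ) : ind (L ++ L') v = ind L v + ind L' v :=
  List.countP_append

structure XOk (A : Mat) (W D : Arcs) : Prop where
  adj : ∀ p ∈ D, adj A p.1 p.2 = true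
  nd : (D.map nm).Nodup
  sp : Sparse D
  out : ∀ v, outd D v ≤ 2
  sup : ∀ e ∈ W.map nm, e ∈ D.map nm
  len : ∀ v, (nX A D v).length ≤ 4

theorem dX_spec (G : Gr A) (H : Pre A W K) : XOk A W (dX A W) := by
  have p0 := perm_rest G H.wadj H.wnd
  obtain ⟨b1, b2, b3, ⟨U', b4, b5⟩, b6⟩ := base_spec (n := A.length) (W := W) (rst A W)
    (fun p hp => by
      have : adj A p.1 p.2 = true := by
        rcases List.mem_append.1 hp with a | a
        · exact ((mem_edges G).1 (List.mem_filter.1 a).1).2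
        · exact H.wadj p a
      exact ⟨(G.rng _ _ this).1, (G.rng _ _ this).2, G.ne this⟩)
    (p0.nodup_iff.2 (edges_nodup A)) H.wsp H.wout
  have eB : base A.length W (rst A W) = bas A W := rfl
  rw [eB] at b1 b2 b3 b5 b6
  unfold dX
  set B := bas A W
  have s1 : ((U' ++ W).map nm).Sublist ((rst A W ++ W).map nm) := (b4.append_right W).map nm
  have nB : (B.map nm).Nodup := b5.nodup_iff.2 ((p0.nodup_iff.2 (edges_nodup A)).sublist s1)
  have aB : ∀ p ∈ B, adj A p.1 p.2 = true := fun p hp =>
    adj_of_nm G (nm_of_lt ((mem_edges G).1 (p0.subset (s1.subset (b5.subset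
      (List.mem_map_of_mem hp))))).1).symm
      ((mem_edges G).1 (p0.subset (s1.subset (b5.subset (List.mem_map_of_mem hp))))).2
  have sB : ∀ e ∈ W.map nm, e ∈ B.map nm := fun e he =>
    b5.symm.subset (by rw [List.map_append]; exact List.mem_append_right _ he)
  have p1 := perm_rest G aB nB
  set R := rst A B with hR
  have aR : ∀ p ∈ R, adj A p.1 p.2 = true := fun p hp =>
    ((mem_edges G).1 (List.mem_filter.1 hp).1).2
  have dg : ∀ v, outd R v + ind R v + (outd B v + ind B v) ≤ 6 := fun v => by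
    have := deg_le (L := R ++ B) (p1.nodup_iff.2 (edges_nodup A))
      (fun p hp => G.ne ((List.mem_append.1 hp).elim (aR p) (aB p))) v
      ((List.range A.length).filter (adj A v)) fun p hp => by
        have a := (List.mem_append.1 hp).elim (aR p) (aB p)
        constructor
        · rintro rfl; simp [a, (G.rng _ _ a).2]
        · rintro rfl; simp [G.symm p.2, a, (G.rng _ _ a).1]
    rw [outd_append, ind_append] at this
    have := G.deg v
    omega
  have hall : ∀ S : Finset ℕ, ins B S + ends R S ≤ 4 * S.card := fun S => by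
    have e6 : ∀ T : Finset ℕ, ends B T + ends R T ≤ 6 * T.card := fun T => by
      rw [← sum_deg, ← sum_deg, ← Finset.sum_add_distrib, mul_comm, ← smul_eq_mul,
        ← Finset.sum_const]
      exact Finset.sum_le_sum fun v _ => by have := dg v; omega
    have := hall_aux S R.length B R le_rfl (fun p hp => G.ne (aB p hp)) (fun p hp => G.ne (aR p hp))
      b2 (fun e he => by
        obtain ⟨e1, e2⟩ := List.mem_filter.1 he
        simp only [decide_eq_true_eq] at e2
        refine (b6 e (List.mem_filter.2 ⟨e1, ?_⟩)).resolve_left ?_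
        · simpa using fun h => e2 (sB e h)
        · rwa [nm_of_lt ((mem_edges G).1 e1).1]) e6
      (fun C hC => by
        have a := edge_count G H C hC
        have b : ins (edges A) C = ins R C + ins B C := by
          rw [← ins_append, ← ins_map_nm (R ++ B)]
          exact p1.symm.countP_eq _
        omega)
    have := e6 S
    omega
  have d4 : ∀ v, outd R v + ind R v ≤ 4 := fun v => by
    have a := hall {v}
    rw [← sum_deg, Finset.sum_singleton, Finset.card_singleton] at a
    omega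
  obtain ⟨r1, r2, -, r4, r5⟩ := red_spec (n := A.length) (D := rev B)
    ((List.range A.length).map fun v => 4 - (outd R v + ind R v)) (by rwa [rev_nm])
    (fun p hp => by
      obtain ⟨q, hq, rfl⟩ := List.mem_map.1 hp
      exact ⟨(b1 q hq).2.1, (b1 q hq).1, (b1 q hq).2.2.symm⟩)
  unfold fin4
  rw [← hR]
  set E := red A.length ((List.range A.length).map fun v => 4 - (outd R v + ind R v)) (rev B)
  have r6 : ((rev E).map nm).Perm (B.map nm) := by rw [rev_nm, ← rev_nm B]; exact r1
  have r7 : ∀ v < A.length, outd E v + (outd R v + ind R v) ≤ 4 := by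
    rcases r5 with a | ⟨S, a, b⟩
    · intro v hv
      have c := a v
      rw [cap_map _ hv] at c
      have := d4 v
      omega
    · exfalso
      have c := hall S
      have d : ∑ v ∈ S, cap ((List.range A.length).map fun v => 4 - (outd R v + ind R v)) v +
          ∑ v ∈ S, (outd R v + ind R v) = 4 * S.card := by
        rw [← Finset.sum_add_distrib, mul_comm, ← smul_eq_mul, ← Finset.sum_const]
        refine Finset.sum_congr rfl fun v hv => ?_
        rw [cap_map _ (Finset.mem_range.1 (a hv))]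
        have := d4 v
        omega
      rw [sum_deg] at d
      rw [ins_nm (D := B) (by rw [rev_nm])] at b
      omega
  have aE : ∀ p ∈ rev E, adj A p.1 p.2 = true := fun p hp => by
    obtain ⟨q, hq, e⟩ := List.mem_map.1 (r6.subset (List.mem_map_of_mem hp))
    exact adj_of_nm G e.symm (aB q hq)
  refine ⟨aE, r6.nodup_iff.2 nB, fun S hS => by rw [ins_nm r6]; exact b2 S hS, fun v => ?_,
    fun e he => r6.symm.subset (sB e he), fun v => ?_⟩
  · by_cases hv : v < A.length
    · have a := r4 v
      rw [cap_map _ hv, outd_rev] at a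
      have b := deg_nm r6 v
      rw [outd_rev, ind_rev] at b
      have c := dg v
      have d := b3 v
      have e := d4 v
      rw [outd_rev]
      omega
    · have : outd (rev E) v = 0 := List.countP_eq_zero.2 fun p hp => by
        have := (G.rng _ _ (aE p hp)).1
        simp only [decide_eq_true_eq]; omega
      omega
  · by_cases hv : v < A.length
    swap
    · have : nX A (rev E) v = [] := List.filter_eq_nil_iff.2 fun u _ h => by
        simp only [Bool.and_eq_true] at h
        exact hv (G.rng _ _ h.1).1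
      simp [this]
    have a := r7 v hv
    refine le_trans ?_ a
    rw [outd, outd, ind, List.countP_eq_length_filter, List.countP_eq_length_filter,
      List.countP_eq_length_filter, ← List.length_append, ← List.length_append,
      ← List.length_map nm, ← List.length_map fun u => nm (v, u)]
    refine (List.subperm_of_subset ?_ fun x hx => ?_).length_le
    · refine List.Nodup.map_on (fun x _ y _ e => ?_) (List.nodup_range.filter _)
      simp only [nm, Prod.mk.injEq] at e
      omega
    · obtain ⟨u, hu, rfl⟩ := List.mem_map.1 hx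
      have hu := (List.mem_filter.1 hu).2
      simp only [Bool.and_eq_true, decide_eq_true_eq] at hu
      have m := p1.symm.subset (nm_mem_edges G (p := (v, u)) hu.1)
      rw [List.map_append, List.mem_append] at m
      rcases m with m | m
      · obtain ⟨q, hq, e⟩ := List.mem_map.1 m
        refine List.mem_map.2 ⟨q, List.mem_append_right _ ?_, e⟩
        rcases nm_eq e with rfl | rfl
        · exact List.mem_append_left _ (List.mem_filter.2 ⟨hq, by simp⟩)
        · exact List.mem_append_right _ (List.mem_filter.2 ⟨hq, by simp⟩)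
      · obtain ⟨q, hq, e⟩ := List.mem_map.1 (r6.symm.subset m)
        rcases nm_eq e with rfl | rfl
        · exact (hu.2 hq).elim
        · obtain ⟨q', hq', e'⟩ := List.mem_map.1 hq
          refine List.mem_map.2 ⟨q', List.mem_append_left _ (List.mem_filter.2 ⟨hq', ?_⟩), ?_⟩
          · simp only [Prod.swap_prod_mk, Prod.mk.injEq] at e'
            simp [e'.2]
          · rw [← e, ← e']; exact (nm_swap q').symm

theorem length_le_two {β : Type} {l : List β} (hn : l.Nodup)
    (h : ∀ a ∈ l, ∀ b ∈ l, ∀ c ∈ l, a = b ∨ a = c ∨ b = c) : l.length ≤ 2 := by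
  rcases l with _ | ⟨a, _ | ⟨b, _ | ⟨c, l⟩⟩⟩
  · simp
  · simp
  · simp
  · exfalso
    have := h a (by simp) b (by simp) c (by simp)
    simp only [List.nodup_cons, List.mem_cons, not_or] at hn
    tauto

variable {D : Arcs}

theorem mem_nX {v u : ℕ} : u ∈ nX A D v ↔ u < A.length ∧ adj A v u = true ∧ (v, u) ∉ D := by
  simp [nX]

theorem mem_itms {e : ItK} :
    e ∈ itms A K D ↔ ∃ v < A.length, ∃ u ∈ nX A D v, itm A K D v u = e := by
  simp [itms]

theorem itm_inj {v u v' u' : ℕ} (h : itm A K D v u = itm A K D v' u') : v = v' ∧ u = u' := by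
  simp only [itm, Prod.mk.injEq] at h
  exact ⟨h.1.2.1, h.2⟩

theorem itms_nodup : (itms A K D).Nodup := by
  refine List.nodup_flatMap.2 ⟨fun v _ => List.Nodup.map_on (fun x _ y _ e => (itm_inj e).2)
    (List.nodup_range.filter _), ?_⟩
  refine List.nodup_range.imp fun {a b} hab => ?_
  intro e h1 h2
  obtain ⟨x, -, rfl⟩ := List.mem_map.1 h1
  obtain ⟨y, -, e⟩ := List.mem_map.1 h2
  exact hab (itm_inj e).1.symm

theorem anti (G : Gr A) (X : XOk A W D) {u v : ℕ} (h : (u, v) ∈ D) : (v, u) ∉ D := fun h' => by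
  have := List.inj_on_of_nodup_map X.nd h h' (nm_swap (v, u))
  exact G.ne (X.adj _ h) (congrArg Prod.fst this)

theorem left_deg (H : Pre A W K) (X : XOk A W D) (x : ℕ × Bool) :
    ((itms A K D).filter fun p => decide (p.1.1 = x)).length ≤ 2 := by
  have two : ∀ p q : ℕ × ℕ, p ∉ D → q ∉ D → nm p = nm q → nm p ∈ W.map nm → p = q := by
    intro p q hp hq e hw
    obtain ⟨r, hr, e'⟩ := List.mem_map.1 (X.sup _ hw)
    rcases nm_eq e' with rfl | rfl
    · exact (hp hr).elim
    · rcases nm_eq e with rfl | rfl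
      · rfl
      · exact (hq hr).elim
  have three : ∀ p q r : ℕ × ℕ, p ∉ D → q ∉ D → adj A p.1 p.2 = true → adj A r.1 r.2 = true →
      cl K p.1 p.2 = cl K r.1 r.2 → nm p = nm q → p = q ∨ p = r ∨ q = r := by
    intro p q r hp hq a1 a2 c e
    rcases H.k2 p r a1 a2 c with h | h
    · rcases nm_eq e with rfl | rfl
      · exact .inl rfl
      · rcases nm_eq h with h | h
        · exact .inr (.inl h)
        · exact .inr (.inr (Prod.swap_injective h))
    · exact .inl (two p q hp hq e h)
  refine length_le_two (itms_nodup.filter _) fun a ha b hb c hc => ?_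
  obtain ⟨a1, a2⟩ := List.mem_filter.1 ha
  obtain ⟨b1, b2⟩ := List.mem_filter.1 hb
  obtain ⟨c1, c2⟩ := List.mem_filter.1 hc
  obtain ⟨v1, -, u1, h1, rfl⟩ := mem_itms.1 a1
  obtain ⟨v2, -, u2, h2, rfl⟩ := mem_itms.1 b1
  obtain ⟨v3, -, u3, h3, rfl⟩ := mem_itms.1 c1
  simp only [decide_eq_true_eq] at a2 b2 c2
  simp only [itm] at a2 b2 c2
  rw [mem_nX] at h1 h2 h3
  have key : (v1, u1) = (v2, u2) ∨ (v1, u1) = (v3, u3) ∨ (v2, u2) = (v3, u3) := by
    rcases H.k3 (v1, u1) (v2, u2) (v3, u3) h1.2.1 h2.2.1 h3.2.1 (a2.trans b2.symm)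
      (a2.trans c2.symm) with e | e | e
    · exact three _ _ _ h1.2.2 h2.2.2 h1.2.1 h3.2.1 (a2.trans c2.symm) e
    · have := three _ _ (v2, u2) h1.2.2 h3.2.2 h1.2.1 h2.2.1 (a2.trans b2.symm) e
      tauto
    · have := three _ _ (v1, u1) h2.2.2 h3.2.2 h2.2.1 h1.2.1 (b2.trans a2.symm) e
      tauto
  rcases key with e | e | e <;> cases e <;> simp

theorem right_deg (X : XOk A W D) (y : ℕ × Bool) :
    ((itms A K D).filter fun p => decide (p.1.2 = y)).length ≤ 2 := by
  have : (if y.2 then (nX A D y.1).drop 2 else (nX A D y.1).take 2).length ≤ 2 := by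
    have := X.len y.1
    split_ifs
    · simp; omega
    · simp
  refine le_trans ?_ this
  rw [← List.length_map fun e : ItK => e.2]
  refine (List.subperm_of_subset ?_ fun x hx => ?_).length_le
  · refine List.Nodup.map_on (fun a ha b hb e => ?_) (itms_nodup.filter _)
    obtain ⟨a1, a2⟩ := List.mem_filter.1 ha
    obtain ⟨b1, b2⟩ := List.mem_filter.1 hb
    obtain ⟨v1, -, u1, h1, rfl⟩ := mem_itms.1 a1
    obtain ⟨v2, -, u2, h2, rfl⟩ := mem_itms.1 b1
    simp only [decide_eq_true_eq] at a2 b2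
    simp only [itm] at a2 b2 e
    have := congrArg Prod.fst (a2.trans b2.symm)
    simp only at this
    rw [this, e]
  · obtain ⟨a, ha, rfl⟩ := List.mem_map.1 hx
    obtain ⟨a1, a2⟩ := List.mem_filter.1 ha
    obtain ⟨v1, -, u1, h1, rfl⟩ := mem_itms.1 a1
    simp only [decide_eq_true_eq] at a2
    simp only [itm] at a2 ⊢
    subst a2
    simp only [decide_eq_true_eq]
    split_ifs with h
    · exact h
    · rw [← List.take_append_drop 2 (nX A D v1), List.mem_append] at h1
      exact h1.resolve_right h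

theorem prt_cmat {v u : ℕ} (hv : v < A.length) (hu : u < A.length) :
    prt (cmat A K D) v u = colr A K D v u := by
  simp [prt, cmat, hv, hu]

theorem mem_arcsOf (G : Gr A) {i : Fin 3} {p : ℕ × ℕ} :
    p ∈ arcsOf A (cmat A K D) i ↔ adj A p.1 p.2 = true ∧ colr A K D p.1 p.2 = i := by
  simp only [arcsOf, List.mem_filter, mem_pairs, Bool.and_eq_true, decide_eq_true_eq]
  constructor
  · rintro ⟨a, b, c⟩
    exact ⟨b, by rwa [prt_cmat a.1 a.2] at c⟩
  · rintro ⟨b, c⟩
    exact ⟨G.rng _ _ b, b, by rwa [prt_cmat (G.rng _ _ b).1 (G.rng _ _ b).2]⟩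

theorem colr_spec (G : Gr A) (H : Pre A W K) (X : XOk A W D) :
    (∀ v u, adj A v u = true → (colr A K D v u = 2 ↔ (v, u) ∈ D)) ∧
    ∀ v u v' u', adj A v u = true → adj A v' u' = true → (v, u) ∉ D → (v', u') ∉ D →
      (cl K v u = cl K v' u' ∨ (v = v' ∧ (u ∈ (nX A D v).drop 2 ↔ u' ∈ (nX A D v).drop 2))) →
      colr A K D v u = colr A K D v' u' → v = v' ∧ u = u' := by
  obtain ⟨c1, c2⟩ := colOfK_spec (left_deg H X) (right_deg (K := K) X)
  have m : ∀ v u, adj A v u = true → (v, u) ∉ D → itm A K D v u ∈ itms A K D := fun v u a b =>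
    mem_itms.2 ⟨v, (G.rng _ _ a).1, u, mem_nX.2 ⟨(G.rng _ _ a).2, a, b⟩, rfl⟩
  refine ⟨fun v u a => ?_, fun v u v' u' a a' b b' h e => ?_⟩
  · unfold colr
    split_ifs with h
    · simp [h]
    · simpa [h] using c1 _ (m v u a h)
  · simp only [colr, b, b', if_false] at e
    refine itm_inj (c2 _ (m v u a b) _ (m v' u' a' b') (h.imp id ?_) e)
    rintro ⟨rfl, h'⟩
    simp [itm, h']

theorem arcs_ok (G : Gr A) (H : Pre A W K) (X : XOk A W D) (i : Fin 3) :
    Within A.length (arcsOf A (cmat A K D) i) ∧ (arcsOf A (cmat A K D) i).Nodup ∧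
    (∀ v, outd (arcsOf A (cmat A K D) i) v ≤ 2) ∧ Sparse (arcsOf A (cmat A K D) i) := by
  obtain ⟨c1, c2⟩ := colr_spec G H X
  have nd : (arcsOf A (cmat A K D) i).Nodup := (pairs_nodup _).filter _
  refine ⟨fun p hp => ?_, nd, ?_⟩
  · have a := ((mem_arcsOf G).1 hp).1
    exact ⟨(G.rng _ _ a).1, (G.rng _ _ a).2, G.ne a⟩
  by_cases hi : i = 2
  · subst hi
    have pm : (arcsOf A (cmat A K D) 2).Perm D :=
      (List.perm_ext_iff_of_nodup nd (X.nd.of_map _)).2 fun p => by
        rw [mem_arcsOf G]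
        exact ⟨fun h => (c1 _ _ h.1).1 h.2, fun h => ⟨X.adj p h, (c1 _ _ (X.adj p h)).2 h⟩⟩
    exact ⟨fun v => (pm.countP_eq _).trans_le (X.out v), fun S hS => by
      rw [ins, pm.countP_eq]; exact X.sp S hS⟩
  have nD : ∀ p ∈ arcsOf A (cmat A K D) i, (p.1, p.2) ∉ D := fun p hp h => by
    obtain ⟨a, b⟩ := (mem_arcsOf G).1 hp
    exact hi (b.symm.trans ((c1 _ _ a).2 h))
  constructor
  · intro v
    rw [outd, List.countP_eq_length_filter]
    refine length_le_two (nd.filter _) fun a ha b hb c hc => ?_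
    have key : ∀ p ∈ (arcsOf A (cmat A K D) i).filter (fun p => decide (p.1 = v)),
        ∀ q ∈ (arcsOf A (cmat A K D) i).filter (fun p => decide (p.1 = v)),
        (p.2 ∈ (nX A D v).drop 2 ↔ q.2 ∈ (nX A D v).drop 2) → p = q := by
      intro p hp q hq h
      obtain ⟨p1, p2⟩ := List.mem_filter.1 hp
      obtain ⟨q1, q2⟩ := List.mem_filter.1 hq
      simp only [decide_eq_true_eq] at p2 q2
      obtain ⟨a1, a2⟩ := (mem_arcsOf G).1 p1
      obtain ⟨b1, b2⟩ := (mem_arcsOf G).1 q1
      have := c2 _ _ _ _ a1 b1 (nD p p1) (nD q q1) (.inr ⟨p2.trans q2.symm, by rwa [p2]⟩)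
        (a2.trans b2.symm)
      exact Prod.ext this.1 this.2
    have k1 := key a ha b hb
    have k2 := key a ha c hc
    have k3 := key b hb c hc
    tauto
  · intro S hS
    obtain ⟨T, t1, t2⟩ := H.img S hS
    refine le_trans (Nat.add_le_add_right ?_ 3) t1
    rw [ins, List.countP_eq_length_filter, ← List.toFinset_card_of_nodup (nd.filter _)]
    refine Finset.card_le_card_of_injOn (fun p => cl K p.1 p.2) (fun p hp => ?_)
      fun p hp q hq e => ?_
    · obtain ⟨p1, p2⟩ := List.mem_filter.1 (List.mem_toFinset.1 hp)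
      simp only [decide_eq_true_eq] at p2
      exact t2 _ p2.1 _ p2.2 ((mem_arcsOf G).1 p1).1
    · have p1 := (List.mem_filter.1 (List.mem_toFinset.1 hp)).1
      have q1 := (List.mem_filter.1 (List.mem_toFinset.1 hq)).1
      obtain ⟨a1, a2⟩ := (mem_arcsOf G).1 p1
      obtain ⟨b1, b2⟩ := (mem_arcsOf G).1 q1
      have := c2 _ _ _ _ a1 b1 (nD p p1) (nD q q1) (.inl e) (a2.trans b2.symm)
      exact Prod.ext this.1 this.2

theorem crd_xmat (c : List (List (Fin 3))) (i : Fin 3) {v : ℕ} (hv : v < A.length) :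
    crdX (xmat A c) i v = ordPos A.length (arcsOf A c i) v := by
  fin_cases i <;> simp [crdX, xmat, line, hv]

theorem gp_core (G : Gr A) (H : Pre A W K) (X : XOk A W D) :
    GP A (xmat A (cmat A K D)) (cmat A K D) := by
  obtain ⟨c1, c2⟩ := colr_spec G H X
  have o := fun i => ordPos_spec (arcs_ok G H X i).1 (arcs_ok G H X i).2.1
    (arcs_ok G H X i).2.2.1 (arcs_ok G H X i).2.2.2
  refine ⟨G.symm, G.irr, G.rng, fun i v hv => ?_, fun i u hu v hv e => ?_, fun u v a e => ?_,
    fun u v v' a a' ne e => ?_⟩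
  · rw [crd_xmat _ _ hv]; exact (o i).1 v hv
  · rw [crd_xmat _ _ hv, crd_xmat _ _ hu] at e; exact (o i).2.1 u hu v hv e
  · have r := G.rng _ _ a
    have a' : adj A v u = true := by rw [G.symm]; exact a
    rw [prt_cmat r.1 r.2, prt_cmat r.2 r.1] at e
    by_cases h1 : (u, v) ∈ D
    · exact anti G X h1 ((c1 _ _ a').1 (e.symm.trans ((c1 _ _ a).2 h1)))
    · by_cases h2 : (v, u) ∈ D
      · exact h1 ((c1 _ _ a).1 (e.trans ((c1 _ _ a').2 h2)))
      · exact G.ne a (c2 _ _ _ _ a a' h1 h2 (.inl (H.ksymm _ _ a)) e).1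
  · have r := G.rng _ _ a
    have r' := G.rng _ _ a'
    rw [crd_xmat _ _ r.1, crd_xmat _ _ r.2, crd_xmat _ _ r'.2]
    refine (o _).2.2 u v v' ((mem_arcsOf G).2 ⟨a, (prt_cmat r.1 r.2).symm⟩)
      ((mem_arcsOf G).2 ⟨a', ?_⟩) ne
    rw [e, prt_cmat r.1 r'.2]

theorem core_correct (G : Gr A) (H : Pre A W K) {n : ℕ} (hn : A.length = n)
    (Γ : SimpleGraph (Fin n)) (hG : ∀ u v : Fin n, Γ.Adj u v ↔ adj A u v = true) :
    IsDrawing Γ (fun u => pt ((core A W K).1.getD u 0))
      (fun u v => pt (((core A W K).2.getD u []).getD v 0)) :=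
  finish_correct (gp_core G H (dX_spec G H)) hn Γ hG

section
variable {α : Type} [Enc α] {A : α → Mat} {W D : α → Arcs} {K : α → Cls} {u v : α → ℕ}

@[fun_prop] theorem pt_cl (hK : PT K) (hu : PT u) (hv : PT v) :
    PT fun x => cl (K x) (u x) (v x) := by
  unfold cl; fun_prop

@[fun_prop] theorem pt_pairs (hu : PT u) : PT fun x => pairs (u x) := by
  unfold pairs; fun_prop

@[fun_prop] theorem pt_edges (hA : PT A) : PT fun x => edges (A x) := by
  unfold edges; fun_prop

@[fun_prop] theorem pt_rst (hA : PT A) (hD : PT D) : PT fun x => rst (A x) (D x) := by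
  unfold rst; fun_prop

@[fun_prop] theorem pt_rev (hD : PT D) : PT fun x => rev (D x) := by
  unfold rev; fun_prop

@[fun_prop] theorem pt_fin4 (hA : PT A) (hD : PT D) : PT fun x => fin4 (A x) (D x) := by
  unfold fin4; fun_prop

@[fun_prop] theorem pt_dX (hA : PT A) (hW : PT W) : PT fun x => dX (A x) (W x) := by
  unfold dX bas; fun_prop

@[fun_prop] theorem pt_nX (hA : PT A) (hD : PT D) (hv : PT v) :
    PT fun x => nX (A x) (D x) (v x) := by
  unfold nX; fun_prop

@[fun_prop] theorem pt_itm (hA : PT A) (hK : PT K) (hD : PT D) (hv : PT v) (hu : PT u) :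
    PT fun x => itm (A x) (K x) (D x) (v x) (u x) := by
  unfold itm; fun_prop

@[fun_prop] theorem pt_itms (hA : PT A) (hK : PT K) (hD : PT D) :
    PT fun x => itms (A x) (K x) (D x) := by
  unfold itms; fun_prop

@[fun_prop] theorem pt_cmat (hA : PT A) (hK : PT K) (hD : PT D) :
    PT fun x => cmat (A x) (K x) (D x) := by
  unfold cmat colr; fun_prop

@[fun_prop] theorem pt_xmat {c : α → List (List (Fin 3))} (hA : PT A) (hc : PT c) :
    PT fun x => xmat (A x) (c x) := by
  unfold xmat line arcsOf; fun_prop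

@[fun_prop] theorem pt_core (hA : PT A) (hW : PT W) (hK : PT K) :
    PT fun x => core (A x) (W x) (K x) := by
  unfold core; fun_prop

end

end Pool.Agent.Lib.MP_6b7ffe_lc
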