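import Mathlib

set_option autoImplicit false

namespace Pool.Agent.Lib.MP_6b7ffe_lc

/-- the grid point with the given integer coordinates -/
def pt (p : ℤ × ℤ × ℤ) : Fin 3 → ℝ := ![p.1, p.2.1, p.2.2]

/-- the segment from `p` to `q` is parallel to the coordinate axis `i` -/
def Along (i : Fin 3) (p q : Fin 3 → ℝ) : Prop := ∀ j, j ≠ i → p j = q j

/-- the polygonal chain `P u, B u v, B v u, P v` -/
def chain {V : Type} (P : V → Fin 3 → ℝ) (B : V → V → Fin 3 → ℝ) (u v : V) : Set (Fin 3 → ℝ) :=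
  segment ℝ (P u) (B u v) ∪ segment ℝ (B u v) (B v u) ∪ segment ℝ (B v u) (P v)

/-- vertex `u` sits at `P u`, edge `uv` has the two bends `B u v` and `B v u` -/
def IsDrawing {V : Type} (G : SimpleGraph V) (P : V → Fin 3 → ℝ) (B : V → V → Fin 3 → ℝ) : Prop :=
  Function.Injective P ∧
  (∀ u v, G.Adj u v → ∃ i j k : Fin 3, i ≠ j ∧ i ≠ k ∧ j ≠ k ∧
    Along i (P u) (B u v) ∧ Along j (B u v) (B v u) ∧ Along k (B v u) (P v)) ∧
  (∀ u v w, G.Adj u v → P w ∈ chain P B u v → w = u ∨ w = v) ∧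
  (∀ u v u' v', G.Adj u v → G.Adj u' v' → s(u, v) ≠ s(u', v') →
    ∀ x ∈ chain P B u v ∩ chain P B u' v', ∃ w, (w = u ∨ w = v) ∧ (w = u' ∨ w = v') ∧ x = P w)

end Pool.Agent.Lib.MP_6b7ffe_lc
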