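import Pool.Agent.Lib.MP_6b7ffe_lc.Base

set_option autoImplicit false

namespace Pool.Agent.Lib.MP_6b7ffe_lc

namespace K4

variable {V : Type} (G : SimpleGraph V) (T : Finset V)

structure IsP (k : ℕ) (y : ℕ → V) : Prop where
  inj : ∀ s t, s ≤ k → t ≤ k → y s = y t → s = t
  adj : ∀ s, s < k → G.Adj (y s) (y (s + 1))
  mem : ∀ s, s ≤ k → y s ∈ T

variable {G T}

lemma IsP.lt [Fintype V] {k : ℕ} {y : ℕ → V} (h : IsP G T k y) : k < Fintype.card V := by
  have := Fintype.card_le_of_injective (fun s : Fin (k + 1) => y s) fun s t e =>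
    Fin.ext (h.inj _ _ (by omega) (by omega) e)
  simpa using this

lemma IsP.conn {k a b : ℕ} {y : ℕ → V} (h : IsP G T k y) (hab : a ≤ b) (hb : b ≤ k) :
    (G.induce (y '' Set.Icc a b)).Connected := by
  have key : ∀ s, (h1 : a ≤ s) → (h2 : s ≤ b) → (G.induce (y '' Set.Icc a b)).Reachable
      ⟨y a, a, ⟨le_rfl, hab⟩, rfl⟩ ⟨y s, s, ⟨h1, h2⟩, rfl⟩ := by
    intro s h1
    induction s, h1 using Nat.le_induction with
    | base => exact fun _ => SimpleGraph.Reachable.refl _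
    | succ s hs ih =>
      intro h2
      exact (ih (by omega)).trans (SimpleGraph.Adj.reachable (h.adj s (by omega)))
  rw [SimpleGraph.connected_iff_exists_forall_reachable]
  refine ⟨⟨y a, a, ⟨le_rfl, hab⟩, rfl⟩, ?_⟩
  rintro ⟨_, s, ⟨h1, h2⟩, rfl⟩
  exact key s h1 h2

lemma IsP.on {k : ℕ} {y : ℕ → V} (h : IsP G T k y) (hm : ¬∃ z, IsP G T (k + 1) z) {v : V}
    (hv : v ∈ T) (ha : G.Adj (y 0) v) : ∃ s, 1 ≤ s ∧ s ≤ k ∧ y s = v := by
  by_contra hc
  push Not at hc
  have h0 : ∀ s, s ≤ k → y s ≠ v := fun s hs => by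
    rcases Nat.eq_zero_or_pos s with rfl | h1
    · exact ha.ne
    · exact hc s h1 hs
  refine hm ⟨fun s => Nat.casesOn s v y, ?_, ?_, ?_⟩
  · rintro (_ | s) (_ | t) hs ht e
    · rfl
    · exact absurd e.symm (h0 t (by omega))
    · exact absurd e (h0 s (by omega))
    · rw [h.inj s t (by omega) (by omega) e]
  · rintro (_ | s) hs
    · exact ha.symm
    · exact h.adj s (by omega)
  · rintro (_ | s) hs
    · exact hv
    · exact h.mem s (by omega)

lemma IsP.third [DecidableEq V] [DecidableRel G.Adj] {k : ℕ} {y : ℕ → V} (h : IsP G T k y)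
    (hm : ¬∃ z, IsP G T (k + 1) z) (hd : ∀ v ∈ T, 3 ≤ (T.filter (G.Adj v)).card) (i : ℕ) :
    ∃ l, 2 ≤ l ∧ l ≤ k ∧ l ≠ i ∧ G.Adj (y 0) (y l) := by
  obtain ⟨v, hv, hn⟩ := Finset.exists_mem_notMem_of_card_lt_card
    (s := ({y 1, y i} : Finset V)) (t := T.filter (G.Adj (y 0)))
    (lt_of_le_of_lt Finset.card_le_two (hd _ (h.mem 0 (Nat.zero_le _))))
  rw [Finset.mem_filter] at hv
  obtain ⟨s, h1, h2, rfl⟩ := h.on hm hv.1 hv.2
  simp only [Finset.mem_insert, Finset.mem_singleton, not_or] at hn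
  have h3 : s ≠ 1 := fun e => hn.1 (by rw [e])
  exact ⟨s, by omega, h2, fun e => hn.2 (by rw [e]), hv.2⟩

lemma IsP.rot {k i : ℕ} {y : ℕ → V} (h : IsP G T k y) (hi : i ≤ k) (ha : G.Adj (y 0) (y i)) :
    IsP G T k fun s => if s < i then y (i - 1 - s) else y s := by
  refine ⟨fun s t hs ht e => ?_, fun s hs => ?_, fun s hs => ?_⟩
  · split_ifs at e <;> have := h.inj _ _ (by omega) (by omega) e <;> omega
  · split_ifs with h1 h2 h2
    · have := (h.adj (i - 1 - (s + 1)) (by omega)).symm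
      rwa [show i - 1 - (s + 1) + 1 = i - 1 - s by omega] at this
    · rwa [show i - 1 - s = 0 by omega, show s + 1 = i by omega]
    · omega
    · exact h.adj s hs
  · split_ifs <;> exact h.mem _ (by omega)

end K4

open K4 in
theorem dirac_k4 {V : Type} [Fintype V] [DecidableEq V] (G : SimpleGraph V) [DecidableRel G.Adj]
    (T : Finset V) (hT : T.Nonempty) (h : ∀ v ∈ T, 3 ≤ (T.filter (G.Adj v)).card) :
    CliqueMinorIn G 4 (T : Set V) := by
  classical
  obtain ⟨k, ⟨y0, hy0⟩, hm⟩ : ∃ k, (∃ y, IsP G T k y) ∧ ¬∃ y, IsP G T (k + 1) y := by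
    by_contra hc
    push Not at hc
    have : ∀ k, ∃ y, IsP G T k y := fun k => by
      induction k with
      | zero =>
        obtain ⟨v, hv⟩ := hT
        exact ⟨fun _ => v, fun s t _ _ _ => by omega, fun s _ => by omega, fun _ _ => hv⟩
      | succ k ih => exact hc k ih
    obtain ⟨y, hy⟩ := this (Fintype.card V)
    exact absurd hy.lt (lt_irrefl _)
  have hex : ∃ i, ∃ y j, IsP G T k y ∧ 2 ≤ i ∧ i < j ∧ j ≤ k ∧ G.Adj (y 0) (y i) ∧
      G.Adj (y 0) (y j) := by
    obtain ⟨a, a1, a2, -, a3⟩ := hy0.third hm h 0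
    obtain ⟨b, b1, b2, b4, b3⟩ := hy0.third hm h a
    rcases lt_or_gt_of_ne b4 with h1 | h1
    · exact ⟨b, y0, a, hy0, b1, h1, a2, b3, a3⟩
    · exact ⟨a, y0, b, hy0, a1, h1, b2, a3, b3⟩
  obtain ⟨y, j, hy, h2, hij, hj, ai, aj⟩ := Nat.find_spec hex
  have hmin := fun l => Nat.find_min hex (m := l)
  generalize Nat.find hex = i at *
  have hr := hy.rot (by omega) ai
  obtain ⟨l, l1, l2, l3, l4⟩ := hr.third hm h i
  have e1 := hy.adj (i - 1) (by omega)
  rw [show i - 1 + 1 = i by omega] at e1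
  have hl : i < l := by
    by_contra hc
    refine hmin l (by omega) ⟨_, i, hr, l1, by omega, by omega, l4, ?_⟩
    simp only [if_pos (show 0 < i by omega), lt_irrefl, if_false]
    exact e1
  simp only [if_pos (show 0 < i by omega), if_neg (show ¬l < i by omega), Nat.sub_zero] at l4
  obtain ⟨m, m1, m2, m3⟩ : ∃ m, i < m ∧ m ≤ j ∧ m ≤ l := ⟨min j l, by omega, by omega, by omega⟩
  have e0 := hy.adj (i - 2) (by omega)
  rw [show i - 2 + 1 = i - 1 by omega] at e0
  have e2 := hy.adj (m - 1) (by omega)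
  rw [show m - 1 + 1 = m by omega] at e2
  have hle : ∀ a : Fin 4, ![0, i - 1, i, m] a ≤ ![i - 2, i - 1, m - 1, k] a ∧
      ![i - 2, i - 1, m - 1, k] a ≤ k := by
    intro a; fin_cases a <;> simp <;> omega
  have hadj : ∀ a b c d s t, G.Adj (y s) (y t) → a ≤ s → s ≤ b → c ≤ t → t ≤ d →
      ∃ u ∈ y '' Set.Icc a b, ∃ v ∈ y '' Set.Icc c d, G.Adj u v :=
    fun a b c d s t e h1 h2 h3 h4 => ⟨_, ⟨s, ⟨h1, h2⟩, rfl⟩, _, ⟨t, ⟨h3, h4⟩, rfl⟩, e⟩
  refine ⟨fun a => y '' Set.Icc (![0, i - 1, i, m] a) (![i - 2, i - 1, m - 1, k] a), ?_, ?_, ?_, ?_⟩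
  · rintro a _ ⟨s, hs, rfl⟩
    exact hy.mem s (hs.2.trans (hle a).2)
  · exact fun a => hy.conn (hle a).1 (hle a).2
  · intro a b hab
    rw [Set.disjoint_left]
    rintro _ ⟨s, hs, rfl⟩ ⟨t, ht, e⟩
    obtain rfl := hy.inj _ _ (ht.2.trans (hle b).2) (hs.2.trans (hle a).2) e
    fin_cases a <;> fin_cases b <;> simp at hab hs ht <;> omega
  · intro a b hab
    fin_cases a <;> fin_cases b <;> simp only [Fin.zero_eta, Fin.mk_one, Fin.reduceFinMk,
      Matrix.cons_val, ne_eq, not_true_eq_false] at hab ⊢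
    exacts [hadj _ _ _ _ _ _ e0 (by omega) (by omega) (by omega) (by omega),
      hadj _ _ _ _ _ _ ai (by omega) (by omega) (by omega) (by omega),
      hadj _ _ _ _ _ _ aj (by omega) (by omega) (by omega) (by omega),
      hadj _ _ _ _ _ _ e0.symm (by omega) (by omega) (by omega) (by omega),
      hadj _ _ _ _ _ _ e1 (by omega) (by omega) (by omega) (by omega),
      hadj _ _ _ _ _ _ l4 (by omega) (by omega) (by omega) (by omega),
      hadj _ _ _ _ _ _ ai.symm (by omega) (by omega) (by omega) (by omega),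
      hadj _ _ _ _ _ _ e1.symm (by omega) (by omega) (by omega) (by omega),
      hadj _ _ _ _ _ _ e2 (by omega) (by omega) (by omega) (by omega),
      hadj _ _ _ _ _ _ aj.symm (by omega) (by omega) (by omega) (by omega),
      hadj _ _ _ _ _ _ l4.symm (by omega) (by omega) (by omega) (by omega),
      hadj _ _ _ _ _ _ e2.symm (by omega) (by omega) (by omega) (by omega)]

end Pool.Agent.Lib.MP_6b7ffe_lc
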