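import Pool.Agent.Lib.MP_6b7ffe_lc.Classes
import Pool.Agent.Lib.MP_6b7ffe_lc.K4

set_option autoImplicit false

namespace Pool.Agent.Lib.MP_6b7ffe_lc

open Function Pool.Agent.Lib.Complexity

def todo (A : Mat) (s : Els) : List ℕ :=
  (List.range A.length).filter fun v => decide (v ∉ s.map fun p => p.1)

def bdy (A : Mat) (s : Els) (z : ℕ) : Bool := decide (∃ p ∈ s, p.2.1 = true ∧ adj A z p.1 = true)

def pk1 (A : Mat) (s : Els) : Option ℕ := (todo A s).find? fun w =>
  bdy A s w && decide (((todo A s).filter fun z => adj A w z && bdy A s z).length ≤ 2)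

def pk2 (A : Mat) (s : Els) : Option ℕ := (todo A s).find? fun w =>
  decide (((todo A s).filter fun z => adj A w z).length ≤ 3)

def estep (A : Mat) (s : Els) : Els :=
  (pk1 A s).elim ((pk2 A s).elim
    (((todo A s).head?).elim s fun w => (w, true, s.length) :: s)
    fun w => (w, false, s.length) :: s) fun w => (w, true, s.length) :: s

def eseq (A : Mat) : Els := (estep A)^[A.length] []

def drawK (A : Mat) : List (ℤ × ℤ × ℤ) × List (List (ℤ × ℤ × ℤ)) :=
  core A (wArcs A (eseq A)) (clsM A (eseq A))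

variable {A : Mat} {s : Els}

theorem mem_todo {v : ℕ} : v ∈ todo A s ↔ v < A.length ∧ v ∉ s.map fun p => p.1 := by
  simp only [todo, List.mem_filter, List.mem_range, decide_eq_true_eq]

structure EInv (A : Mat) (s : Els) : Prop where
  nd : (s.map fun p => p.1).Nodup
  lt : ∀ p ∈ s, p.1 < A.length ∧ p.2.2 < s.length
  inj : ∀ p ∈ s, ∀ q ∈ s, p.2.2 = q.2.2 → p = q
  mg : ∀ q ∈ s, q.2.1 = true → ((List.range A.length).filter fun z => adj A q.1 z &&
    decide ((∀ p ∈ s, p.1 = z → q.2.2 < p.2.2) ∧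
      ∃ p ∈ s, p.2.1 = true ∧ adj A z p.1 = true ∧ p.2.2 < q.2.2)).length ≤ 2
  dl : ∀ q ∈ s, q.2.1 = false → ((List.range A.length).filter fun z => adj A q.1 z &&
    decide (∀ p ∈ s, p.1 = z → q.2.2 < p.2.2)).length ≤ 3 ∧
    ∀ p ∈ s, p.2.1 = true → p.2.2 < q.2.2 → adj A q.1 p.1 = false

theorem filter_len_le {l : List ℕ} {P Q : ℕ → Bool} (h : ∀ z ∈ l, P z = true → Q z = true) :
    (l.filter P).length ≤ (l.filter Q).length := by
  rw [← List.countP_eq_length_filter, ← List.countP_eq_length_filter]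
  exact List.countP_mono_left h

theorem EInv.cons (H : EInv A s) {w : ℕ} {b : Bool} (hw : w ∈ todo A s)
    (h1 : b = true → ((todo A s).filter fun z => adj A w z && bdy A s z).length ≤ 2)
    (h2 : b = false → ((todo A s).filter fun z => adj A w z).length ≤ 3 ∧ bdy A s w = false) :
    EInv A ((w, b, s.length) :: s) := by
  obtain ⟨w1, w2⟩ := mem_todo.1 hw
  have key : ∀ z, (∀ p ∈ s, p.1 = z → s.length < p.2.2) → z ∉ s.map fun p => p.1 := fun z h hz => by
    obtain ⟨p, hp, e⟩ := List.mem_map.1 hz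
    have := h p hp e
    have := (H.lt p hp).2
    omega
  refine ⟨List.nodup_cons.2 ⟨w2, H.nd⟩, fun p hp => ?_, fun p hp q hq e => ?_, fun q hq hb => ?_,
    fun q hq hb => ?_⟩
  · rcases List.mem_cons.1 hp with rfl | hp
    · exact ⟨w1, by simp⟩
    · have := H.lt p hp
      exact ⟨this.1, by simp; omega⟩
  · rcases List.mem_cons.1 hp with rfl | hp <;> rcases List.mem_cons.1 hq with rfl | hq
    · rfl
    · have := (H.lt q hq).2; simp only at e; omega
    · have := (H.lt p hp).2; simp only at e; omega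
    · exact H.inj p hp q hq e
  · rcases List.mem_cons.1 hq with rfl | hq
    · refine le_trans ?_ (h1 hb)
      rw [todo, List.filter_filter]
      refine filter_len_le fun z _ h => ?_
      simp only [Bool.and_eq_true, decide_eq_true_eq] at h ⊢
      obtain ⟨a, c, p, hp, d⟩ := h
      refine ⟨⟨a, ?_⟩, key z fun p hp => c p (List.mem_cons_of_mem _ hp)⟩
      rcases List.mem_cons.1 hp with rfl | hp
      · simp at d
      · exact decide_eq_true ⟨p, hp, d.1, d.2.1⟩
    · refine le_trans (filter_len_le fun z _ h => ?_) (H.mg q hq hb)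
      simp only [Bool.and_eq_true, decide_eq_true_eq] at h ⊢
      obtain ⟨a, c, p, hp, d⟩ := h
      refine ⟨a, fun p hp => c p (List.mem_cons_of_mem _ hp), ?_⟩
      rcases List.mem_cons.1 hp with rfl | hp
      · have := (H.lt q hq).2; simp only at d; omega
      · exact ⟨p, hp, d⟩
  · rcases List.mem_cons.1 hq with rfl | hq
    · obtain ⟨a1, a2⟩ := h2 hb
      refine ⟨le_trans ?_ a1, fun p hp b1 b2 => ?_⟩
      · rw [todo, List.filter_filter]
        refine filter_len_le fun z _ h => ?_
        simp only [Bool.and_eq_true, decide_eq_true_eq] at h ⊢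
        exact ⟨h.1, key z fun p hp => h.2 p (List.mem_cons_of_mem _ hp)⟩
      · rcases List.mem_cons.1 hp with rfl | hp
        · simp at b2
        · simp only [bdy, decide_eq_false_iff_not, not_exists, not_and] at a2
          simpa using a2 p hp b1
    · obtain ⟨a1, a2⟩ := H.dl q hq hb
      refine ⟨le_trans (filter_len_le fun z _ h => ?_) a1, fun p hp b1 b2 => ?_⟩
      · simp only [Bool.and_eq_true, decide_eq_true_eq] at h ⊢
        exact ⟨h.1, fun p hp => h.2 p (List.mem_cons_of_mem _ hp)⟩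
      · rcases List.mem_cons.1 hp with rfl | hp
        · have := (H.lt q hq).2; simp only at b2; omega
        · exact a2 p hp b1 b2

theorem look_mem (H : EInv A s) {p : ℕ × Bool × ℕ} (hp : p ∈ s) : look s p.1 = p.2 := by
  unfold look
  rcases hf : s.find? fun q => decide (q.1 = p.1) with _ | q
  · have := List.find?_eq_none.1 hf p hp
    simp at this
  · have h1 := List.mem_of_find?_eq_some hf
    have h2 := List.find?_some hf
    simp only [decide_eq_true_eq] at h2
    rw [hf, List.inj_on_of_nodup_map H.nd h1 hp h2]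
    rfl

theorem look_true {y : ℕ} (h : (look s y).1 = true) : ∃ p ∈ s, p.1 = y := by
  unfold look at h
  rcases hf : s.find? fun q => decide (q.1 = y) with _ | q
  · rw [hf] at h; cases h
  · have h2 := List.find?_some hf
    exact ⟨q, List.mem_of_find?_eq_some hf, by simpa using h2⟩

theorem el_of_inv (H : EInv A s) (hl : s.length = A.length) : El A s := by
  have all : ∀ v < A.length, ∃ p ∈ s, p.1 = v := by
    intro v hv
    have sp : (s.map fun p => p.1).Subperm (List.range A.length) :=
      List.subperm_of_subset H.nd fun x hx => by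
        obtain ⟨p, hp, rfl⟩ := List.mem_map.1 hx
        simpa using (H.lt p hp).1
    have := (sp.perm_of_length_le (by simp [hl])).symm.subset (List.mem_range.2 hv)
    simpa using this
  refine ⟨fun u hu v hv e => ?_, fun v hv m => ?_, fun v hv m => ?_⟩
  · obtain ⟨p, hp, rfl⟩ := all u hu
    obtain ⟨q, hq, rfl⟩ := all v hv
    rw [look_mem H hp, look_mem H hq] at e
    rw [H.inj p hp q hq e]
  · obtain ⟨q, hq, rfl⟩ := all v hv
    rw [look_mem H hq] at m
    refine le_trans ?_ (H.mg q hq m)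
    rw [later, List.filter_filter]
    refine filter_len_le fun z _ h => ?_
    simp only [old, Bool.and_eq_true, decide_eq_true_eq, look_mem H hq] at h ⊢
    obtain ⟨⟨y, y1, y2, y3, y4⟩, a, b⟩ := h
    obtain ⟨p, hp, rfl⟩ := all y (List.mem_range.1 y1)
    rw [look_mem H hp] at y2 y4
    refine ⟨a, fun r hr e => ?_, p, hp, y2, y3, y4⟩
    rwa [← e, look_mem H hr] at b
  · obtain ⟨q, hq, rfl⟩ := all v hv
    rw [look_mem H hq] at m
    obtain ⟨a1, a2⟩ := H.dl q hq m
    refine ⟨le_trans ?_ a1, fun y y1 y2 => ?_⟩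
    · refine filter_len_le fun z _ h => ?_
      simp only [Bool.and_eq_true, decide_eq_true_eq, look_mem H hq] at h ⊢
      refine ⟨h.1, fun r hr e => ?_⟩
      have b := h.2
      rwa [← e, look_mem H hr] at b
    · obtain ⟨p, hp, rfl⟩ := look_true y1
      rw [look_mem H hp] at y1 y2
      rw [look_mem H hq] at y2
      exact a2 p hp y1 y2

theorem k5_of_k4 {V : Type} {Γ : SimpleGraph V} {Q T U : Set V} (h : CliqueMinorIn Γ 4 U)
    (hU : U ⊆ Q) (hT : T ⊆ Q) (hc : (Γ.induce T).Connected) (hd : Disjoint T U)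
    (ha : ∀ z ∈ U, ∃ y ∈ T, Γ.Adj z y) : CliqueMinorIn Γ 5 Q := by
  obtain ⟨B, b1, b2, b3, b4⟩ := h
  have ad : ∀ i, ∃ u ∈ B i, ∃ v ∈ T, Γ.Adj u v := fun i => by
    obtain ⟨⟨u, hu⟩⟩ := (b2 i).nonempty
    exact ⟨u, hu, ha u (b1 i hu)⟩
  refine ⟨Fin.cons T B, fun i => ?_, fun i => ?_, fun i j hij => ?_, fun i j hij => ?_⟩
  · refine Fin.cases hT (fun i => (b1 i).trans hU) i
  · refine Fin.cases hc b2 i
  · revert hij
    refine Fin.cases ?_ (fun i => ?_) i <;> refine Fin.cases ?_ (fun j => ?_) j <;> intro hij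
    · exact (hij rfl).elim
    · exact hd.mono_right (b1 j)
    · exact (hd.mono_right (b1 i)).symm
    · exact b3 i j fun e => hij (by rw [e])
  · revert hij
    refine Fin.cases ?_ (fun i => ?_) i <;> refine Fin.cases ?_ (fun j => ?_) j <;> intro hij
    · exact (hij rfl).elim
    · obtain ⟨u, hu, v, hv, a⟩ := ad j
      exact ⟨v, hv, u, hu, a.symm⟩
    · exact ad i
    · exact b4 i j fun e => hij (by rw [e])

theorem conn_insert {V : Type} {Γ : SimpleGraph V} {T : Set V} (hc : (Γ.induce T).Connected)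
    {w y : V} (hy : y ∈ T) (a : Γ.Adj w y) : (Γ.induce (insert w T)).Connected := by
  rw [SimpleGraph.connected_iff_exists_forall_reachable]
  refine ⟨⟨y, .inr hy⟩, ?_⟩
  rintro ⟨x, rfl | hx⟩
  · exact SimpleGraph.Adj.reachable a.symm
  · exact (hc ⟨y, hy⟩ ⟨x, hx⟩).map (Γ.induceHomOfLE (Set.subset_insert w T)).toHom

theorem conn_single {V : Type} (Γ : SimpleGraph V) (w : V) : (Γ.induce {w}).Connected := by
  rw [SimpleGraph.connected_iff_exists_forall_reachable]
  refine ⟨⟨w, rfl⟩, ?_⟩
  rintro ⟨x, rfl⟩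
  exact SimpleGraph.Reachable.refl _

section
variable {n : ℕ} (Γ : SimpleGraph (Fin n)) [DecidableRel Γ.Adj]

def KInv (A : Mat) (s : Els) : Prop :=
  (∀ z ∈ todo A s, bdy A s z = false) ∨ ∃ Q T : Set (Fin n), ¬ CliqueMinorIn Γ 5 Q ∧ T ⊆ Q ∧
    (Γ.induce T).Connected ∧ (∀ y ∈ T, y.1 ∉ todo A s) ∧ (∀ z : Fin n, z.1 ∈ todo A s → z ∈ Q) ∧
    ∀ z : Fin n, z.1 ∈ todo A s → bdy A s z = true → ∃ y ∈ T, Γ.Adj z y

variable {Γ}

theorem cnt_le (hG : ∀ u v : Fin n, Γ.Adj u v ↔ adj A u v = true) {R : List ℕ} (hR : R.Nodup)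
    (hn : ∀ u ∈ R, u < n) (v : Fin n) : (R.filter (adj A v)).length ≤
      ((Finset.univ.filter fun u : Fin n => u.1 ∈ R).filter (Γ.Adj v)).card := by
  rw [← List.toFinset_card_of_nodup (hR.filter _)]
  refine le_trans (Finset.card_le_card (t := ((Finset.univ.filter fun u : Fin n =>
    u.1 ∈ R).filter (Γ.Adj v)).image Fin.val) fun u hu => ?_) Finset.card_image_le
  obtain ⟨h1, h2⟩ := List.mem_filter.1 (List.mem_toFinset.1 hu)
  exact Finset.mem_image.2 ⟨⟨u, hn u h1⟩, by simp [h1, hG, h2], rfl⟩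

theorem todo_cons {x : ℕ × Bool × ℕ} {z : ℕ} : z ∈ todo A (x :: s) ↔ z ∈ todo A s ∧ z ≠ x.1 := by
  simp only [mem_todo, List.map_cons, List.mem_cons]; tauto

theorem bdy_cons {x : ℕ × Bool × ℕ} {z : ℕ} :
    bdy A (x :: s) z = true ↔ (x.2.1 = true ∧ adj A z x.1 = true) ∨ bdy A s z = true := by
  simp [bdy]

theorem estep_spec (hn : A.length = n) (hG : ∀ u v : Fin n, Γ.Adj u v ↔ adj A u v = true)
    (hK : ∀ S : Finset (Fin n), (∀ v ∈ S, 4 ≤ (S.filter (Γ.Adj v)).card) →
      ¬ CliqueMinorIn Γ 5 (S : Set (Fin n)))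
    (H : EInv A s) (K : KInv Γ A s) (hl : s.length < A.length) :
    EInv A (estep A s) ∧ KInv Γ A (estep A s) ∧ (estep A s).length = s.length + 1 := by
  have tn : (todo A s).Nodup := List.nodup_range.filter _
  have tl : ∀ u ∈ todo A s, u < n := fun u hu => hn ▸ (mem_todo.1 hu).1
  unfold estep
  rcases h1 : pk1 A s with _ | w
  swap
  · have a := List.mem_of_find?_eq_some h1
    have b := List.find?_some h1
    simp only [Bool.and_eq_true, decide_eq_true_eq] at b
    refine ⟨H.cons a (fun _ => b.2) (by simp), ?_, rfl⟩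
    rcases K with K | ⟨Q, T, k1, k2, k3, k4, k5, k6⟩
    · rw [K w a] at b; cases b.1
    obtain ⟨y, y1, y2⟩ := k6 ⟨w, tl w a⟩ a b.1
    refine .inr ⟨Q, insert ⟨w, tl w a⟩ T, k1, Set.insert_subset (k5 _ a) k2, conn_insert k3 y1 y2,
      ?_, fun z hz => k5 z (todo_cons.1 hz).1, fun z hz hb => ?_⟩
    · rintro x (rfl | hx) hz
      · exact (todo_cons.1 hz).2 rfl
      · exact k4 x hx (todo_cons.1 hz).1
    · rcases bdy_cons.1 hb with c | c
      · exact ⟨⟨w, tl w a⟩, .inl rfl, (hG _ _).2 c.2⟩
      · obtain ⟨x, x1, x2⟩ := k6 z (todo_cons.1 hz).1 c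
        exact ⟨x, .inr x1, x2⟩
  have nb : ∀ z ∈ todo A s, bdy A s z = false := by
    rcases K with K | ⟨Q, T, k1, k2, k3, k4, k5, k6⟩
    · exact K
    intro z hz
    by_contra hb
    apply k1
    have mU : ∀ u : Fin n, u ∈ (Finset.univ.filter fun u : Fin n =>
        u.1 ∈ (todo A s).filter (bdy A s)) ↔ u.1 ∈ todo A s ∧ bdy A s u = true := fun u => by simp
    refine k5_of_k4 (dirac_k4 Γ (Finset.univ.filter fun u : Fin n =>
      u.1 ∈ (todo A s).filter (bdy A s)) ⟨⟨z, tl z hz⟩, (mU _).2 ⟨hz, by simpa using hb⟩⟩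
      fun v hv => ?_) (fun u hu => k5 u ((mU u).1 hu).1) k2 k3 ?_
      fun u hu => k6 u ((mU u).1 hu).1 ((mU u).1 hu).2
    · obtain ⟨v1, v2⟩ := (mU v).1 hv
      refine le_trans ?_ (cnt_le hG (tn.filter _) (fun u hu => tl u (List.mem_filter.1 hu).1) v)
      have := List.find?_eq_none.1 h1 v v1
      rw [List.filter_filter]
      simp only [v2, Bool.true_and, decide_eq_true_eq] at this
      omega
    · exact Set.disjoint_left.2 fun u hu hu' => k4 u hu ((mU u).1 hu').1
  rcases h2 : pk2 A s with _ | w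
  swap
  · have a := List.mem_of_find?_eq_some h2
    have b := List.find?_some h2
    simp only [decide_eq_true_eq] at b
    refine ⟨H.cons a (by simp) (fun _ => ⟨b, nb w a⟩), .inl fun z hz => ?_, rfl⟩
    by_contra hb
    rcases bdy_cons.1 (by simpa using hb) with c | c
    · cases c.1
    · rw [nb z (todo_cons.1 hz).1] at c; cases c
  rcases h3 : (todo A s).head? with _ | w
  · exfalso
    rw [List.head?_eq_none_iff] at h3
    have : (List.range A.length).length ≤ (s.map fun p => p.1).length :=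
      (List.subperm_of_subset List.nodup_range fun x hx => by
        by_contra hc
        have : x ∈ todo A s := mem_todo.2 ⟨List.mem_range.1 hx, hc⟩
        rw [h3] at this; cases this).length_le
    simp at this; omega
  have a : w ∈ todo A s := List.mem_of_mem_head? h3
  refine ⟨H.cons a (fun _ => ?_) (by simp), ?_, rfl⟩
  · rw [List.filter_eq_nil_iff.2 fun z hz => by simp [nb z hz]]; simp
  · refine .inr ⟨(Finset.univ.filter fun u : Fin n => u.1 ∈ todo A s : Finset (Fin n)),
      {⟨w, tl w a⟩}, hK _ fun v hv => ?_, by simpa using a, conn_single _ _, ?_,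
      fun z hz => by simpa using (todo_cons.1 hz).1, fun z hz hb => ?_⟩
    · refine le_trans ?_ (cnt_le hG tn tl v)
      have := List.find?_eq_none.1 h2 v (by simpa using hv)
      simp only [decide_eq_true_eq] at this
      exact not_le.1 this
    · rintro x rfl hz
      exact (todo_cons.1 hz).2 rfl
    · rcases bdy_cons.1 hb with c | c
      · exact ⟨_, rfl, (hG _ _).2 c.2⟩
      · rw [nb z (todo_cons.1 hz).1] at c; cases c

theorem el_eseq (hn : A.length = n) (hG : ∀ u v : Fin n, Γ.Adj u v ↔ adj A u v = true)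
    (hK : ∀ S : Finset (Fin n), (∀ v ∈ S, 4 ≤ (S.filter (Γ.Adj v)).card) →
      ¬ CliqueMinorIn Γ 5 (S : Set (Fin n))) : El A (eseq A) := by
  have key : ∀ k ≤ A.length, EInv A ((estep A)^[k] []) ∧ KInv Γ A ((estep A)^[k] []) ∧
      ((estep A)^[k] []).length = k := by
    intro k
    induction k with
    | zero =>
      intro _
      exact ⟨⟨by simp, by simp, by simp, by simp, by simp⟩, .inl fun z _ => by simp [bdy], rfl⟩
    | succ k ih =>
      intro hk
      obtain ⟨a, b, c⟩ := ih (by omega)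
      rw [iterate_succ_apply']
      have := estep_spec hn hG hK a b (by omega)
      rwa [c] at this
  exact el_of_inv (key _ le_rfl).1 (key _ le_rfl).2.2

end

section
variable {α : Type} [Enc α] {A : α → Mat} {s : α → Els} {v : α → ℕ}

@[fun_prop] theorem pt_todo (hA : PT A) (hs : PT s) : PT fun x => todo (A x) (s x) := by
  unfold todo; fun_prop

@[fun_prop] theorem pt_bdy (hA : PT A) (hs : PT s) (hv : PT v) :
    PT fun x => bdy (A x) (s x) (v x) := by
  unfold bdy; fun_prop

@[fun_prop] theorem pt_estep (hA : PT A) (hs : PT s) : PT fun x => estep (A x) (s x) := by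
  unfold estep pk1 pk2; fun_prop

theorem estep_cases (A : Mat) (s : Els) :
    estep A s = s ∨ ∃ w < A.length, ∃ b, estep A s = (w, b, s.length) :: s := by
  unfold estep
  rcases h1 : pk1 A s with _ | w
  · rcases h2 : pk2 A s with _ | w
    · rcases h3 : (todo A s).head? with _ | w
      · exact .inl rfl
      · exact .inr ⟨w, (mem_todo.1 (List.mem_of_mem_head? h3)).1, true, rfl⟩
    · exact .inr ⟨w, (mem_todo.1 (List.mem_of_find?_eq_some h2)).1, false, rfl⟩
  · exact .inr ⟨w, (mem_todo.1 (List.mem_of_find?_eq_some h1)).1, true, rfl⟩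

@[fun_prop] theorem pt_eseq (hA : PT A) : PT fun x => eseq (A x) := by
  have hl : PT fun x => (A x).length := by fun_prop
  refine PT.iterate (step := fun x => estep (A x)) hl (by fun_prop) (by fun_prop)
    (B := fun x => (A x).length * (2 * (A x).length + 4))
    (hl.pb_nat.mul (((PB.const 2).mul hl.pb_nat).add (PB.const 4))) fun x i hi => ?_
  have key : ∀ i ≤ (A x).length, ((estep (A x))^[i] []).length ≤ i ∧
      sz ((estep (A x))^[i] []) ≤ i * (2 * (A x).length + 4) := by
    intro i
    induction i with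
    | zero => simp
    | succ i ih =>
      intro hi
      obtain ⟨a, b⟩ := ih (by omega)
      rw [iterate_succ_apply', Nat.succ_mul]
      rcases estep_cases (A x) ((estep (A x))^[i] []) with e | ⟨w, hw, c, e⟩
      · rw [e]; omega
      · rw [e]
        have := sz_bool c
        simp only [List.length_cons, sz_cons, sz_pair, sz_nat]
        omega
  exact (key i hi.le).2.trans (Nat.mul_le_mul_right _ hi.le)

theorem pt_drawK : PT drawK := by
  unfold drawK; fun_prop

end

theorem drawK_poly : N68a2faeb.IsPolyTime drawK :=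
  isPolyTime_of_rep pt_drawK fun a => by
    have e1 : (Rep.up a : Mat) = a := by
      rw [up_list]; exact (List.map_congr_left fun l _ => up_str l).trans (List.map_id' _)
    have e2 : ∀ l : List (ℤ × ℤ × ℤ), (Rep.down l : List (ℤ × ℤ × ℤ)) = l := fun l => by
      rw [down_list]; exact (List.map_congr_left fun l _ => rfl).trans (List.map_id' _)
    rw [e1, down_prod, e2, down_list]
    exact Prod.ext rfl ((List.map_congr_left fun l _ => e2 l).trans (List.map_id' _))

theorem mainK {n : ℕ} (G : SimpleGraph (Fin n)) [DecidableRel G.Adj] (hd : G.maxDegree ≤ 6)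
    (hK : ∀ S : Finset (Fin n), (∀ v ∈ S, 4 ≤ (S.filter (G.Adj v)).card) →
      ¬ CliqueMinorIn G 5 (S : Set (Fin n))) :
    IsDrawing G
      (fun u => pt ((drawK (List.ofFn fun u => List.ofFn fun v => decide (G.Adj u v))).1.getD u 0))
      (fun u v => pt (((drawK (List.ofFn fun u => List.ofFn fun v =>
        decide (G.Adj u v))).2.getD u []).getD v 0)) := by
  set A : Mat := List.ofFn fun u => List.ofFn fun v => decide (G.Adj u v) with hA
  have hn : A.length = n := by simp [hA]
  have hG : ∀ u v : Fin n, G.Adj u v ↔ adj A u v = true := fun u v => by simp [adj, hA]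
  have rg : ∀ u v, adj A u v = true → u < n ∧ v < n := by
    intro u v h
    by_cases hu : u < n
    · by_cases hv : v < n
      · exact ⟨hu, hv⟩
      · simp [adj, hA, hu, hv] at h
    · simp [adj, hA, hu] at h
  have sy : ∀ u v, adj A u v = true → adj A v u = true := fun u v h =>
    (hG ⟨v, (rg u v h).2⟩ ⟨u, (rg u v h).1⟩).1 ((hG ⟨u, (rg u v h).1⟩ ⟨v, (rg u v h).2⟩).2 h).symm
  have gr : Gr A := by
    refine ⟨fun u v => Bool.eq_iff_iff.2 ⟨sy u v, sy v u⟩, fun u => ?_, hn ▸ rg, fun v => ?_⟩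
    · by_contra h
      have h : adj A u u = true := by simpa using h
      exact G.irrefl ((hG ⟨u, (rg u u h).1⟩ ⟨u, (rg u u h).1⟩).2 h)
    · by_cases hv : v < n
      · refine (cnt_le hG List.nodup_range (fun u hu => hn ▸ List.mem_range.1 hu) ⟨v, hv⟩).trans
          (le_trans ?_ ((G.degree_le_maxDegree ⟨v, hv⟩).trans hd))
        exact Finset.card_le_card fun u hu => by simpa using (Finset.mem_filter.1 hu).2
      · rw [List.filter_eq_nil_iff.2 fun z _ h => hv (rg _ _ h).1]; simp
  exact core_correct gr (pre_of_el gr (el_eseq hn hG hK)) hn G hG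

end Pool.Agent.Lib.MP_6b7ffe_lc
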