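import Pool.Agent.Lib.MP_6b7ffe_lc.Defs

set_option autoImplicit false

namespace Pool.Agent.Lib.MP_6b7ffe_lc

open Function

theorem seg_coord {p q x : Fin 3 → ℝ} (h : x ∈ segment ℝ p q) (j : Fin 3) :
    x j ∈ Set.uIcc (p j) (q j) := by
  obtain ⟨a, b, ha, hb, hab, rfl⟩ := h
  rw [← segment_eq_uIcc]
  exact ⟨a, b, ha, hb, hab, by simp⟩

theorem fin3_third {i j : Fin 3} (h : i ≠ j) : ∃ m : Fin 3, m ≠ i ∧ m ≠ j := by
  revert i j; decide

theorem fin3_third' (i j : Fin 3) : ∃ m : Fin 3, m ≠ i ∧ m ≠ j := by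
  revert i j; decide

theorem fin3_uniq {i j m m' : Fin 3} (h : i ≠ j) (h1 : m ≠ i) (h2 : m ≠ j) (h3 : m' ≠ i)
    (h4 : m' ≠ j) : m = m' := by
  revert i j m m'; decide

section
variable {V : Type} (P : V → Fin 3 → ℝ) (c : V → V → Fin 3)

/-- the bend next to `u` on the edge `uv` -/
def bend (u v : V) : Fin 3 → ℝ := update (P u) (c u v) (P v (c u v))

def EndS (u v : V) (x : Fin 3 → ℝ) : Prop :=
  (∀ j, j ≠ c u v → x j = P u j) ∧ x (c u v) ∈ Set.uIcc (P u (c u v)) (P v (c u v))

def MidS (u v : V) (x : Fin 3 → ℝ) : Prop :=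
  x (c u v) = P v (c u v) ∧ x (c v u) = P u (c v u) ∧
    ∀ m, m ≠ c u v → m ≠ c v u → x m ∈ Set.uIcc (P u m) (P v m)

variable {P c}

theorem MidS.symm {u v : V} {x : Fin 3 → ℝ} (h : MidS P c u v x) : MidS P c v u x :=
  ⟨h.2.1, h.1, fun m h1 h2 => by rw [Set.uIcc_comm]; exact h.2.2 m h2 h1⟩

theorem endS_of {u v : V} {x : Fin 3 → ℝ} (h : x ∈ segment ℝ (P u) (bend P c u v)) :
    EndS P c u v x := by
  refine ⟨fun j hj => ?_, ?_⟩
  · have := seg_coord h j
    simpa [bend, update_of_ne hj] using this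
  · have := seg_coord h (c u v)
    simpa [bend] using this

theorem midS_of {u v : V} {x : Fin 3 → ℝ} (hc : c u v ≠ c v u)
    (h : x ∈ segment ℝ (bend P c u v) (bend P c v u)) : MidS P c u v x := by
  refine ⟨?_, ?_, fun m h1 h2 => ?_⟩
  · have := seg_coord h (c u v)
    simpa [bend, update_of_ne hc] using this
  · have := seg_coord h (c v u)
    simpa [bend, update_of_ne hc.symm] using this
  · have := seg_coord h m
    simpa [bend, update_of_ne h1, update_of_ne h2] using this

theorem chain_cases {u v : V} {x : Fin 3 → ℝ} (hc : c u v ≠ c v u)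
    (h : x ∈ chain P (bend P c) u v) : EndS P c u v x ∨ MidS P c u v x ∨ EndS P c v u x := by
  rcases h with (h | h) | h
  · exact .inl (endS_of h)
  · exact .inr (.inl (midS_of hc h))
  · exact .inr (.inr (endS_of (by rwa [segment_symm] at h)))

end

/-- the combinatorial data of a drawing in which later vertices are further out -/
structure Ports {V : Type} (G : SimpleGraph V) (t : V → ℕ) (P : V → Fin 3 → ℝ)
    (c : V → V → Fin 3) : Prop where
  inj : Injective t
  abs : ∀ v i, |P v i| = t v + 1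
  ne : ∀ u v, G.Adj u v → c u v ≠ c v u
  par : ∀ a a' w, G.Adj a w → G.Adj a' w → t a < t w → t a' < t w → c a w = c a' w → a = a'
  opp : ∀ u v v', G.Adj u v → G.Adj u v' → v ≠ v' → c u v = c u v' →
    (P v (c u v) - P u (c u v)) * (P v' (c u v) - P u (c u v)) < 0

namespace Ports
variable {V : Type} {G : SimpleGraph V} {t : V → ℕ} {P : V → Fin 3 → ℝ} {c : V → V → Fin 3}

theorem coord (H : Ports G t P c) {u v : V} {i : Fin 3} (h : P u i = P v i) : u = v := by
  apply H.inj
  have h1 := H.abs u i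
  have h2 := H.abs v i
  rw [h, h2] at h1
  exact_mod_cast (add_right_cancel h1).symm

theorem le_of_mem (H : Ports G t P c) {u v w : V} {i : Fin 3}
    (h : P w i ∈ Set.uIcc (P u i) (P v i)) : t w ≤ max (t u) (t v) := by
  have h1 := H.abs u i
  have h2 := H.abs v i
  have h3 := H.abs w i
  have : |P w i| ≤ max |P u i| |P v i| := by
    rcases Set.mem_uIcc.1 h with ⟨a, b⟩ | ⟨a, b⟩
    · exact abs_le_max_abs_abs a b
    · rw [max_comm]; exact abs_le_max_abs_abs a b
  rw [h1, h2, h3] at this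
  rcases le_max_iff.1 this with h | h
  · exact le_max_of_le_left (by exact_mod_cast (add_le_add_iff_right (1 : ℝ)).1 h)
  · exact le_max_of_le_right (by exact_mod_cast (add_le_add_iff_right (1 : ℝ)).1 h)

theorem uIcc_opp {a b b' x : ℝ} (h : (b - a) * (b' - a) < 0) (h1 : x ∈ Set.uIcc a b)
    (h2 : x ∈ Set.uIcc a b') : x = a := by
  rcases Set.mem_uIcc.1 h1 with ⟨p, q⟩ | ⟨p, q⟩ <;> rcases Set.mem_uIcc.1 h2 with ⟨r, s⟩ | ⟨r, s⟩
  · nlinarith
  · linarith
  · linarith
  · nlinarith

theorem ee (H : Ports G t P c) {u v u' v' : V} {x : Fin 3 → ℝ} (h : G.Adj u v) (h' : G.Adj u' v')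
    (hne : ¬ (u = u' ∧ v = v')) (e : EndS P c u v x) (e' : EndS P c u' v' x) :
    u = u' ∧ x = P u := by
  obtain ⟨j, hj, hj'⟩ := fin3_third' (c u v) (c u' v')
  have huu : u = u' := H.coord ((e.1 j hj).symm.trans (e'.1 j hj'))
  subst huu
  refine ⟨rfl, funext fun i => ?_⟩
  by_cases hi : i = c u v
  · subst hi
    by_cases hc : c u v = c u v'
    · have hv : v ≠ v' := fun hv => hne ⟨rfl, hv⟩
      have := e'.2
      rw [← hc] at this
      exact uIcc_opp (H.opp u v v' h h' hv hc) e.2 this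
    · exact e'.1 _ hc
  · exact e.1 i hi

theorem em0 (H : Ports G t P c) {u v v' : V} {x : Fin 3 → ℝ} (h : G.Adj u v) (h' : G.Adj u v')
    (hne : v ≠ v') (hc : c u v = c u v') (e : EndS P c u v x) (e' : MidS P c u v' x) : False := by
  have h1 := H.opp u v v' h h' hne hc
  have h2 := e'.1
  rw [← hc] at h2
  have h3 : x (c u v) = P u (c u v) :=
    uIcc_opp h1 e.2 (by rw [h2]; exact Set.right_mem_uIcc)
  exact h'.ne (H.coord (h3.symm.trans h2))

theorem em (H : Ports G t P c) {u v u' v' : V} {x : Fin 3 → ℝ} (h : G.Adj u v) (h' : G.Adj u' v')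
    (hne : s(u, v) ≠ s(u', v')) (e : EndS P c u v x) (e' : MidS P c u' v' x) : False := by
  have hc := H.ne u' v' h'
  by_cases h1 : c u v = c u' v'
  · have huu : u = u' := H.coord ((e.1 _ (h1 ▸ hc.symm)).symm.trans e'.2.1)
    subst huu
    exact H.em0 h h' (fun hv => hne (by rw [hv])) h1 e e'
  by_cases h2 : c u v = c v' u'
  · have huu : u = v' := H.coord ((e.1 _ (h2 ▸ hc)).symm.trans e'.1)
    subst huu
    exact H.em0 h h'.symm (fun hv => hne (by rw [hv, Sym2.eq_swap])) h2 e e'.symm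
  have a1 : u = v' := H.coord ((e.1 _ (Ne.symm h1)).symm.trans e'.1)
  have a2 : u = u' := H.coord ((e.1 _ (Ne.symm h2)).symm.trans e'.2.1)
  exact h'.ne (a2.symm.trans a1)

theorem mm0 (H : Ports G t P c) {u v u' : V} {x : Fin 3 → ℝ} (h : G.Adj u v) (h' : G.Adj u' v)
    (hne : u ≠ u') (hc : c u v = c u' v) (e : MidS P c u v x) (e' : MidS P c u' v x) : False := by
  by_cases h1 : c v u = c v u'
  · exact hne (H.coord (e.2.1.symm.trans (h1 ▸ e'.2.1)))
  have a1 := e.2.2 (c v u') (hc ▸ (H.ne u' v h').symm) (Ne.symm h1)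
  have a2 := e'.2.2 (c v u) (hc ▸ (H.ne u v h).symm) h1
  rw [e'.2.1] at a1
  rw [e.2.1] at a2
  have b1 := H.le_of_mem a1
  have b2 := H.le_of_mem a2
  have n1 : t u ≠ t u' := fun e => hne (H.inj e)
  have n2 : t u ≠ t v := fun e => h.ne (H.inj e)
  have n3 : t u' ≠ t v := fun e => h'.ne (H.inj e)
  exact hne (H.par u u' v h h' (by omega) (by omega) hc)

theorem mm (H : Ports G t P c) {u v u' v' : V} {x : Fin 3 → ℝ} (h : G.Adj u v) (h' : G.Adj u' v')
    (hne : s(u, v) ≠ s(u', v')) (e : MidS P c u v x) (e' : MidS P c u' v' x) : False := by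
  have key : c u v = c u' v' ∨ c u v = c v' u' ∨ c v u = c u' v' ∨ c v u = c v' u' := by
    have a := H.ne u v h
    have b := H.ne u' v' h'
    generalize c u v = i at *
    generalize c v u = j at *
    generalize c u' v' = k at *
    generalize c v' u' = l at *
    revert i j k l; decide
  rcases key with k | k | k | k
  · have : v = v' := H.coord (e.1.symm.trans (k ▸ e'.1))
    subst this
    exact H.mm0 h h' (fun hv => hne (by rw [hv])) k e e'
  · have : v = u' := H.coord (e.1.symm.trans (k ▸ e'.2.1))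
    subst this
    exact H.mm0 h h'.symm (fun hv => hne (by rw [hv, Sym2.eq_swap])) k e e'.symm
  · have : u = v' := H.coord (e.2.1.symm.trans (k ▸ e'.1))
    subst this
    exact H.mm0 h.symm h' (fun hv => hne (by rw [hv, Sym2.eq_swap])) k e.symm e'
  · have : u = u' := H.coord (e.2.1.symm.trans (k ▸ e'.2.1))
    subst this
    exact H.mm0 h.symm h'.symm (fun hv => hne (by rw [hv])) k e.symm e'.symm

theorem isDrawing (H : Ports G t P c) : IsDrawing G P (bend P c) := by
  refine ⟨fun u v h => H.coord (congrFun h 0), fun u v h => ?_, fun u v w h hw => ?_,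
    fun u v u' v' h h' hne x hx => ?_⟩
  · have hc := H.ne u v h
    obtain ⟨m, h1, h2⟩ := fin3_third hc
    refine ⟨c u v, m, c v u, h1.symm, hc, h2, fun j hj => ?_, fun j hj => ?_, fun j hj => ?_⟩
    · simp [bend, update_of_ne hj]
    · by_cases a : j = c u v
      · subst a; simp [bend, update_of_ne hc]
      · by_cases b : j = c v u
        · subst b; simp [bend, update_of_ne hc.symm]
        · exact absurd (fin3_uniq hc a b h1 h2) hj
    · simp [bend, update_of_ne hj]
  · rcases chain_cases (H.ne u v h) hw with e | e | e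
    · obtain ⟨j, hj, -⟩ := fin3_third' (c u v) (c u v)
      exact .inl (H.coord (e.1 j hj))
    · exact .inr (H.coord e.1)
    · obtain ⟨j, hj, -⟩ := fin3_third' (c v u) (c v u)
      exact .inr (H.coord (e.1 j hj))
  · have s1 : s(v, u) ≠ s(u', v') := by rwa [Sym2.eq_swap]
    have s2 : s(u, v) ≠ s(v', u') := by rwa [Sym2.eq_swap (a := v')]
    have s3 : s(v, u) ≠ s(v', u') := by rwa [Sym2.eq_swap (a := v')]
    have nn : ∀ {a b a' b' : V}, s(a, b) ≠ s(a', b') → ¬ (a = a' ∧ b = b') := by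
      rintro a b a' b' hh ⟨rfl, rfl⟩; exact hh rfl
    rcases chain_cases (H.ne u v h) hx.1 with e | e | e <;>
      rcases chain_cases (H.ne u' v' h') hx.2 with e' | e' | e'
    · obtain ⟨a, b⟩ := H.ee h h' (nn hne) e e'
      exact ⟨u, .inl rfl, .inl a, b⟩
    · exact (H.em h h' hne e e').elim
    · obtain ⟨a, b⟩ := H.ee h h'.symm (nn s2) e e'
      exact ⟨u, .inl rfl, .inr a, b⟩
    · exact (H.em h' h hne.symm e' e).elim
    · exact (H.mm h h' hne e e').elim
    · exact (H.em h'.symm h s2.symm e' e).elim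
    · obtain ⟨a, b⟩ := H.ee h.symm h' (nn s1) e e'
      exact ⟨v, .inr rfl, .inl a, b⟩
    · exact (H.em h.symm h' s1 e e').elim
    · obtain ⟨a, b⟩ := H.ee h.symm h'.symm (nn s3) e e'
      exact ⟨v, .inr rfl, .inr a, b⟩

end Ports

end Pool.Agent.Lib.MP_6b7ffe_lc
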