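import Pool.Agent.Lib.MP_6b7ffe_lc.Sparse

set_option autoImplicit false

namespace Pool.Agent.Lib.MP_6b7ffe_lc

open Function Pool.Agent.Lib.Complexity

section
variable {α β γ : Type} [DecidableEq α] [DecidableEq β] [DecidableEq γ]

/-- one round of the search for the alternating component -/
def growK (col : List (((α × β) × γ) × Fin 3)) (y : β) (a b : Fin 3) (L : List α) : List α :=
  (col.filter fun p => decide (p.2 = a ∧ (p.1.1.2 = y ∨
    ∃ q ∈ col, q.2 = b ∧ q.1.1.2 = p.1.1.2 ∧ q.1.1.1 ∈ L))).map fun p => p.1.1.1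

theorem mem_growK {col : List (((α × β) × γ) × Fin 3)} {y : β} {a b : Fin 3} {L : List α} {x : α} :
    x ∈ growK col y a b L ↔ ∃ p ∈ col, p.1.1.1 = x ∧ p.2 = a ∧ (p.1.1.2 = y ∨
      ∃ q ∈ col, q.2 = b ∧ q.1.1.2 = p.1.1.2 ∧ q.1.1.1 ∈ L) := by
  simp only [growK, List.mem_map, List.mem_filter, decide_eq_true_eq]
  constructor
  · rintro ⟨p, ⟨h1, h2⟩, h3⟩; exact ⟨p, h1, h3, h2⟩
  · rintro ⟨p, h1, h3, h2⟩; exact ⟨p, ⟨h1, h2⟩, h3⟩

theorem grow_monoK {col : List (((α × β) × γ) × Fin 3)} {y : β} {a b : Fin 3} {L L' : List α}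
    (h : L ⊆ L') : growK col y a b L ⊆ growK col y a b L' := by
  intro x hx
  obtain ⟨p, h1, h2, h3, h4⟩ := mem_growK.1 hx
  refine mem_growK.2 ⟨p, h1, h2, h3, h4.imp_right ?_⟩
  rintro ⟨q, a1, a2, a3, a4⟩
  exact ⟨q, a1, a2, a3, h a4⟩

def compK (col : List (((α × β) × γ) × Fin 3)) (y : β) (a b : Fin 3) : List α :=
  (growK col y a b)^[col.length] []

theorem mem_compK {col : List (((α × β) × γ) × Fin 3)} {y : β} {a b : Fin 3} {x : α} :
    x ∈ compK col y a b ↔ ∃ p ∈ col, p.1.1.1 = x ∧ p.2 = a ∧ (p.1.1.2 = y ∨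
      ∃ q ∈ col, q.2 = b ∧ q.1.1.2 = p.1.1.2 ∧ q.1.1.1 ∈ compK col y a b) := by
  rw [← mem_growK]
  refine (iter_stable (growK col y a b) (col.map fun p => p.1.1.1) (fun _ _ => grow_monoK)
    (fun L x hx => ?_) col.length (by simp) x).symm
  obtain ⟨p, h1, h2, -⟩ := mem_growK.1 hx
  exact List.mem_map.2 ⟨p, h1, h2⟩

def recolK (L : List α) (a b : Fin 3) (p : ((α × β) × γ) × Fin 3) : ((α × β) × γ) × Fin 3 :=
  (p.1, if p.1.1.1 ∈ L then sw a b p.2 else p.2)

def freeLK (col : List (((α × β) × γ) × Fin 3)) (x : α) : Fin 3 :=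
  free ((col.filter fun p => decide (p.1.1.1 = x)).map fun p => p.2)

def freeRK (col : List (((α × β) × γ) × Fin 3)) (y : β) : Fin 3 :=
  free ((col.filter fun p => decide (p.1.1.2 = y)).map fun p => p.2)

def addEdgeK (e : (α × β) × γ) (col : List (((α × β) × γ) × Fin 3)) : List (((α × β) × γ) × Fin 3) :=
  (e, freeLK col e.1.1) :: col.map
    (recolK (compK col e.1.2 (freeLK col e.1.1) (freeRK col e.1.2)) (freeLK col e.1.1) (freeRK col e.1.2))

def colouringK (l : List ((α × β) × γ)) : List (((α × β) × γ) × Fin 3) := l.foldr addEdgeK []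

def ProperK (col : List (((α × β) × γ) × Fin 3)) : Prop :=
  ∀ p ∈ col, ∀ q ∈ col, (p.1.1.1 = q.1.1.1 ∨ p.1.1.2 = q.1.1.2) → p.2 = q.2 → p = q

theorem colouring_keysK (l : List ((α × β) × γ)) : (colouringK l).map (fun p => p.1) = l := by
  induction l with
  | nil => rfl
  | cons e l ih =>
    change (addEdgeK e (colouringK l)).map _ = _
    simp only [addEdgeK, List.map_cons, List.map_map]
    rw [← ih]
    congr 1
    rw [ih]
    exact ih

theorem proper_addEdgeK {col : List (((α × β) × γ) × Fin 3)} (e : (α × β) × γ) (H : ProperK col)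
    (ha : ∀ p ∈ col, p.1.1.1 = e.1.1 → p.2 ≠ freeLK col e.1.1)
    (hb : ∀ p ∈ col, p.1.1.2 = e.1.2 → p.2 ≠ freeRK col e.1.2) : ProperK (addEdgeK e col) := by
  set a := freeLK col e.1.1
  set b := freeRK col e.1.2
  set L := compK col e.1.2 a b with hL
  have mixed : ∀ p ∈ col, ∀ q ∈ col, p.1.1.1 ∈ L → q.1.1.1 ∉ L → p.1.1.2 = q.1.1.2 → sw a b p.2 ≠ q.2 := by
    intro p hp q hq h1 h2 h3 h4
    have hne : p.2 ≠ q.2 := fun h => h2 (H p hp q hq (.inr h3) h ▸ h1)
    rcases sw_ne h4 hne with ⟨c1, c2⟩ | ⟨c1, c2⟩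
    · obtain ⟨p', hp', d1, d2, d3⟩ := mem_compK.1 h1
      have : p' = p := H p' hp' p hp (.inl d1) (d2.trans c1.symm)
      subst this
      rcases d3 with d3 | ⟨q', hq', e1, e2, e3⟩
      · exact hb q hq (h3.symm.trans d3) c2
      · have : q' = q := H q' hq' q hq (.inr (e2.trans h3)) (e1.trans c2.symm)
        subst this
        exact h2 e3
    · exact h2 (mem_compK.2 ⟨q, hq, rfl, c2, .inr ⟨p, hp, c1, h3, h1⟩⟩)
  have new : ∀ p ∈ col, (p.1.1.1 = e.1.1 ∨ p.1.1.2 = e.1.2) → (recolK L a b p).2 ≠ a := by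
    intro p hp h1 h2
    simp only [recolK] at h2
    rcases h1 with h1 | h1
    · split_ifs at h2 with h3
      · obtain ⟨p', hp', d1, d2, -⟩ := mem_compK.1 h3
        exact ha p' hp' (d1.trans h1) d2
      · exact ha p hp h1 h2
    · split_ifs at h2 with h3
      · exact hb p hp h1 (sw_eq_left h2)
      · exact h3 (mem_compK.2 ⟨p, hp, rfl, h2, .inl h1⟩)
  intro p hp q hq h1 h2
  simp only [addEdgeK, List.mem_cons, List.mem_map] at hp hq
  rcases hp with rfl | ⟨p, hp, rfl⟩ <;> rcases hq with rfl | ⟨q, hq, rfl⟩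
  · rfl
  · exact (new q hq (h1.imp Eq.symm Eq.symm) h2.symm).elim
  · exact (new p hp h1 h2).elim
  · congr 1
    simp only [recolK] at h1 h2
    split_ifs at h2 with h3 h4 h4
    · exact H p hp q hq h1 (sw_inj h2)
    · rcases h1 with h1 | h1
      · exact (h4 (h1 ▸ h3)).elim
      · exact (mixed p hp q hq h3 h4 h1 h2).elim
    · rcases h1 with h1 | h1
      · exact (h3 (h1 ▸ h4)).elim
      · exact (mixed q hq p hp h4 h3 h1.symm h2.symm).elim
    · exact H p hp q hq h1 h2

theorem proper_colouringK (l : List ((α × β) × γ))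
    (h1 : ∀ x, (l.filter fun p => decide (p.1.1 = x)).length ≤ 3)
    (h2 : ∀ y, (l.filter fun p => decide (p.1.2 = y)).length ≤ 3) : ProperK (colouringK l) := by
  induction l with
  | nil => intro p hp; simp [colouringK] at hp
  | cons e l ih =>
    have ih := ih (fun x => ((List.sublist_cons_self e l).filter _).length_le.trans (h1 x))
      (fun y => ((List.sublist_cons_self e l).filter _).length_le.trans (h2 y))
    have k := colouring_keysK l
    refine proper_addEdgeK e ih (fun p hp e1 e2 => ?_) (fun p hp e1 e2 => ?_)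
    · refine free_not_mem (l := ((colouringK l).filter fun p => decide (p.1.1.1 = e.1.1)).map
        fun p => p.2) ?_ (List.mem_map.2 ⟨p, List.mem_filter.2 ⟨hp, by simpa using e1⟩, e2⟩)
      have := h1 e.1.1
      rw [List.filter_cons_of_pos (by simp), ← k, List.filter_map] at this
      simp only [List.length_cons, List.length_map] at this ⊢
      exact Nat.le_of_succ_le_succ this
    · refine free_not_mem (l := ((colouringK l).filter fun p => decide (p.1.1.2 = e.1.2)).map
        fun p => p.2) ?_ (List.mem_map.2 ⟨p, List.mem_filter.2 ⟨hp, by simpa using e1⟩, e2⟩)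
      have := h2 e.1.2
      rw [List.filter_cons_of_pos (by simp), ← k, List.filter_map] at this
      simp only [List.length_cons, List.length_map] at this ⊢
      exact Nat.le_of_succ_le_succ this

/-- the colour of an edge -/
def colOfK (l : List ((α × β) × γ)) (e : (α × β) × γ) : Fin 3 :=
  (((colouringK l).find? fun p => decide (p.1 = e)).map fun p => p.2).getD 0

theorem colOf_memK {l : List ((α × β) × γ)} {e : (α × β) × γ} (h : e ∈ l) : (e, colOfK l e) ∈ colouringK l := by
  rw [← colouring_keysK l] at h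
  obtain ⟨p, hp, rfl⟩ := List.mem_map.1 h
  unfold colOfK
  rcases hf : (colouringK l).find? fun q => decide (q.1 = p.1) with _ | q
  · have := List.find?_eq_none.1 hf p hp
    simp at this
  · have h1 := List.mem_of_find?_eq_some hf
    have h2 := List.find?_some hf
    simp only [decide_eq_true_eq] at h2
    rw [hf]
    simp only [Option.map_some, Option.getD_some]
    rw [← h2]
    exact h1

theorem free_ne_two {l : List (Fin 3)} (h : l.length ≤ 1) : free l ≠ 2 := by
  unfold free
  split_ifs with h0 h1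
  · exfalso
    rcases l with _ | ⟨x, _ | ⟨y, l⟩⟩
    · simp at h0
    · simp only [List.mem_singleton] at h0 h1
      exact absurd (h0.trans h1.symm) (by decide)
    · simp at h
  · decide
  · decide

theorem sw_ne_two {a b c : Fin 3} (ha : a ≠ 2) (hb : b ≠ 2) (hc : c ≠ 2) : sw a b c ≠ 2 := by
  revert a b c; decide

theorem two_colours (l : List ((α × β) × γ))
    (h1 : ∀ x, (l.filter fun p => decide (p.1.1 = x)).length ≤ 2)
    (h2 : ∀ y, (l.filter fun p => decide (p.1.2 = y)).length ≤ 2) :
    ∀ p ∈ colouringK l, p.2 ≠ 2 := by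
  induction l with
  | nil => intro p hp; simp [colouringK] at hp
  | cons e l ih =>
    have ih := ih (fun x => ((List.sublist_cons_self e l).filter _).length_le.trans (h1 x))
      (fun y => ((List.sublist_cons_self e l).filter _).length_le.trans (h2 y))
    have k := colouring_keysK l
    have a : freeLK (colouringK l) e.1.1 ≠ 2 := by
      refine free_ne_two ?_
      have := h1 e.1.1
      rw [List.filter_cons_of_pos (by simp), ← k, List.filter_map] at this
      simp only [List.length_cons, List.length_map] at this ⊢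
      exact Nat.le_of_succ_le_succ this
    have b : freeRK (colouringK l) e.1.2 ≠ 2 := by
      refine free_ne_two ?_
      have := h2 e.1.2
      rw [List.filter_cons_of_pos (by simp), ← k, List.filter_map] at this
      simp only [List.length_cons, List.length_map] at this ⊢
      exact Nat.le_of_succ_le_succ this
    intro p hp
    change p ∈ addEdgeK e (colouringK l) at hp
    simp only [addEdgeK, List.mem_cons, List.mem_map] at hp
    rcases hp with rfl | ⟨q, hq, rfl⟩
    · exact a
    · simp only [recolK]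
      split_ifs
      · exact sw_ne_two a b (ih q hq)
      · exact ih q hq

theorem colOfK_spec {l : List ((α × β) × γ)}
    (h1 : ∀ x, (l.filter fun p => decide (p.1.1 = x)).length ≤ 2)
    (h2 : ∀ y, (l.filter fun p => decide (p.1.2 = y)).length ≤ 2) :
    (∀ e ∈ l, colOfK l e ≠ 2) ∧ ∀ e ∈ l, ∀ e' ∈ l, (e.1.1 = e'.1.1 ∨ e.1.2 = e'.1.2) →
      colOfK l e = colOfK l e' → e = e' :=
  ⟨fun _ he => two_colours l h1 h2 _ (colOf_memK he), fun _ he _ he' h hc =>
    congrArg Prod.fst (proper_colouringK l (fun x => (h1 x).trans (by omega))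
      (fun x => (h2 x).trans (by omega)) _ (colOf_memK he) _ (colOf_memK he') h hc)⟩

end

section
variable {α : Type} [Enc α]

abbrev ItK := ((ℕ × Bool) × ℕ × Bool) × ℕ
abbrev ColK := List (ItK × Fin 3)

@[fun_prop] theorem pt_growK {c : α → ColK} {y : α → ℕ × Bool} {a b : α → Fin 3}
    {L : α → List (ℕ × Bool)} (hc : PT c) (hy : PT y) (ha : PT a) (hb : PT b) (hL : PT L) :
    PT fun x => growK (c x) (y x) (a x) (b x) (L x) := by
  unfold growK; fun_prop

theorem sz_growK (c : ColK) (y : ℕ × Bool) (a b : Fin 3) (L : List (ℕ × Bool)) :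
    sz (growK c y a b L) ≤ sz c := by
  unfold growK
  refine (sz_map_le _ _ 0 fun x => ?_).trans ?_
  · obtain ⟨⟨⟨x, y⟩, w⟩, z⟩ := x
    simp only [sz_pair]; omega
  · simpa using sz_le_of_sublist List.filter_sublist

@[fun_prop] theorem pt_compK {c : α → ColK} {y : α → ℕ × Bool} {a b : α → Fin 3}
    (hc : PT c) (hy : PT y) (ha : PT a) (hb : PT b) :
    PT fun x => compK (c x) (y x) (a x) (b x) := by
  unfold compK
  refine PT.iterate (step := fun x => growK (c x) (y x) (a x) (b x)) (by fun_prop) (by fun_prop)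
    (by fun_prop) hc.pb fun x i _ => ?_
  cases i with
  | zero => simp
  | succ i => rw [iterate_succ_apply']; exact sz_growK ..

@[fun_prop] theorem pt_addEdgeK {e : α → ItK} {c : α → ColK} (he : PT e) (hc : PT c) :
    PT fun x => addEdgeK (e x) (c x) := by
  unfold addEdgeK recolK freeLK freeRK; fun_prop

theorem sz_colK (c : ColK) : sz c ≤ sz (c.map fun p => p.1) + 3 * c.length := by
  induction c with
  | nil => simp
  | cons b l ih =>
    obtain ⟨x, y⟩ := b
    have := sz_fin3 y
    simp only [List.map_cons, sz_cons, List.length_cons, Nat.mul_succ, sz_pair]; omega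

@[fun_prop] theorem pt_colouringK {l : α → List ItK} (hl : PT l) :
    PT fun x => colouringK (l x) := by
  unfold colouringK
  refine PT.foldr (f := fun _ => addEdgeK) hl (by fun_prop) (by fun_prop)
    ((PB.const 4).mul hl.pb) fun x i => ?_
  have h1 := sz_colK (colouringK ((l x).drop i))
  have h2 := colouring_keysK ((l x).drop i)
  have h3 := congrArg List.length h2
  rw [List.length_map] at h3
  rw [h2, h3] at h1
  have h4 : sz ((l x).drop i) ≤ sz (l x) := sz_le_of_sublist (List.drop_sublist _ _)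
  have h5 := length_le_sz ((l x).drop i)
  change sz (colouringK _) ≤ _
  omega

@[fun_prop] theorem pt_colOfK {l : α → List ItK} {e : α → ItK} (hl : PT l) (he : PT e) :
    PT fun x => colOfK (l x) (e x) := by
  unfold colOfK; fun_prop

end

end Pool.Agent.Lib.MP_6b7ffe_lc
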