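import Pool.Agent.Lib.MP_6b7ffe_lc.Base

set_option autoImplicit false

namespace Pool.Agent.Lib.MP_6b7ffe_lc

open Function Pool.Agent.Lib.Complexity

def nm (p : ℕ × ℕ) : ℕ × ℕ := (min p.1 p.2, max p.1 p.2)

theorem nm_swap (p : ℕ × ℕ) : nm p.swap = nm p := by
  simp [nm, min_comm, max_comm]

theorem nm_eq {p q : ℕ × ℕ} (h : nm p = nm q) : p = q ∨ p = q.swap := by
  obtain ⟨a, b⟩ := p
  obtain ⟨c, d⟩ := q
  simp only [nm, Prod.mk.injEq, Prod.swap_prod_mk] at h ⊢
  omega

def cap (h : List ℕ) (v : ℕ) : ℕ := h.getD v 0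

def fwd (n : ℕ) (h : List ℕ) (D : Arcs) (L : List ℕ) : List ℕ :=
  (List.range n).filter fun x => decide (cap h x < outd D x ∨ ∃ p ∈ D, p.1 ∈ L ∧ p.2 = x)

def rch (n : ℕ) (h : List ℕ) (D : Arcs) (k : ℕ) : List ℕ := (fwd n h D)^[k] []

def cand (n : ℕ) (h : List ℕ) (D : Arcs) (k : ℕ) : Option (ℕ × ℕ) :=
  D.find? fun p => decide (p.1 ∈ rch n h D k ∧ outd D p.2 < cap h p.2)

def lvl (n : ℕ) (h : List ℕ) (D : Arcs) : Option ℕ :=
  (List.range (n + 1)).find? fun k =>
    decide (∃ p ∈ D, p.1 ∈ rch n h D k ∧ outd D p.2 < cap h p.2)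

def flp (p : ℕ × ℕ) (D : Arcs) : Arcs := (p.2, p.1) :: D.filter fun q => decide (q ≠ p)

def rstep (n : ℕ) (h : List ℕ) (D : Arcs) : Arcs :=
  ((lvl n h D).bind (cand n h D)).elim D fun p => flp p D

def red (n : ℕ) (h : List ℕ) (D : Arcs) : Arcs := (rstep n h)^[(D.length + 1) * (n + 1)] D

variable {n : ℕ} {h : List ℕ} {D : Arcs}

theorem mem_fwd {L : List ℕ} {x : ℕ} :
    x ∈ fwd n h D L ↔ x < n ∧ (cap h x < outd D x ∨ ∃ p ∈ D, p.1 ∈ L ∧ p.2 = x) := by
  simp only [fwd, List.mem_filter, List.mem_range, decide_eq_true_eq]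

theorem fwd_mono {L L' : List ℕ} (hL : L ⊆ L') : fwd n h D L ⊆ fwd n h D L' := by
  intro x hx
  obtain ⟨h1, h2⟩ := mem_fwd.1 hx
  refine mem_fwd.2 ⟨h1, h2.imp_right ?_⟩
  rintro ⟨p, a, b, c⟩
  exact ⟨p, a, hL b, c⟩

theorem rch_succ (k : ℕ) : rch n h D (k + 1) = fwd n h D (rch n h D k) := iterate_succ_apply' _ _ _

theorem rch_step (k : ℕ) : rch n h D k ⊆ rch n h D (k + 1) := by
  induction k with
  | zero => simp [rch]
  | succ k ih => rw [rch_succ, rch_succ (k + 1)]; exact fwd_mono ih

theorem rch_mono {j k : ℕ} (hjk : j ≤ k) : rch n h D j ⊆ rch n h D k := by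
  induction hjk with
  | refl => exact List.Subset.refl _
  | step _ ih => exact List.Subset.trans ih (rch_step _)

theorem rch_fix (x : ℕ) : x ∈ fwd n h D (rch n h D n) ↔ x ∈ rch n h D n :=
  iter_stable (fwd n h D) (List.range n) (fun _ _ => fwd_mono)
    (fun _ => List.filter_subset_self _) n (by simp) x

theorem perm_flp {p : ℕ × ℕ} (hn : D.Nodup) (hp : p ∈ D) :
    D.Perm (p :: D.filter fun q => decide (q ≠ p)) := by
  have := hn.erase_eq_filter p
  have h2 : (D.filter fun q => decide (q ≠ p)) = D.erase p := by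
    rw [this]; exact List.filter_congr fun q _ => by by_cases e : q = p <;> simp [e]
  rw [h2]
  exact List.perm_cons_erase hp

theorem countP_flp {p : ℕ × ℕ} (hn : D.Nodup) (hp : p ∈ D) (P : ℕ × ℕ → Bool) :
    (flp p D).countP P + (if P p then 1 else 0) = D.countP P + (if P (p.2, p.1) then 1 else 0) := by
  rw [(perm_flp hn hp).countP_eq, flp, List.countP_cons, List.countP_cons]
  omega

theorem outd_flp {p : ℕ × ℕ} (hn : D.Nodup) (hp : p ∈ D) (v : ℕ) :
    outd (flp p D) v + (if p.1 = v then 1 else 0) = outd D v + (if p.2 = v then 1 else 0) := by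
  have := countP_flp hn hp fun q => decide (q.1 = v)
  simpa [outd] using this

theorem nm_flp {p : ℕ × ℕ} (hn : D.Nodup) (hp : p ∈ D) : ((flp p D).map nm).Perm (D.map nm) := by
  refine List.Perm.trans ?_ ((perm_flp hn hp).map nm).symm
  have : nm (p.2, p.1) = nm p := nm_swap p
  simp [flp, this]

theorem mem_flp {p q : ℕ × ℕ} : q ∈ flp p D ↔ q = (p.2, p.1) ∨ (q ∈ D ∧ q ≠ p) := by
  simp [flp]

theorem lvl_some {k : ℕ} (hk : lvl n h D = some k) :
    k ≤ n ∧ (∃ p, cand n h D k = some p ∧ p ∈ D ∧ p.1 ∈ rch n h D k ∧ outd D p.2 < cap h p.2) ∧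
      ∀ j < k, ∀ p ∈ D, p.1 ∈ rch n h D j → cap h p.2 ≤ outd D p.2 := by
  obtain ⟨h1, h2, h3⟩ := List.find?_range_eq_some.1 hk
  refine ⟨by simpa [Nat.lt_succ_iff] using h2, ?_, fun j hj p hp hr => ?_⟩
  · obtain ⟨p, hp, hq⟩ := of_decide_eq_true h1
    rcases hc : cand n h D k with _ | q
    · have := List.find?_eq_none.1 hc p hp
      simp [hq] at this
    · have a := List.find?_some hc
      exact ⟨q, rfl, List.mem_of_find?_eq_some hc, of_decide_eq_true a⟩
  · have := h3 j hj
    simp only [Bool.not_eq_eq_eq_not, Bool.not_true, decide_eq_false_iff_not] at this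
    by_contra hc
    exact this ⟨p, hp, hr, by omega⟩

theorem lvl_le {j : ℕ} {p : ℕ × ℕ} (hj : j ≤ n) (hp : p ∈ D) (h1 : p.1 ∈ rch n h D j)
    (h2 : outd D p.2 < cap h p.2) : ∃ k ≤ j, lvl n h D = some k := by
  rcases hl : lvl n h D with _ | k
  · have := List.find?_eq_none.1 hl j (by simp; omega)
    simp only [decide_eq_true_eq] at this
    exact (this ⟨p, hp, h1, h2⟩).elim
  · refine ⟨k, ?_, rfl⟩
    by_contra hc
    have := (lvl_some hl).2.2 j (by omega) p hp h1
    omega

theorem not_free {k : ℕ} (hk : lvl n h D = some k) {j x : ℕ} (hj : j ≤ k) (hx : x ∈ rch n h D j) :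
    cap h x ≤ outd D x := by
  cases j with
  | zero => simp [rch] at hx
  | succ j =>
    rw [rch_succ] at hx
    rcases (mem_fwd.1 hx).2 with h1 | ⟨p, a, b, rfl⟩
    · exact h1.le
    · exact (lvl_some hk).2.2 j (by omega) p a b

def exc (n : ℕ) (h : List ℕ) (D : Arcs) : ℕ := ∑ v ∈ Finset.range n, (outd D v - cap h v)

theorem sum_outd (S : Finset ℕ) (D : Arcs) :
    ∑ v ∈ S, outd D v = D.countP fun p => decide (p.1 ∈ S) := by
  induction D with
  | nil => simp [outd]
  | cons p D ih =>
    rw [List.countP_cons, ← ih]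
    simp only [outd, List.countP_cons, Finset.sum_add_distrib, decide_eq_true_eq]
    congr 1
    simp

theorem exc_le : exc n h D ≤ D.length :=
  (Finset.sum_le_sum fun _ _ => Nat.sub_le _ _).trans
    ((sum_outd _ D).trans_le List.countP_le_length)

/-- what one step does -/
theorem step_cases (hn : D.Nodup) {k : ℕ} (hk : lvl n h D = some k) :
    ∃ p ∈ D, rstep n h D = flp p D ∧ p.1 ∈ rch n h D k ∧ outd D p.2 < cap h p.2 ∧
      cap h p.1 ≤ outd D p.1 ∧
      ((cap h p.1 < outd D p.1 ∧ exc n h (flp p D) < exc n h D) ∨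
        (exc n h (flp p D) = exc n h D ∧ ∃ k' < k, lvl n h (flp p D) = some k' ∧
          ∀ q ∈ flp p D, q.1 ∈ rch n h (flp p D) k' → outd (flp p D) q.2 < cap h q.2 →
            q.2 = p.1)) := by
  obtain ⟨hkn, ⟨p, hc, hp, h1, h2⟩, hmin⟩ := lvl_some hk
  have h3 := not_free hk le_rfl h1
  have hne : p.1 ≠ p.2 := fun e => by rw [e] at h3; omega
  have ho := outd_flp hn hp
  have hp1 : p.1 < n := by
    cases k with
    | zero => simp [rch] at h1
    | succ k => rw [rch_succ] at h1; exact (mem_fwd.1 h1).1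
  refine ⟨p, hp, by simp [rstep, hk, hc], h1, h2, h3, ?_⟩
  rcases h3.lt_or_eq with h4 | h4
  · left
    refine ⟨h4, Finset.sum_lt_sum (fun v _ => ?_) ⟨p.1, Finset.mem_range.2 hp1, ?_⟩⟩
    · have := ho v
      split_ifs at this with a b b
      · omega
      · omega
      · subst b; omega
      · omega
    · have := ho p.1
      rw [if_pos rfl, if_neg hne.symm] at this
      omega
  · right
    have hov : ∀ v, cap h v < outd (flp p D) v ↔ cap h v < outd D v := by
      intro v
      have := ho v
      split_ifs at this with a b b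
      · omega
      · subst a; omega
      · subst b; omega
      · omega
    have hr : ∀ j ≤ k, ∀ z, z ∈ rch n h (flp p D) j ↔ z ∈ rch n h D j := by
      intro j
      induction j with
      | zero => intro _ z; simp [rch]
      | succ j ih =>
        intro hj z
        rw [rch_succ, rch_succ, mem_fwd, mem_fwd, hov]
        refine and_congr_right fun hz => or_congr_right ⟨?_, ?_⟩
        · rintro ⟨q, a, b, c⟩
          rw [ih (by omega)] at b
          rcases mem_flp.1 a with a | a
          · subst a
            have := not_free hk (by omega : j ≤ k) b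
            simp only at this; omega
          · exact ⟨q, a.1, b, c⟩
        · rintro ⟨q, a, b, c⟩
          refine ⟨q, mem_flp.2 (.inr ⟨a, ?_⟩), (ih (by omega) _).2 b, c⟩
          rintro rfl
          have := hmin j (by omega) q a b
          omega
    refine ⟨Finset.sum_congr rfl fun v _ => ?_, ?_⟩
    · have := ho v
      split_ifs at this with a b b
      · omega
      · subst a; omega
      · subst b; omega
      · omega
    · obtain ⟨j, rfl⟩ : ∃ j, k = j + 1 := by
        cases k with
        | zero => simp [rch] at h1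
        | succ k => exact ⟨k, rfl⟩
      rw [rch_succ] at h1
      rcases (mem_fwd.1 h1).2 with h5 | ⟨q, a, b, c⟩
      · omega
      have hq : q ∈ flp p D := mem_flp.2 (.inr ⟨a, by rintro rfl; exact hne c.symm⟩)
      obtain ⟨k', hk1, hk2⟩ := lvl_le (h := h) (by omega : j ≤ n) hq ((hr j (by omega) _).2 b) (by
        have := ho p.1
        rw [if_pos rfl, if_neg hne.symm] at this
        rw [c]; omega)
      refine ⟨k', by omega, hk2, fun r hr1 hr2 hr3 => ?_⟩
      rw [hr k' (by omega)] at hr2
      rcases mem_flp.1 hr1 with e | e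
      · rw [e]
      · have := hmin k' (by omega) r e.1 hr2
        have h6 := ho r.2
        by_contra hc
        rw [if_neg (Ne.symm hc)] at h6
        split_ifs at h6 <;> omega

structure RInv (n : ℕ) (h : List ℕ) (D0 D : Arcs) : Prop where
  perm : (D.map nm).Perm (D0.map nm)
  wi : Within n D
  up : ∀ v, outd D v ≤ max (outd D0 v) (cap h v)
  lo : ∀ v, min (outd D0 v) (cap h v) ≤ outd D v ∨ (min (outd D0 v) (cap h v) ≤ outd D v + 1 ∧
    ∃ k, lvl n h D = some k ∧
      ∀ q ∈ D, q.1 ∈ rch n h D k → outd D q.2 < cap h q.2 → q.2 = v)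

theorem rstep_none (hk : lvl n h D = none) : rstep n h D = D := by simp [rstep, hk]

theorem RInv.step {D0 : Arcs} (h0 : (D0.map nm).Nodup) (H : RInv n h D0 D) :
    RInv n h D0 (rstep n h D) := by
  rcases hk : lvl n h D with _ | k
  · rwa [rstep_none hk]
  have hn : D.Nodup := (H.perm.nodup_iff.2 h0).of_map _
  obtain ⟨p, hp, e, h1, h2, h3, h4⟩ := step_cases hn hk
  have ho := outd_flp hn hp
  have hne : p.1 ≠ p.2 := fun e => by rw [e] at h3; omega
  rw [e]
  refine ⟨(nm_flp hn hp).trans H.perm, fun q hq => ?_, fun v => ?_, fun v => ?_⟩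
  · rcases mem_flp.1 hq with a | a
    · have := H.wi p hp
      rw [a]; exact ⟨this.2.1, this.1, this.2.2.symm⟩
    · exact H.wi q a.1
  · have a := ho v
    have b := H.up v
    split_ifs at a with c d d
    · omega
    · omega
    · subst d; omega
    · omega
  · have a := ho v
    have b : min (outd D0 v) (cap h v) ≤ outd D v ∨
        (min (outd D0 v) (cap h v) ≤ outd D v + 1 ∧ p.2 = v) := by
      refine (H.lo v).imp_right ?_
      rintro ⟨b1, k', b2, b3⟩
      rw [hk] at b2
      cases b2
      exact ⟨b1, b3 p hp h1 h2⟩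
    by_cases c : p.1 = v
    · subst c
      rw [if_pos rfl, if_neg hne.symm] at a
      rcases h4 with ⟨h4, -⟩ | ⟨-, k', -, h5, h6⟩
      · left; omega
      · right
        refine ⟨?_, k', h5, h6⟩
        rcases b with b | b
        · omega
        · exact (hne b.2.symm).elim
    · left
      rw [if_neg c] at a
      rcases b with b | b
      · split_ifs at a <;> omega
      · rw [if_pos b.2] at a; omega

theorem RInv.iter (h0 : (D.map nm).Nodup) (hw : Within n D) (i : ℕ) :
    RInv n h D ((rstep n h)^[i] D) := by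
  induction i with
  | zero => exact ⟨List.Perm.refl _, hw, fun v => le_max_left _ _, fun v => .inl (min_le_left _ _)⟩
  | succ i ih => rw [iterate_succ_apply']; exact ih.step h0

theorem red_done (h0 : (D.map nm).Nodup) (hw : Within n D) : lvl n h (red n h D) = none := by
  have key : ∀ i, lvl n h ((rstep n h)^[i] D) = none ∨
      exc n h ((rstep n h)^[i] D) * (n + 1) + (lvl n h ((rstep n h)^[i] D)).getD 0 + i ≤
        D.length * (n + 1) + n := by
    intro i
    induction i with
    | zero =>
      rcases hk : lvl n h D with _ | k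
      · left; exact hk
      · right
        have a := (lvl_some hk).1
        have b := Nat.mul_le_mul_right (n + 1) (exc_le (n := n) (h := h) (D := D))
        simp only [iterate_zero, id, hk, Option.getD_some]; omega
    | succ i ih =>
      rw [iterate_succ_apply']
      set E := (rstep n h)^[i] D with hE
      rcases hk : lvl n h E with _ | k
      · left; rw [rstep_none hk, hk]
      rw [hk] at ih
      simp only [reduceCtorEq, Option.getD_some, false_or] at ih
      have hn : E.Nodup := ((RInv.iter (h := h) h0 hw i).perm.nodup_iff.2 h0).of_map _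
      obtain ⟨p, hp, e, h1, h2, h3, h4⟩ := step_cases hn hk
      rw [e]
      rcases h4 with ⟨-, h4⟩ | ⟨h4, k', h5, h6, -⟩
      · rcases hk' : lvl n h (flp p E) with _ | k'
        · left; rfl
        · right
          have a := (lvl_some hk').1
          have b := Nat.mul_le_mul_right (n + 1) (Nat.succ_le_of_lt h4)
          rw [Nat.succ_mul] at b
          simp only [Option.getD_some]; omega
      · right
        rw [h4, h6]
        simp only [Option.getD_some]; omega
  rcases key ((D.length + 1) * (n + 1)) with a | a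
  · exact a
  · rw [Nat.add_mul] at a; omega

theorem countP_nm {D D' : Arcs} (hp : (D'.map nm).Perm (D.map nm)) (P : ℕ × ℕ → Bool)
    (hP : ∀ p, P (nm p) = P p) : D'.countP P = D.countP P := by
  have a : ∀ E : Arcs, (E.map nm).countP P = E.countP P := fun E => by
    rw [List.countP_map]; exact List.countP_congr fun p _ => by simp [hP]
  rw [← a, ← a D, hp.countP_eq]

theorem ins_nm {D D' : Arcs} (hp : (D'.map nm).Perm (D.map nm)) (S : Finset ℕ) :
    ins D' S = ins D S :=
  countP_nm hp _ fun p => by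
    obtain ⟨a, b⟩ := p
    simp only [nm]
    rcases le_total a b with c | c
    · simp [c]
    · simp [c, and_comm]

theorem red_spec (h : List ℕ) (h0 : (D.map nm).Nodup) (hw : Within n D) :
    ((red n h D).map nm).Perm (D.map nm) ∧ Within n (red n h D) ∧
    (∀ v, outd (red n h D) v ≤ max (outd D v) (cap h v)) ∧
    (∀ v, min (outd D v) (cap h v) ≤ outd (red n h D) v) ∧
    ((∀ v, outd (red n h D) v ≤ cap h v) ∨
      ∃ S : Finset ℕ, S ⊆ Finset.range n ∧ ∑ v ∈ S, cap h v < ins D S) := by
  have H : RInv n h D (red n h D) := RInv.iter h0 hw _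
  have hd := red_done (h := h) h0 hw
  refine ⟨H.perm, H.wi, H.up, fun v => ?_, ?_⟩
  · rcases H.lo v with a | ⟨-, k, a, -⟩
    · exact a
    · rw [hd] at a; cases a
  set E := red n h D
  by_cases hc : ∀ v, outd E v ≤ cap h v
  · exact .inl hc
  right
  push Not at hc
  obtain ⟨v, hv⟩ := hc
  have hvn : v < n := by
    have : 0 < outd E v := by omega
    obtain ⟨p, hp, e⟩ := List.countP_pos_iff.1 this
    have := (H.wi p hp).1
    simp only [decide_eq_true_eq] at e; omega
  have hf := fun x => (rch_fix (n := n) (h := h) (D := E) x)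
  have nf : ∀ p ∈ E, p.1 ∈ rch n h E n → cap h p.2 ≤ outd E p.2 := by
    intro p hp h1
    by_contra hc
    obtain ⟨k, -, a⟩ := lvl_le (h := h) le_rfl hp h1 (by omega)
    rw [hd] at a; cases a
  refine ⟨(rch n h E n).toFinset, fun x hx => ?_, ?_⟩
  · exact Finset.mem_range.2 (mem_fwd.1 ((hf x).2 (List.mem_toFinset.1 hx))).1
  · rw [← ins_nm H.perm]
    have e1 : ins E (rch n h E n).toFinset = ∑ x ∈ (rch n h E n).toFinset, outd E x := by
      rw [sum_outd]
      refine List.countP_congr fun p hp => ?_
      simp only [List.mem_toFinset, decide_eq_true_eq, and_iff_left_iff_imp]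
      intro h1
      exact (hf _).1 (mem_fwd.2 ⟨(H.wi p hp).2.1, .inr ⟨p, hp, h1, rfl⟩⟩)
    rw [e1]
    refine Finset.sum_lt_sum (fun x hx => ?_) ⟨v, ?_, hv⟩
    · rcases (mem_fwd.1 ((hf x).2 (List.mem_toFinset.1 hx))).2 with a | ⟨p, a, b, rfl⟩
      · exact a.le
      · exact nf p a b
    · exact List.mem_toFinset.2 ((hf v).1 (mem_fwd.2 ⟨hvn, .inl hv⟩))

section
variable {α : Type} [Enc α] {n v k : α → ℕ} {h : α → List ℕ} {D : α → Arcs}

@[fun_prop] theorem pt_cap (hh : PT h) (hv : PT v) : PT fun x => cap (h x) (v x) := by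
  unfold cap; fun_prop

@[fun_prop] theorem pt_outd (hD : PT D) (hv : PT v) : PT fun x => outd (D x) (v x) := by
  unfold outd; fun_prop

@[fun_prop] theorem pt_nm {p : α → ℕ × ℕ} (hp : PT p) : PT fun x => nm (p x) := by
  unfold nm; fun_prop

@[fun_prop] theorem pt_rch (hn : PT n) (hh : PT h) (hD : PT D) (hk : PT k) :
    PT fun x => rch (n x) (h x) (D x) (k x) := by
  have hr : PT fun x => List.range (n x) := by fun_prop
  refine PT.iterate (step := fun x => fwd (n x) (h x) (D x)) hk (by fun_prop)
    (by unfold fwd; fun_prop) hr.pb fun x i _ => ?_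
  cases i with
  | zero => simp
  | succ i => rw [iterate_succ_apply']; exact sz_le_of_sublist List.filter_sublist

@[fun_prop] theorem pt_rstep (hn : PT n) (hh : PT h) (hD : PT D) :
    PT fun x => rstep (n x) (h x) (D x) := by
  unfold rstep lvl cand flp; fun_prop

theorem sz_flp {p : ℕ × ℕ} {D : Arcs} (hp : p ∈ D) : sz (flp p D) ≤ sz D := by
  have : ∀ D : Arcs, p ∈ D → sz p + sz (D.filter fun q => decide (q ≠ p)) + 1 ≤ sz D := by
    intro D hD
    induction D with
    | nil => simp at hD
    | cons q D ih =>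
      by_cases e : q = p
      · subst e
        have : sz (D.filter fun r => decide (r ≠ q)) ≤ sz D :=
          sz_le_of_sublist List.filter_sublist
        simp only [ne_eq, not_true_eq_false, decide_false, Bool.false_eq_true, not_false_eq_true,
          List.filter_cons_of_neg, sz_cons]
        simp only [ne_eq] at this
        omega
      · have := ih (by simpa [Ne.symm e] using hD)
        rw [List.filter_cons_of_pos (by simpa using e), sz_cons, sz_cons]
        omega
  have a := this D hp
  obtain ⟨x, y⟩ := p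
  simp only [flp, sz_cons, sz_pair] at a ⊢
  omega

theorem sz_rstep (n : ℕ) (h : List ℕ) (D : Arcs) : sz (rstep n h D) ≤ sz D := by
  unfold rstep
  rcases e : (lvl n h D).bind (cand n h D) with _ | p
  · simp
  · obtain ⟨k, -, e2⟩ := Option.bind_eq_some_iff.1 e
    exact sz_flp (List.mem_of_find?_eq_some e2)

theorem sz_red (n : ℕ) (h : List ℕ) (D : Arcs) : sz (red n h D) ≤ sz D := by
  unfold red
  generalize (D.length + 1) * (n + 1) = i
  induction i with
  | zero => simp
  | succ i ih => rw [iterate_succ_apply']; exact (sz_rstep ..).trans ih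

@[fun_prop] theorem pt_red (hn : PT n) (hh : PT h) (hD : PT D) :
    PT fun x => red (n x) (h x) (D x) := by
  refine PT.iterate (step := fun x => rstep (n x) (h x)) (by fun_prop) hD (by fun_prop) hD.pb
    fun x i _ => ?_
  induction i with
  | zero => simp
  | succ i ih => rw [iterate_succ_apply']; exact (sz_rstep ..).trans (ih (by omega))

end

end Pool.Agent.Lib.MP_6b7ffe_lc
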