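import Pool.Agent.Lib.MP_6b7ffe_lc.Algo
import Pool.Agent.Lib.Complexity.Bridge

set_option autoImplicit false

namespace Pool.Agent.Lib.MP_6b7ffe_lc

open Function Pool.Agent.Lib.Complexity

section
variable {α : Type} [Enc α]

abbrev Itm := (ℕ × Bool) × ℕ
abbrev Col := List (Itm × Fin 3)

@[fun_prop] theorem pt_fin_add {f g : α → Fin 3} (hf : PT f) (hg : PT g) : PT fun a => f a + g a :=
  (PT.of_fintype fun p : Fin 3 × Fin 3 => p.1 + p.2).comp (hf.prodMk hg)

@[fun_prop] theorem pt_free {f : α → List (Fin 3)} (hf : PT f) : PT fun a => free (f a) := by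
  unfold free; fun_prop

@[fun_prop] theorem pt_sw {f g h : α → Fin 3} (hf : PT f) (hg : PT g) (hh : PT h) :
    PT fun a => sw (f a) (g a) (h a) := by
  unfold sw; fun_prop

@[fun_prop] theorem pt_grow {c : α → Col} {y : α → ℕ} {a b : α → Fin 3} {L : α → List (ℕ × Bool)}
    (hc : PT c) (hy : PT y) (ha : PT a) (hb : PT b) (hL : PT L) :
    PT fun x => grow (c x) (y x) (a x) (b x) (L x) := by
  unfold grow; fun_prop

theorem sz_map_le {β γ : Type} [Enc β] [Enc γ] (l : List β) (f : β → γ) (C : ℕ)
    (h : ∀ x, sz (f x) ≤ sz x + C) : sz (l.map f) ≤ sz l + C * l.length := by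
  induction l with
  | nil => simp
  | cons b l ih =>
    have := h b
    simp only [List.map_cons, sz_cons, List.length_cons, Nat.mul_succ]; omega

theorem sz_grow (c : Col) (y : ℕ) (a b : Fin 3) (L : List (ℕ × Bool)) :
    sz (grow c y a b L) ≤ sz c := by
  unfold grow
  refine (sz_map_le _ _ 0 fun x => ?_).trans ?_
  · obtain ⟨⟨x, y⟩, z⟩ := x
    simp only [sz_pair]; omega
  · simpa using sz_le_of_sublist List.filter_sublist

@[fun_prop] theorem pt_comp {c : α → Col} {y : α → ℕ} {a b : α → Fin 3}
    (hc : PT c) (hy : PT y) (ha : PT a) (hb : PT b) :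
    PT fun x => comp (c x) (y x) (a x) (b x) := by
  unfold comp
  refine PT.iterate (step := fun x => grow (c x) (y x) (a x) (b x)) (by fun_prop) (by fun_prop)
    (by fun_prop) hc.pb fun x i _ => ?_
  cases i with
  | zero => simp
  | succ i => rw [iterate_succ_apply']; exact sz_grow ..

@[fun_prop] theorem pt_addEdge {e : α → Itm} {c : α → Col} (he : PT e) (hc : PT c) :
    PT fun x => addEdge (e x) (c x) := by
  unfold addEdge recol freeL freeR; fun_prop

theorem sz_fin3 (c : Fin 3) : sz c ≤ 2 := by
  have : sz c = sz c.1 := rfl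
  rw [this, sz_nat]; omega

theorem sz_col (c : Col) : sz c ≤ sz (c.map fun p => p.1) + 3 * c.length := by
  induction c with
  | nil => simp
  | cons b l ih =>
    obtain ⟨x, y⟩ := b
    have := sz_fin3 y
    simp only [List.map_cons, sz_cons, List.length_cons, Nat.mul_succ, sz_pair]; omega

@[fun_prop] theorem pt_colouring {l : α → List Itm} (hl : PT l) : PT fun x => colouring (l x) := by
  unfold colouring
  refine PT.foldr (f := fun _ => addEdge) hl (by fun_prop) (by fun_prop)
    ((PB.const 4).mul hl.pb) fun x i => ?_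
  have h1 := sz_col (colouring ((l x).drop i))
  have h2 := colouring_keys ((l x).drop i)
  have h3 := congrArg List.length h2
  rw [List.length_map] at h3
  rw [h2, h3] at h1
  have h4 : sz ((l x).drop i) ≤ sz (l x) := sz_le_of_sublist (List.drop_sublist _ _)
  have h5 := length_le_sz ((l x).drop i)
  change sz (colouring _) ≤ _
  omega

@[fun_prop] theorem pt_colOf {l : α → List Itm} {e : α → Itm} (hl : PT l) (he : PT e) :
    PT fun x => colOf (l x) (e x) := by
  unfold colOf; fun_prop

variable {A : α → Mat} {u v : α → ℕ} {i : α → Fin 3}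

@[fun_prop] theorem pt_adj (hA : PT A) (hu : PT u) (hv : PT v) :
    PT fun x => adj (A x) (u x) (v x) := by
  unfold adj; fun_prop

@[fun_prop] theorem pt_peel {R : α → List ℕ} (hA : PT A) (hR : PT R) :
    PT fun x => peel (A x) (R x) := by
  unfold peel; fun_prop

@[fun_prop] theorem pt_rem (hA : PT A) (hu : PT u) : PT fun x => rem (A x) (u x) := by
  have h : PT fun x => List.range (A x).length := by fun_prop
  exact PT.iterate (step := fun x => peel (A x)) hu h (by fun_prop) h.pb fun x i _ =>
    sz_le_of_sublist (rem_sub i)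

@[fun_prop] theorem pt_lev (hA : PT A) (hu : PT u) : PT fun x => lev (A x) (u x) := by
  unfold lev; fun_prop

@[fun_prop] theorem pt_key (hA : PT A) (hu : PT u) : PT fun x => key (A x) (u x) := by
  unfold key; fun_prop

@[fun_prop] theorem pt_tm (hA : PT A) (hu : PT u) : PT fun x => tm (A x) (u x) := by
  unfold tm; fun_prop

@[fun_prop] theorem pt_par (hA : PT A) (hu : PT u) : PT fun x => par (A x) (u x) := by
  unfold par; fun_prop

@[fun_prop] theorem pt_chi (hA : PT A) (hu : PT u) : PT fun x => chi (A x) (u x) := by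
  unfold chi; fun_prop

@[fun_prop] theorem pt_grp (hA : PT A) (hu : PT u) (hv : PT v) :
    PT fun x => grp (A x) (u x) (v x) := by
  unfold grp; fun_prop

@[fun_prop] theorem pt_items (hA : PT A) : PT fun x => items (A x) := by
  unfold items allItems isItem; fun_prop

@[fun_prop] theorem pt_fc (hA : PT A) (hu : PT u) (hv : PT v) :
    PT fun x => fc (A x) (u x) (v x) := by
  unfold fc; fun_prop

@[fun_prop] theorem pt_chir (hA : PT A) (hu : PT u) : PT fun x => chir (A x) (u x) := by
  unfold chir; fun_prop

@[fun_prop] theorem pt_port (hA : PT A) (hu : PT u) (hv : PT v) :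
    PT fun x => port (A x) (u x) (v x) := by
  unfold port; fun_prop

@[fun_prop] theorem pt_nxt (hA : PT A) (hi : PT i) (hv : PT v) :
    PT fun x => nxt (A x) (i x) (v x) := by
  unfold nxt; fun_prop

theorem sstep_le (A : Mat) (i : Fin 3) (s : ℕ × Bool) : (sstep A i s).1 ≤ max s.1 A.length := by
  unfold sstep
  rcases h : nxt A i s.1 with _ | a
  · simp
  · have := (mem_par.1 (List.mem_of_find?_eq_some h)).1
    simp only [Option.elim_some]; omega

@[fun_prop] theorem pt_sgn (hA : PT A) (hi : PT i) (hv : PT v) :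
    PT fun x => sgn (A x) (i x) (v x) := by
  unfold sgn
  refine PT.snd (PT.iterate (step := fun x => sstep (A x) (i x)) (by fun_prop) (by fun_prop)
    (by unfold sstep; fun_prop) (B := fun x => v x + (A x).length + 2)
    ((hv.pb_nat.add hA.length.pb_nat).add (PB.const 2)) fun x j _ => ?_)
  have h : ∀ j, ((sstep (A x) (i x))^[j] (v x, false)).1 ≤ max (v x) (A x).length := by
    intro j
    induction j with
    | zero => simp
    | succ j ih =>
      rw [iterate_succ_apply']
      have := sstep_le (A x) (i x) ((sstep (A x) (i x))^[j] (v x, false))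
      omega
  have h1 := h j
  have h2 := sz_bool ((sstep (A x) (i x))^[j] (v x, false)).2
  rw [sz_prod, sz_nat]
  omega

@[fun_prop] theorem pt_crd (hA : PT A) (hv : PT v) (hi : PT i) :
    PT fun x => crd (A x) (v x) (i x) := by
  unfold crd; fun_prop

theorem pt_draw : PT draw := by
  unfold draw posn bnd; fun_prop

end

theorem draw_poly : N68a2faeb.IsPolyTime draw :=
  isPolyTime_of_rep pt_draw fun a => by
    have e1 : (Rep.up a : Mat) = a := by
      rw [up_list]; exact (List.map_congr_left fun l _ => up_str l).trans (List.map_id' _)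
    have e2 : ∀ l : List (ℤ × ℤ × ℤ), (Rep.down l : List (ℤ × ℤ × ℤ)) = l := fun l => by
      rw [down_list]; exact (List.map_congr_left fun l _ => rfl).trans (List.map_id' _)
    rw [e1, down_prod, e2, down_list]
    exact Prod.ext rfl ((List.map_congr_left fun l _ => e2 l).trans (List.map_id' _))

theorem good_of {n : ℕ} (G : SimpleGraph (Fin n)) [DecidableRel G.Adj] (hd : G.maxDegree ≤ 6)
    (hg : ∀ S : Finset (Fin n), S.Nonempty → ∃ v ∈ S, (S.filter (G.Adj v)).card ≤ 3) :
    Good (List.ofFn fun u => List.ofFn fun v => decide (G.Adj u v)) := by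
  set A : Mat := List.ofFn fun u => List.ofFn fun v => decide (G.Adj u v) with hA
  have hn : A.length = n := by simp [hA]
  have ha : ∀ u v (hu : u < n) (hv : v < n), adj A u v = decide (G.Adj ⟨u, hu⟩ ⟨v, hv⟩) := by
    intro u v hu hv
    simp [adj, hA, hu, hv]
  have cnt : ∀ (R : List ℕ) (v : Fin n), R.Sublist (List.range n) →
      (R.countP fun u => adj A v u) ≤
        ((Finset.univ.filter fun u : Fin n => u.1 ∈ R).filter (G.Adj v)).card := by
    intro R v hR
    rw [List.countP_eq_length_filter, ← List.toFinset_card_of_nodup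
      ((List.nodup_range.sublist hR).filter _)]
    refine le_trans (Finset.card_le_card (t := ((Finset.univ.filter fun u : Fin n =>
      u.1 ∈ R).filter (G.Adj v)).image Fin.val) fun u hu => ?_) Finset.card_image_le
    obtain ⟨h1, h2⟩ := List.mem_filter.1 (List.mem_toFinset.1 hu)
    have h3 : u < n := by simpa using hR.subset h1
    rw [ha v u v.2 h3] at h2
    exact Finset.mem_image.2 ⟨⟨u, h3⟩, by simpa [h1] using h2, rfl⟩
  refine ⟨fun u v hu hv => ?_, fun u hu => ?_, fun v hv => ?_, fun R hR hne => ?_⟩
  · rw [hn] at hu hv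
    rw [ha u v hu hv, ha v u hv hu]; simp [G.adj_comm]
  · rw [hn] at hu
    rw [ha u u hu hu]; simp
  · rw [hn] at hv ⊢
    refine (cnt _ ⟨v, hv⟩ (List.Sublist.refl _)).trans (le_trans ?_
      ((G.degree_le_maxDegree ⟨v, hv⟩).trans hd))
    exact Finset.card_le_card fun u hu => by simpa using (Finset.mem_filter.1 hu).2
  · rw [hn] at hR
    obtain ⟨x, hx⟩ := List.exists_mem_of_ne_nil _ hne
    have h3 : x < n := by simpa using hR.subset hx
    obtain ⟨v, hv, h⟩ := hg (Finset.univ.filter fun u : Fin n => u.1 ∈ R) ⟨⟨x, h3⟩, by simpa⟩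
    exact ⟨v, by simpa using hv, (cnt R v hR).trans h⟩

theorem main {n : ℕ} (G : SimpleGraph (Fin n)) [DecidableRel G.Adj] (hd : G.maxDegree ≤ 6)
    (hg : ∀ S : Finset (Fin n), S.Nonempty → ∃ v ∈ S, (S.filter (G.Adj v)).card ≤ 3) :
    IsDrawing G
      (fun u => pt ((draw (List.ofFn fun u => List.ofFn fun v => decide (G.Adj u v))).1.getD u 0))
      (fun u v => pt (((draw (List.ofFn fun u => List.ofFn fun v =>
        decide (G.Adj u v))).2.getD u []).getD v 0)) :=
  draw_correct (good_of G hd hg) (by simp) G fun u v => by simp [adj]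

end Pool.Agent.Lib.MP_6b7ffe_lc
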