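import Pool.Agent.Lib.MP_6b7ffe_lc.Orient

set_option autoImplicit false

namespace Pool.Agent.Lib.MP_6b7ffe_lc

open Function Pool.Agent.Lib.Complexity

def ind (D : Arcs) (v : ℕ) : ℕ := D.countP fun p => decide (p.2 = v)

/-- number of arc ends in `S` -/
def ends (D : Arcs) (S : Finset ℕ) : ℕ :=
  (D.countP fun p => decide (p.1 ∈ S)) + D.countP fun p => decide (p.2 ∈ S)

theorem sum_ind (S : Finset ℕ) (D : Arcs) :
    ∑ v ∈ S, ind D v = D.countP fun p => decide (p.2 ∈ S) := by
  induction D with
  | nil => simp [ind]
  | cons p D ih =>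
    rw [List.countP_cons, ← ih]
    simp only [ind, List.countP_cons, Finset.sum_add_distrib, decide_eq_true_eq]
    congr 1
    simp

theorem sum_deg (S : Finset ℕ) (D : Arcs) : ∑ v ∈ S, (outd D v + ind D v) = ends D S := by
  rw [Finset.sum_add_distrib, sum_outd, sum_ind, ends]

theorem ins_super (D : Arcs) (S T : Finset ℕ) :
    ins D S + ins D T ≤ ins D (S ∩ T) + ins D (S ∪ T) := by
  induction D with
  | nil => simp [ins]
  | cons p D ih =>
    simp only [ins, List.countP_cons, decide_eq_true_eq, Finset.mem_inter, Finset.mem_union] at ih ⊢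
    split_ifs <;> first | omega | tauto

theorem ins_small {D : Arcs} (hl : ∀ p ∈ D, p.1 ≠ p.2) {S : Finset ℕ} (hS : S.card ≤ 1) :
    ins D S = 0 := by
  refine List.countP_eq_zero.2 fun p hp => ?_
  simp only [decide_eq_true_eq, not_and]
  exact fun a b => hl p hp (Finset.card_le_one.1 hS _ a _ b)

theorem ins_le_sum (D : Arcs) (S : Finset ℕ) : ins D S ≤ ∑ v ∈ S, outd D v := by
  rw [sum_outd]
  exact List.countP_mono_left fun p _ => by simp only [decide_eq_true_eq]; exact fun h => h.1

theorem ins_sub {D D' : Arcs} (h : D'.Sublist D) (S : Finset ℕ) : ins D' S ≤ ins D S :=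
  h.countP_le

def inC (C : Finset ℕ) (p : ℕ × ℕ) : Bool := decide (p.1 ∈ C ∧ p.2 ∈ C)

theorem split_ins (D : Arcs) (C S : Finset ℕ) :
    ins D S = ins (D.filter (inC C)) S + ins (D.filter fun p => !inC C p) S := by
  induction D with
  | nil => simp [ins]
  | cons p D ih =>
    unfold ins at ih ⊢
    by_cases h : inC C p = true
    · rw [List.filter_cons_of_pos h, List.filter_cons_of_neg (by simp [h]), List.countP_cons,
        List.countP_cons]; omega
    · rw [List.filter_cons_of_neg h, List.filter_cons_of_pos (by simpa using h), List.countP_cons,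
        List.countP_cons]; omega

theorem split_ends (D : Arcs) (C S : Finset ℕ) :
    ends D S = ends (D.filter (inC C)) S + ends (D.filter fun p => !inC C p) S := by
  induction D with
  | nil => simp [ends]
  | cons p D ih =>
    unfold ends at ih ⊢
    by_cases h : inC C p = true
    · rw [List.filter_cons_of_pos h, List.filter_cons_of_neg (by simp [h])]
      simp only [List.countP_cons]; omega
    · rw [List.filter_cons_of_neg h, List.filter_cons_of_pos (by simpa using h)]
      simp only [List.countP_cons]; omega

theorem ends_comp (D : Arcs) (C S : Finset ℕ) :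
    ends (D.filter (inC C)) S + ins D (C \ S) = ins D C + ins (D.filter (inC C)) S ∧
    ends (D.filter (inC C)) S ≤ ends D (S ∩ C) ∧ ends (D.filter (inC C)) S ≤ 2 * ins D C := by
  induction D with
  | nil => simp [ends, ins]
  | cons p D ih =>
    unfold ends ins at ih ⊢
    by_cases h : inC C p = true
    · rw [List.filter_cons_of_pos h]
      simp only [inC, decide_eq_true_eq] at h
      simp only [List.countP_cons, decide_eq_true_eq, Finset.mem_inter, Finset.mem_sdiff, h.1, h.2,
        and_true, true_and, if_true] at ih ⊢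
      split_ifs <;> first | omega | tauto
    · rw [List.filter_cons_of_neg h]
      simp only [inC, decide_eq_true_eq] at h
      simp only [List.countP_cons, decide_eq_true_eq, Finset.mem_inter, Finset.mem_sdiff] at ih ⊢
      split_ifs <;> first | omega | tauto

theorem two_ins_le (D : Arcs) (S : Finset ℕ) : 2 * ins D S ≤ ends D S := by
  induction D with
  | nil => simp [ends, ins]
  | cons p D ih =>
    simp only [ends, ins, List.countP_cons, decide_eq_true_eq] at ih ⊢
    split_ifs <;> first | omega | tauto

theorem ends_sub {D D' : Arcs} (h : D'.Sublist D) (S : Finset ℕ) : ends D' S ≤ ends D S :=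
  Nat.add_le_add h.countP_le h.countP_le

theorem hall_aux (S : Finset ℕ) (N : ℕ) : ∀ (B R : Arcs), R.length ≤ N → (∀ p ∈ B, p.1 ≠ p.2) →
    (∀ p ∈ R, p.1 ≠ p.2) → Sparse B →
    (∀ e ∈ R, ∃ T : Finset ℕ, e.1 ∈ T ∧ e.2 ∈ T ∧ 2 * T.card ≤ ins B T + 3) →
    (∀ T : Finset ℕ, ends B T + ends R T ≤ 6 * T.card) →
    (∀ C : Finset ℕ, 2 ≤ C.card → 2 * (ins B C + ins R C) + 9 ≤ 6 * C.card) →
    3 * ins B S + ends R S ≤ 2 * ends B S := by
  induction N with
  | zero =>
    intro B R hR _ _ _ _ _ _
    rw [List.length_eq_zero_iff.1 (Nat.le_zero.1 hR)]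
    have := two_ins_le B S
    simp only [ends, List.countP_nil] at this ⊢
    omega
  | succ N ih =>
    intro B R hR lB lR hs ht hd hE
    rcases R with _ | ⟨e, R'⟩
    · exact ih B [] (by simp) lB lR hs ht hd hE
    set R := e :: R' with hRe
    have he : e ∈ R := by simp [hRe]
    obtain ⟨C, c1, c2, c3, cmax⟩ : ∃ C : Finset ℕ, e.1 ∈ C ∧ e.2 ∈ C ∧ 2 * C.card ≤ ins B C + 3 ∧
        ∀ T : Finset ℕ, e.1 ∈ T → e.2 ∈ T → 2 * T.card ≤ ins B T + 3 → T.card ≤ C.card := by
      by_contra hc
      push Not at hc
      have : ∀ m, ∃ T : Finset ℕ, e.1 ∈ T ∧ e.2 ∈ T ∧ 2 * T.card ≤ ins B T + 3 ∧ m ≤ T.card := by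
        intro m
        induction m with
        | zero => obtain ⟨T, a, b, c⟩ := ht e he; exact ⟨T, a, b, c, Nat.zero_le _⟩
        | succ m ih =>
          obtain ⟨T, a, b, c, d⟩ := ih
          obtain ⟨T', a', b', c', d'⟩ := hc T a b c
          exact ⟨T', a', b', c', by omega⟩
      obtain ⟨T, -, -, c, d⟩ := this (B.length + 4)
      have : ins B T ≤ B.length := List.countP_le_length
      omega
    have hC : 2 ≤ C.card := Finset.one_lt_card.2 ⟨_, c1, _, c2, lR e he⟩
    have sB : (B.filter fun p => !inC C p).Sublist B := List.filter_sublist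
    have sR : (R.filter fun p => !inC C p).Sublist R := List.filter_sublist
    have h1 := ih (B.filter fun p => !inC C p) (R.filter fun p => !inC C p) (by
        have : (R.filter fun p => !inC C p).length < R.length :=
          List.length_filter_lt_length_iff_exists.2 ⟨e, he, by simp [inC, c1, c2]⟩
        omega)
      (fun p hp => lB p (sB.subset hp)) (fun p hp => lR p (sR.subset hp))
      (fun T hT => by have := hs T hT; have := ins_sub sB T; omega)
      (fun f hf => by
        obtain ⟨f1, f2⟩ := List.mem_filter.1 hf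
        obtain ⟨T, a, b, c⟩ := ht f f1
        refine ⟨T, a, b, ?_⟩
        have hTC : (T ∩ C).card ≤ 1 := by
          by_contra hc
          have a1 := hs (T ∩ C) (by omega)
          have a2 := ins_super B T C
          have a3 := Finset.card_union_add_card_inter T C
          have a4 := cmax (T ∪ C) (by simp [c1]) (by simp [c2]) (by omega)
          have a5 : T ∪ C = C :=
            (Finset.eq_of_subset_of_card_le Finset.subset_union_right a4).symm
          have a6 : T ⊆ C := a5 ▸ Finset.subset_union_left
          simp [inC, a6 a, a6 b] at f2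
        have z : ins (B.filter (inC C)) T = 0 := by
          refine List.countP_eq_zero.2 fun p hp => ?_
          obtain ⟨p1, p2⟩ := List.mem_filter.1 hp
          simp only [inC, decide_eq_true_eq] at p2
          simp only [decide_eq_true_eq, not_and]
          exact fun x y => lB p p1 (Finset.card_le_one.1 hTC _ (by simp [x, p2.1]) _
            (by simp [y, p2.2]))
        have := split_ins B C T
        omega)
      (fun T => by have := hd T; have := ends_sub sB T; have := ends_sub sR T; omega)
      (fun T hT => by have := hE T hT; have := ins_sub sB T; have := ins_sub sR T; omega)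
    have b1 := split_ins B C S
    have b2 := split_ends B C S
    have b3 := split_ends R C S
    obtain ⟨d1, d2, d3⟩ := ends_comp B C S
    obtain ⟨-, d4, d5⟩ := ends_comp R C S
    have d6 := hd (S ∩ C)
    have d7 := hE C hC
    have d8 := Finset.card_sdiff_add_card_inter C S
    rw [Finset.inter_comm] at d8
    by_cases hc : 2 ≤ (C \ S).card
    · have := hs _ hc
      omega
    · have := ins_small lB (S := C \ S) (by omega)
      omega

def caps2 (n a b : ℕ) : List ℕ := (List.range n).map fun v => if v = a ∨ v = b then 0 else 2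

def tryAdd (n : ℕ) (e : ℕ × ℕ) (D : Arcs) : Arcs :=
  if outd (red n (caps2 n e.1 e.2) D) e.1 = 0 ∧ outd (red n (caps2 n e.1 e.2) D) e.2 = 0 then
    e :: red n (caps2 n e.1 e.2) D else D

def base (n : ℕ) (W U : Arcs) : Arcs := U.foldr (tryAdd n) W

theorem cap_map {n v : ℕ} (f : ℕ → ℕ) (hv : v < n) : cap ((List.range n).map f) v = f v := by
  simp [cap, hv]

theorem cap_caps2 (n a b v : ℕ) : cap (caps2 n a b) v ≤ 2 := by
  by_cases hv : v < n
  · rw [caps2, cap_map _ hv]; split_ifs <;> omega
  · simp [cap, caps2, hv]

theorem sum_two {S : Finset ℕ} {a b : ℕ} (hab : a ≠ b) :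
    ∑ v ∈ S, (if v = a ∨ v = b then 0 else 2) + 2 * ((if a ∈ S then 1 else 0) +
      (if b ∈ S then 1 else 0)) = 2 * S.card := by
  induction S using Finset.induction_on with
  | empty => simp
  | insert x S hx ih =>
    rw [Finset.sum_insert hx, Finset.card_insert_of_notMem hx]
    simp only [Finset.mem_insert] at ih ⊢
    by_cases h1 : x = a
    · subst h1; simp only [hx, true_or, if_true, if_false, hab.symm, false_or] at ih ⊢; omega
    · by_cases h2 : x = b
      · subst h2; simp only [hx, true_or, or_true, if_true, if_false, hab, false_or] at ih ⊢; omega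
      · simp only [h1, h2, Ne.symm h1, Ne.symm h2, or_self, if_false, false_or] at ih ⊢; omega

theorem base_spec {n : ℕ} {W : Arcs} (U : Arcs) (hw : Within n (U ++ W))
    (hn : ((U ++ W).map nm).Nodup) (hs : Sparse W) (ho : ∀ v, outd W v ≤ 2) :
    Within n (base n W U) ∧ Sparse (base n W U) ∧ (∀ v, outd (base n W U) v ≤ 2) ∧
    (∃ U' : Arcs, U'.Sublist U ∧ ((base n W U).map nm).Perm ((U' ++ W).map nm)) ∧
    ∀ e ∈ U, nm e ∈ (base n W U).map nm ∨
      ∃ T : Finset ℕ, e.1 ∈ T ∧ e.2 ∈ T ∧ 2 * T.card ≤ ins (base n W U) T + 3 := by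
  induction U with
  | nil => exact ⟨hw, hs, ho, ⟨[], List.Sublist.refl _, List.Perm.refl _⟩, by simp⟩
  | cons e U ih =>
    obtain ⟨a1, a2, a3, ⟨U', a4, a5⟩, a6⟩ := ih (fun p hp => hw p (by simp at hp ⊢; tauto))
      (List.nodup_cons.1 hn).2
    change Within n (tryAdd n e (base n W U)) ∧ Sparse (tryAdd n e (base n W U)) ∧
      (∀ v, outd (tryAdd n e (base n W U)) v ≤ 2) ∧
      (∃ U' : Arcs, U'.Sublist (e :: U) ∧
        ((tryAdd n e (base n W U)).map nm).Perm ((U' ++ W).map nm)) ∧
      ∀ f ∈ e :: U, nm f ∈ (tryAdd n e (base n W U)).map nm ∨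
        ∃ T : Finset ℕ, f.1 ∈ T ∧ f.2 ∈ T ∧ 2 * T.card ≤ ins (tryAdd n e (base n W U)) T + 3
    set D := base n W U
    have he := hw e (by simp)
    have hD : (D.map nm).Nodup := a5.nodup_iff.2
      ((List.nodup_cons.1 hn).2.sublist ((a4.append_right W).map nm))
    obtain ⟨r1, r2, r3, -, r5⟩ := red_spec (caps2 n e.1 e.2) hD a1
    have r6 : ∀ v, outd (red n (caps2 n e.1 e.2) D) v ≤ 2 := fun v =>
      (r3 v).trans (max_le (a3 v) (cap_caps2 ..))
    unfold tryAdd
    split_ifs with hc
    · set E := red n (caps2 n e.1 e.2) D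
      have i1 : ∀ T, ins (e :: E) T = ins D T + if e.1 ∈ T ∧ e.2 ∈ T then 1 else 0 := fun T => by
        rw [← ins_nm r1]; simp [ins, List.countP_cons]
      refine ⟨fun p hp => ?_, fun S hS => ?_, fun v => ?_, ⟨e :: U', a4.cons_cons e, ?_⟩,
        fun f hf => ?_⟩
      · rcases List.mem_cons.1 hp with rfl | hp
        · exact he
        · exact r2 p hp
      · rw [i1]
        split_ifs with h1
        · have b1 := ins_le_sum E S
          have b2 : ∑ v ∈ S, outd E v ≤ ∑ v ∈ S, (if v = e.1 ∨ v = e.2 then 0 else 2) :=
            Finset.sum_le_sum fun v _ => by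
              split_ifs with h2
              · rcases h2 with rfl | rfl
                · exact hc.1.le
                · exact hc.2.le
              · exact r6 v
          have b3 := sum_two (S := S) he.2.2
          rw [if_pos h1.1, if_pos h1.2] at b3
          rw [ins_nm r1] at b1
          omega
        · exact a2 S hS
      · have := r6 v
        simp only [outd, List.countP_cons, decide_eq_true_eq] at this hc ⊢
        split_ifs with h1
        · subst h1; omega
        · omega
      · exact (r1.trans a5).cons (nm e)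
      · rcases List.mem_cons.1 hf with rfl | hf
        · left; simp
        · rcases a6 f hf with b | ⟨T, b1, b2, b3⟩
          · left
            exact List.mem_cons_of_mem _ (r1.symm.subset b)
          · right
            exact ⟨T, b1, b2, by rw [i1]; omega⟩
    · refine ⟨a1, a2, a3, ⟨U', a4.cons e, a5⟩, fun f hf => ?_⟩
      rcases List.mem_cons.1 hf with rfl | hf
      · right
        rcases r5 with b | ⟨S, b1, b2⟩
        · exfalso
          apply hc
          have c1 := b f.1
          have c2 := b f.2
          rw [caps2, cap_map _ he.1, if_pos (.inl rfl)] at c1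
          rw [caps2, cap_map _ he.2.1, if_pos (.inr rfl)] at c2
          exact ⟨Nat.le_zero.1 c1, Nat.le_zero.1 c2⟩
        · have b3 : ∑ v ∈ S, cap (caps2 n f.1 f.2) v = ∑ v ∈ S, (if v = f.1 ∨ v = f.2 then 0 else 2) :=
            Finset.sum_congr rfl fun v hv => cap_map _ (Finset.mem_range.1 (b1 hv))
          have b4 := sum_two (S := S) he.2.2
          have b5 : 2 ≤ S.card := by
            by_contra hc
            have := ins_small (fun p hp => (a1 p hp).2.2) (S := S) (by omega)
            omega
          have b6 := a2 S b5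
          refine ⟨S, ?_, ?_, ?_⟩
          · by_contra hc; rw [if_neg hc] at b4; split_ifs at b4 <;> omega
          · by_contra hc; rw [if_neg hc] at b4; split_ifs at b4 <;> omega
          · split_ifs at b4 <;> omega
      · exact a6 f hf

section
variable {α : Type} [Enc α] {n v : α → ℕ} {D W U : α → Arcs}

@[fun_prop] theorem pt_ind (hD : PT D) (hv : PT v) : PT fun x => ind (D x) (v x) := by
  unfold ind; fun_prop

@[fun_prop] theorem pt_base (hn : PT n) (hW : PT W) (hU : PT U) :
    PT fun x => base (n x) (W x) (U x) := by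
  refine PT.foldr_add' (f := fun x => tryAdd (n x)) (g := fun _ e => sz e + 1) hU hW
    (by unfold tryAdd caps2; fun_prop) (by fun_prop) fun x e D => ?_
  unfold tryAdd
  split_ifs
  · have := sz_red (n x) (caps2 (n x) e.1 e.2) D
    rw [sz_cons]; omega
  · omega

end

end Pool.Agent.Lib.MP_6b7ffe_lc
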